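import Mathlib
import Pool.Agent.W829.UC.Stmts

/-! UC-B5b: cost of the filled certificate. -/

set_option autoImplicit false
set_option linter.all false

open Set
open Pool.Agent.H978R2 Pool.Agent.W829.UC

namespace Pool.Agent.W826.UCB5b

lemma mem_U1 {A : ℤ} {x : ℤ × ℤ} : x ∈ U1 A ↔ x.1 ≤ A * (x.2 - 1) := Iff.rfl

lemma mem_Hf {x : ℤ × ℤ} : x ∈ Hf 1 ↔ 1 ≤ x.2 := by
  show 1 ≤ 1 * x.2 ↔ _
  rw [one_mul]

lemma mem_Zw {A : ℤ} {x : ℤ × ℤ} : x ∈ Zw A ↔ 0 ≤ x.1 ∧ A * (|x.2| - 1) < x.1 := Iff.rfl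

lemma mem_Ly {A : ℤ} {k : ℕ} {x : ℤ × ℤ} :
    x ∈ Ly A k ↔ A * (x.2 - 1) < x.1 ∧ x.1 ≤ A * x.2 ∧ -(k * A) ≤ x.1 := Iff.rfl

/-- four neighbours -/
lemma nbs {G : SimpleGraph (ℤ × ℤ)} (hG : G ≤ lat) {x y : ℤ × ℤ} (h : G.Adj x y) :
    (y.1 = x.1 + 1 ∧ y.2 = x.2) ∨ (y.1 = x.1 - 1 ∧ y.2 = x.2) ∨
    (y.1 = x.1 ∧ y.2 = x.2 + 1) ∨ (y.1 = x.1 ∧ y.2 = x.2 - 1) := by
  have h1 := lat_adj.1 (hG h)
  omega

lemma notZ {A : ℤ} (hA : 2 ≤ A) {y : ℤ × ℤ} (h1 : 1 ≤ y.2) (h : y ∉ Zw A) : y ∈ U1 A := by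
  rw [mem_Zw] at h
  rw [mem_U1]
  by_contra hc
  push Not at hc
  apply h
  have habs : |y.2| = y.2 := abs_of_nonneg (by omega)
  rw [habs]
  refine ⟨?_, hc⟩
  have : 0 ≤ A * (y.2 - 1) := mul_nonneg (by omega) (by omega)
  omega

lemma U1_notZ {A : ℤ} (hA : 2 ≤ A) {y : ℤ × ℤ} (h1 : 1 ≤ y.2) (h : y ∈ U1 A) : y ∉ Zw A := by
  rw [mem_Zw]
  rw [mem_U1] at h
  have habs : |y.2| = y.2 := abs_of_nonneg (by omega)
  rw [habs]
  rintro ⟨-, h2⟩
  omega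

theorem fm_att {G : SimpleGraph (ℤ × ℤ)} {U : Set (ℤ × ℤ)} (Λ : Finset (ℤ × ℤ)) (B : Set (ℤ × ℤ)) :
    ∃ W : Finset (ℤ × ℤ), W ⊆ Λ ∧ (∀ x ∈ Λ, x ∈ B → x ∈ W) ∧ cst G U W = fm G U Λ B := by
  have : fm G U Λ B ∈ {n | ∃ W : Finset (ℤ × ℤ), W ⊆ Λ ∧ (∀ x ∈ Λ, x ∈ B → x ∈ W) ∧
      cst G U W = n} := Nat.sInf_mem ⟨_, Λ, subset_rfl, fun x hx _ => hx, rfl⟩
  exact this

theorem fm_le {G : SimpleGraph (ℤ × ℤ)} {U : Set (ℤ × ℤ)} (Λ : Finset (ℤ × ℤ)) (B : Set (ℤ × ℤ)) :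
    fm G U Λ B ≤ cst G U Λ :=
  Nat.sInf_le ⟨Λ, subset_rfl, fun x hx _ => hx, rfl⟩

theorem step2 {A : ℤ} (hA : 2 ≤ A) {G : SimpleGraph (ℤ × ℤ)} (hG : G ≤ lat)
    {W : Finset (ℤ × ℤ)} (hW : ∀ x ∈ W, x ∈ Hf 1)
    (hc : Cert (res G (Hf 1)) (Zw A ∩ Hf 1) W) {Λ : Finset (ℤ × ℤ)}
    (h1 : ∀ x ∈ W, x ∈ Λ) (h2 : ∀ x ∈ Λ, 1 ≤ x.2 → x ∈ W) :
    cst (res G (Hf 1)) (Zw A ∩ Hf 1)ᶜ W ≤ fm G (U1 A) Λ (Ly A 0) := by
  classical
  obtain ⟨W0, hW0, hW0', he⟩ := fm_att (G := G) (U := U1 A) Λ (Ly A 0)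
  rw [← he]
  set W' : Finset (ℤ × ℤ) := (W0.filter (fun x => x ∈ Hf 1 ∧ x ∈ U1 A)) ∪
    (W.filter (fun x => x ∈ Zw A ∩ Hf 1)) with hW'
  have hsub : W' ⊆ W := by
    intro x hx
    rw [hW', Finset.mem_union, Finset.mem_filter, Finset.mem_filter] at hx
    rcases hx with ⟨hx, hx', -⟩ | ⟨hx, -⟩
    · exact h2 x (hW0 hx) (mem_Hf.1 hx')
    · exact hx
  have hcon : ∀ x ∈ W, x ∈ Zw A ∩ Hf 1 → x ∈ W' := by
    intro x hx hx'
    rw [hW', Finset.mem_union, Finset.mem_filter, Finset.mem_filter]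
    exact Or.inr ⟨hx, hx'⟩
  refine (hc W' hsub hcon).trans ?_
  unfold cst
  apply Finset.card_le_card
  intro x hx
  rw [Finset.mem_filter] at hx ⊢
  obtain ⟨hxW', y, hy, ⟨hadj, hxH, hyH⟩, hyW'⟩ := hx
  have hyH1 := mem_Hf.1 hyH
  have hxH1 := mem_Hf.1 hxH
  have hyZ : y ∉ Zw A := fun h => hy ⟨h, hyH⟩
  have hyU : y ∈ U1 A := notZ hA hyH1 hyZ
  have hyW0 : y ∉ W0 := by
    intro h
    apply hyW'
    rw [hW', Finset.mem_union, Finset.mem_filter, Finset.mem_filter]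
    exact Or.inl ⟨h, hyH, hyU⟩
  refine ⟨?_, y, hyU, hadj, hyW0⟩
  by_contra hxW0
  have hxW : x ∈ W := hsub hxW'
  have hxZ : x ∈ Zw A := by
    rw [hW', Finset.mem_union, Finset.mem_filter, Finset.mem_filter] at hxW'
    rcases hxW' with ⟨h, -⟩ | ⟨-, h⟩
    · exact absurd h hxW0
    · exact h.1
  have hxL : x ∉ Ly A 0 := fun h => hxW0 (hW0' x (h1 x hxW) h)
  rw [mem_Zw] at hxZ
  have habs : |x.2| = x.2 := abs_of_nonneg (by omega)
  rw [habs] at hxZ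
  obtain ⟨hz1, hz2⟩ := hxZ
  have hx3 : A * x.2 < x.1 := by
    by_contra hcon
    push Not at hcon
    exact hxL (mem_Ly.2 ⟨hz2, hcon, by simpa using hz1⟩)
  rw [mem_U1] at hyU
  rcases nbs hG hadj with ⟨e1, e2⟩ | ⟨e1, e2⟩ | ⟨e1, e2⟩ | ⟨e1, e2⟩
  · rw [e1, e2] at hyU
    nlinarith
  · rw [e1, e2] at hyU
    nlinarith
  · rw [e1, e2] at hyU
    nlinarith
  · rw [e1, e2] at hyU
    nlinarith

theorem main : S_B5b := by
  classical
  intro A hA G hG W j hW hc hj hrow hrow'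
  -- `k = ⌊j / A⌋`
  obtain ⟨k, hk1, hk2, hk3⟩ : ∃ k : ℕ, 1 ≤ k ∧ (k : ℤ) * A ≤ j ∧ j < ((k : ℤ) + 1) * A := by
    have hq : 1 ≤ j / A := by
      rw [Int.le_ediv_iff_mul_le (by omega)]; omega
    refine ⟨(j / A).toNat, by omega, ?_, ?_⟩
    · rw [Int.toNat_of_nonneg (by omega)]
      exact Int.ediv_mul_le j (by omega)
    · rw [Int.toNat_of_nonneg (by omega)]
      exact Int.lt_ediv_add_one_mul_self j (by omega)
  have hkA : 0 ≤ (k : ℤ) * A := mul_nonneg (by omega) (by omega)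
  set T : Finset (ℤ × ℤ) := ((Finset.Icc (-j) 0) ×ˢ (Finset.Icc (-j) 0)).filter
    (fun x => x ∈ U1 A ∧ x.2 ≤ 0 ∧ -j ≤ x.1) with hT
  set L : Finset (ℤ × ℤ) := ((Finset.Icc (-(k * A)) 0) ×ˢ (Finset.Icc (-(k : ℤ)) 0)).filter
    (fun x => x ∈ Ly A k ∧ x ∉ Ly A 0) with hL
  have memT : ∀ x, x ∈ T ↔ x ∈ U1 A ∧ x.2 ≤ 0 ∧ -j ≤ x.1 := by
    intro x
    rw [hT, Finset.mem_filter]
    refine ⟨fun h => h.2, fun h => ⟨?_, h⟩⟩
    obtain ⟨h1, h2, h3⟩ := h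
    rw [mem_U1] at h1
    rw [Finset.mem_product, Finset.mem_Icc, Finset.mem_Icc]
    have h4 : A * (x.2 - 1) ≤ x.2 - 1 := by nlinarith
    exact ⟨⟨h3, by omega⟩, by omega, h2⟩
  have Lfacts : ∀ x, x ∈ Ly A k → x ∉ Ly A 0 → x.1 < 0 ∧ x.2 ≤ 0 ∧ -(k : ℤ) ≤ x.2 := by
    intro x hx hx'
    rw [mem_Ly] at hx
    obtain ⟨h1, h2, h3⟩ := hx
    have h4 : x.1 < 0 := by
      by_contra hcon
      push Not at hcon
      exact hx' (mem_Ly.2 ⟨h1, h2, by simpa using hcon⟩)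
    have h5 : x.2 ≤ 0 := by
      by_contra hcon
      push Not at hcon
      have : 0 ≤ A * (x.2 - 1) := mul_nonneg (by omega) (by omega)
      omega
    refine ⟨h4, h5, ?_⟩
    by_contra hcon
    push Not at hcon
    have h6 : x.2 ≤ -(k : ℤ) - 1 := by omega
    nlinarith
  have memL : ∀ x, x ∈ L ↔ x ∈ Ly A k ∧ x ∉ Ly A 0 := by
    intro x
    rw [hL, Finset.mem_filter]
    refine ⟨fun h => h.2, fun h => ⟨?_, h⟩⟩
    obtain ⟨h4, h5, h6⟩ := Lfacts x h.1 h.2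
    rw [Finset.mem_product, Finset.mem_Icc, Finset.mem_Icc]
    exact ⟨⟨h.1.2.2, by omega⟩, h6, h5⟩
  set Λ : Finset (ℤ × ℤ) := W ∪ (T ∪ L) with hΛ
  have memΛ : ∀ x, x ∈ Λ ↔ x ∈ W ∨ x ∈ T ∨ x ∈ L := by
    intro x
    rw [hΛ, Finset.mem_union, Finset.mem_union]
  refine ⟨k, Λ, hk1, fun x h1 h2 => (memΛ x).2 (Or.inr (Or.inr ((memL x).2 ⟨h1, h2⟩))), ?_⟩
  have hs2 : cst (res G (Hf 1)) (Zw A ∩ Hf 1)ᶜ W ≤ fm G (U1 A) Λ (Ly A 0) := by
    refine step2 hA hG hW hc (fun x hx => (memΛ x).2 (Or.inl hx)) ?_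
    intro x hx hx1
    rcases (memΛ x).1 hx with h | h | h
    · exact h
    · have := ((memT x).1 h).2.1
      omega
    · have := (Lfacts x ((memL x).1 h).1 ((memL x).1 h).2).2.1
      omega
  refine (fm_le Λ _).trans (le_trans ?_ (Nat.add_le_add_right hs2 k))
  -- (1)
  have hrowmem : ∀ y : ℤ × ℤ, y.2 = 1 → -j ≤ y.1 → y.1 ≤ 0 → y ∈ W := by
    intro y hy1 hy2 hy3
    have := hrow (-y.1) (by omega) (by omega)
    have e : ((- -y.1, 1) : ℤ × ℤ) = y := by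
      apply Prod.ext
      · simp
      · exact hy1.symm
    rwa [e] at this
  have key : (Λ.filter (fun x => ∃ y, y ∈ U1 A ∧ G.Adj x y ∧ y ∉ Λ)) ⊆
      (W.filter (fun x => ∃ y, y ∈ (Zw A ∩ Hf 1)ᶜ ∧ (res G (Hf 1)).Adj x y ∧ y ∉ W)) ∪
      (({-j} : Finset ℤ) ×ˢ Finset.Icc (1 - (k : ℤ)) 0) := by
    intro x hx
    rw [Finset.mem_filter] at hx
    obtain ⟨hxΛ, y, hyU, hadj, hyΛ⟩ := hx
    rw [memΛ] at hyΛ
    push Not at hyΛ
    obtain ⟨hyW, hyT, -⟩ := hyΛ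
    rw [memT] at hyT
    rw [Finset.mem_union]
    by_cases hxW : x ∈ W
    · -- x in W
      have hx1 := mem_Hf.1 (hW x hxW)
      by_cases hy1 : 1 ≤ y.2
      · left
        rw [Finset.mem_filter]
        exact ⟨hxW, y, fun h => U1_notZ hA hy1 hyU h.1, ⟨hadj, hW x hxW, mem_Hf.2 hy1⟩, hyW⟩
      · exfalso
        rw [mem_U1] at hyU hyT
        rcases nbs hG hadj with ⟨e1, e2⟩ | ⟨e1, e2⟩ | ⟨e1, e2⟩ | ⟨e1, e2⟩
        · omega
        · omega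
        · omega
        · have hx2 : x.2 = 1 := by omega
          have hy0 : y.2 = 0 := by omega
          rw [hy0] at hyU
          have hyj : -j ≤ y.1 := by
            by_contra hcon
            push Not at hcon
            have := hrow' (-y.1) (by omega)
            apply this
            have e : ((- -y.1, 1) : ℤ × ℤ) = x := by
              apply Prod.ext
              · show - -y.1 = x.1
                omega
              · exact hx2.symm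
            rwa [e]
          apply hyT
          rw [hy0]
          exact ⟨hyU, le_refl _, hyj⟩
    · rcases (memΛ x).1 hxΛ with h | h | h
      · exact absurd h hxW
      · -- x in T
        rw [memT] at h
        obtain ⟨hx1, hx2, hx3⟩ := h
        rw [mem_U1] at hx1 hyU hyT
        have hx0 : x.1 ≤ 0 := by
          have h4 : A * (x.2 - 1) ≤ x.2 - 1 := by nlinarith
          omega
        rcases nbs hG hadj with ⟨e1, e2⟩ | ⟨e1, e2⟩ | ⟨e1, e2⟩ | ⟨e1, e2⟩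
        · exfalso
          exact hyT ⟨hyU, by omega, by omega⟩
        · right
          have hxj : x.1 = -j := by
            by_contra hcon
            exact hyT ⟨hyU, by omega, by omega⟩
          rw [Finset.mem_product, Finset.mem_singleton, Finset.mem_Icc]
          refine ⟨hxj, ?_, hx2⟩
          by_contra hcon
          push Not at hcon
          have h6 : x.2 - 1 ≤ -(k : ℤ) - 1 := by omega
          nlinarith
        · exfalso
          by_cases hx20 : x.2 = 0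
          · exact hyW (hrowmem y (by omega) (by omega) (by omega))
          · exact hyT ⟨hyU, by omega, by omega⟩
        · exfalso
          exact hyT ⟨hyU, by omega, by omega⟩
      · -- x in L
        exfalso
        rw [memL] at h
        obtain ⟨h4, h5, h6⟩ := Lfacts x h.1 h.2
        obtain ⟨h1, h2, h3⟩ := mem_Ly.1 h.1
        rw [mem_U1] at hyU hyT
        rcases nbs hG hadj with ⟨e1, e2⟩ | ⟨e1, e2⟩ | ⟨e1, e2⟩ | ⟨e1, e2⟩
        · rw [e1, e2] at hyU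
          omega
        · apply hyT
          refine ⟨hyU, by omega, ?_⟩
          rw [e1, e2] at hyU
          -- A (b-1) >= -kA
          have h7 : -(k : ℤ) ≤ x.2 - 1 := by
            by_contra hcon
            push Not at hcon
            have h8 : x.2 - 1 ≤ -(k : ℤ) - 1 := by omega
            nlinarith
          nlinarith
        · by_cases hx20 : x.2 = 0
          · exact hyW (hrowmem y (by omega) (by omega) (by omega))
          · exact hyT ⟨hyU, by omega, by omega⟩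
        · rw [e1, e2] at hyU
          nlinarith
  unfold cst
  refine (Finset.card_le_card key).trans ((Finset.card_union_le _ _).trans ?_)
  apply Nat.add_le_add_left
  rw [Finset.card_product, Finset.card_singleton, Int.card_Icc]
  omega

end Pool.Agent.W826.UCB5b
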