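import Mathlib
import Pool.Agent.W829.UC.Stmts

/-! UC-C5b: the event `Fp` has positive probability. -/

set_option autoImplicit false
set_option linter.all false

open MeasureTheory Set
open Pool.Agent.H978R2 Pool.Agent.W829.UC

namespace Pool.Agent.W826.UCC5b

lemma mem_U1 {A : ℤ} {x : ℤ × ℤ} : x ∈ U1 A ↔ x.1 ≤ A * (x.2 - 1) := Iff.rfl

lemma mem_Ly {A : ℤ} {k : ℕ} {x : ℤ × ℤ} :
    x ∈ Ly A k ↔ A * (x.2 - 1) < x.1 ∧ x.1 ≤ A * x.2 ∧ -(k * A) ≤ x.1 := Iff.rfl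

/-- the shift vector -/
def tv (A : ℤ) (i : ℕ) : ℤ × ℤ := ((i : ℤ) * A, (i : ℤ))

lemma img_U1 (A : ℤ) (i : ℕ) : trs (tv A i) '' U1 A = U1 A := by
  ext v
  constructor
  · rintro ⟨w, hw, rfl⟩
    rw [mem_U1] at hw
    show w.1 + (i : ℤ) * A ≤ A * ((w.2 + (i : ℤ)) - 1)
    have e : A * ((w.2 + (i : ℤ)) - 1) = A * (w.2 - 1) + (i : ℤ) * A := by ring
    omega
  · intro hv
    rw [mem_U1] at hv
    refine ⟨v - tv A i, ?_, by simp [trs]⟩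
    show v.1 - (i : ℤ) * A ≤ A * ((v.2 - (i : ℤ)) - 1)
    have e : A * ((v.2 - (i : ℤ)) - 1) = A * (v.2 - 1) - (i : ℤ) * A := by ring
    omega

lemma img_Ly (A : ℤ) (i j : ℕ) : trs (tv A i) '' Ly A (i + j) = Ly A j := by
  ext v
  constructor
  · rintro ⟨w, hw, rfl⟩
    obtain ⟨h1, h2, h3⟩ := mem_Ly.1 hw
    refine ⟨?_, ?_, ?_⟩
    · show A * ((w.2 + (i : ℤ)) - 1) < w.1 + (i : ℤ) * A
      have e : A * ((w.2 + (i : ℤ)) - 1) = A * (w.2 - 1) + (i : ℤ) * A := by ring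
      omega
    · show w.1 + (i : ℤ) * A ≤ A * (w.2 + (i : ℤ))
      have e : A * (w.2 + (i : ℤ)) = A * w.2 + (i : ℤ) * A := by ring
      omega
    · show -((j : ℤ) * A) ≤ w.1 + (i : ℤ) * A
      have e : ((i + j : ℕ) : ℤ) * A = (i : ℤ) * A + (j : ℤ) * A := by push_cast; ring
      omega
  · intro hv
    obtain ⟨h1, h2, h3⟩ := mem_Ly.1 hv
    refine ⟨v - tv A i, ?_, by simp [trs]⟩
    refine ⟨?_, ?_, ?_⟩
    · show A * ((v.2 - (i : ℤ)) - 1) < v.1 - (i : ℤ) * A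
      have e : A * ((v.2 - (i : ℤ)) - 1) = A * (v.2 - 1) - (i : ℤ) * A := by ring
      omega
    · show v.1 - (i : ℤ) * A ≤ A * (v.2 - (i : ℤ))
      have e : A * (v.2 - (i : ℤ)) = A * v.2 - (i : ℤ) * A := by ring
      omega
    · show -(((i + j : ℕ) : ℤ) * A) ≤ v.1 - (i : ℤ) * A
      have e : ((i + j : ℕ) : ℤ) * A = (i : ℤ) * A + (j : ℤ) * A := by push_cast; ring
      omega

lemma Ly_mono {A : ℤ} (hA : 1 ≤ A) {i j : ℕ} (h : i ≤ j) : Ly A i ⊆ Ly A j := by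
  intro x hx
  obtain ⟨h1, h2, h3⟩ := mem_Ly.1 hx
  refine ⟨h1, h2, ?_⟩
  have : (i : ℤ) * A ≤ (j : ℤ) * A := mul_le_mul_of_nonneg_right (by exact_mod_cast h) (by omega)
  omega

lemma S1_fin {A : ℤ} (hA : 1 ≤ A) : {x | x ∈ Ly A 1 ∧ x ∉ Ly A 0}.Finite := by
  refine ((Set.finite_Icc (-A) 0).prod (Set.finite_Icc (-1 : ℤ) 0)).subset ?_
  rintro x ⟨hx, hx'⟩
  obtain ⟨h1, h2, h3⟩ := mem_Ly.1 hx
  have h4 : x.1 < 0 := by
    by_contra hc
    push Not at hc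
    exact hx' ⟨h1, h2, by simpa using hc⟩
  have h5 : x.2 ≤ 0 := by
    by_contra hc
    push Not at hc
    have : 0 ≤ A * (x.2 - 1) := mul_nonneg (by omega) (by omega)
    omega
  push_cast at h3
  have h6 : -1 ≤ x.2 := by
    by_contra hc
    push Not at hc
    have : x.2 ≤ -2 := by omega
    nlinarith
  exact ⟨⟨by omega, by omega⟩, h6, h5⟩

/-- the shift of configurations -/
def tau (A : ℤ) (ω : Sym2 (ℤ × ℤ) → Bool) : Sym2 (ℤ × ℤ) → Bool :=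
  fun e => ω (Sym2.map (fun x => x - tv A 1) e)

lemma tau_iter (A : ℤ) (i : ℕ) (ω : Sym2 (ℤ × ℤ) → Bool) (x y : ℤ × ℤ) :
    ((tau A)^[i] ω) s(x + tv A i, y + tv A i) = ω s(x, y) := by
  induction i generalizing ω x y with
  | zero =>
    have e : ∀ z : ℤ × ℤ, z + tv A 0 = z := by
      intro z
      ext <;> simp [tv]
    rw [e, e]; rfl
  | succ i ih =>
    have e : ∀ z : ℤ × ℤ, z + tv A (i + 1) = (z + tv A 1) + tv A i := by
      intro z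
      ext <;> simp [tv] <;> ring
    rw [Function.iterate_succ_apply, e x, e y, ih]
    show ω (Sym2.map (fun x => x - tv A 1) s(x + tv A 1, y + tv A 1)) = _
    rw [Sym2.map_mk]
    simp

lemma tau_mp (A : ℤ) (p : NNReal) (hp : p ≤ 1) : MeasurePreserving (tau A) (mu p hp) (mu p hp) := by
  refine ⟨?_, ?_⟩
  · rw [measurable_pi_iff]
    intro e
    exact measurable_pi_apply _
  · exact map_comp_inj p hp (Sym2.map (fun x : ℤ × ℤ => x - tv A 1))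
      (Sym2.map.injective (fun a b h => by simpa using h))

/-- `fm` depends on finitely many edges -/
lemma fm_dep (h3 : S_C3) (U : Set (ℤ × ℤ)) (Λ : Finset (ℤ × ℤ)) (L : Set (ℤ × ℤ)) :
    ∃ J : Finset (Sym2 (ℤ × ℤ)), ∀ n : ℕ, DepOn (J : Set (Sym2 (ℤ × ℤ)))
      {ω : Sym2 (ℤ × ℤ) → Bool | fm (og ω) U Λ L = n} := by
  classical
  obtain ⟨-, -, -, -, -, -, h7, -⟩ := h3 (ℤ × ℤ) (og (fun _ => false)) U
  refine ⟨Λ.biUnion (fun x => (nb x).image (fun y => s(x, y))), fun n ω ω' h => ?_⟩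
  have key : fm (og ω) U Λ L = fm (og ω') U Λ L := by
    obtain ⟨-, -, -, -, -, -, h7, -⟩ := h3 (ℤ × ℤ) (og ω) U
    apply h7
    intro x hx y _
    have hnb : lat.Adj x y → y ∈ nb x := by
      intro hl
      rw [lat_adj] at hl
      unfold nb
      simp only [Finset.mem_insert, Finset.mem_singleton, Prod.ext_iff]
      omega
    have hmem : lat.Adj x y → ω s(x, y) = ω' s(x, y) := by
      intro hl
      apply h
      rw [Finset.mem_coe, Finset.mem_biUnion]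
      exact ⟨x, hx, Finset.mem_image.2 ⟨y, hnb hl, rfl⟩⟩
    constructor
    · rintro ⟨ha, hb⟩
      exact ⟨ha, by rw [← hmem ha]; exact hb⟩
    · rintro ⟨ha, hb⟩
      exact ⟨ha, by rw [hmem ha]; exact hb⟩
  show fm (og ω) U Λ L = n ↔ fm (og ω') U Λ L = n
  rw [key]

lemma fm_meas (h3 : S_C3) (U : Set (ℤ × ℤ)) (Λ : Finset (ℤ × ℤ)) (L : Set (ℤ × ℤ)) :
    Measurable (fun ω : Sym2 (ℤ × ℤ) → Bool => fm (og ω) U Λ L) := by
  obtain ⟨J, hJ⟩ := fm_dep h3 U Λ L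
  apply measurable_to_countable'
  intro n
  exact (hJ n).measurable_fin

section Main

variable (A : ℤ) (hA : 1 ≤ A)

/-- the sets `Λ_n` -/
noncomputable def Lam (n : ℕ) : Finset (ℤ × ℤ) :=
  open Classical in (S1_fin hA).toFinset ∪ ((Finset.Icc (-(n : ℤ)) n) ×ˢ (Finset.Icc (-(n : ℤ)) n))

lemma Lam_S1 (n : ℕ) : ∀ x, x ∈ Ly A 1 → x ∉ Ly A 0 → x ∈ Lam A hA n := by
  classical
  intro x h1 h2
  unfold Lam
  rw [Finset.mem_union]
  left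
  rw [Set.Finite.mem_toFinset]
  exact ⟨h1, h2⟩

lemma Lam_mono {m n : ℕ} (h : m ≤ n) : Lam A hA m ⊆ Lam A hA n := by
  classical
  unfold Lam
  apply Finset.union_subset_union_right
  apply Finset.product_subset_product <;> apply Finset.Icc_subset_Icc <;> omega

lemma Lam_cof (Λ : Finset (ℤ × ℤ)) : ∃ n, Λ ⊆ Lam A hA n := by
  classical
  obtain ⟨M, hM⟩ : ∃ M : ℕ, ∀ v ∈ Λ, v.1.natAbs + v.2.natAbs ≤ M :=
    ⟨∑ v ∈ Λ, (v.1.natAbs + v.2.natAbs), fun v hv =>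
      Finset.single_le_sum (f := fun v : ℤ × ℤ => v.1.natAbs + v.2.natAbs)
        (fun _ _ => Nat.zero_le _) hv⟩
  refine ⟨M, fun v hv => ?_⟩
  have := hM v hv
  unfold Lam
  rw [Finset.mem_union, Finset.mem_product, Finset.mem_Icc, Finset.mem_Icc]
  right
  omega

/-- the increment -/
noncomputable def DD (Λ : Finset (ℤ × ℤ)) (ω : Sym2 (ℤ × ℤ) → Bool) : ℝ :=
  (fm (og ω) (U1 A) Λ (Ly A 1) : ℝ) - (fm (og ω) (U1 A) Λ (Ly A 0) : ℝ)

lemma DD_meas (h3 : S_C3) (Λ : Finset (ℤ × ℤ)) : Measurable (DD A Λ) := by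
  have m1 := fm_meas h3 (U1 A) Λ (Ly A 1)
  have m0 := fm_meas h3 (U1 A) Λ (Ly A 0)
  unfold DD
  exact ((measurable_from_top (f := fun n : ℕ => (n : ℝ))).comp m1).sub
    ((measurable_from_top (f := fun n : ℕ => (n : ℝ))).comp m0)

include hA in
lemma DD_nonneg (h3 : S_C3) (Λ : Finset (ℤ × ℤ)) (ω : Sym2 (ℤ × ℤ) → Bool) : 0 ≤ DD A Λ ω := by
  obtain ⟨-, -, h, -⟩ := h3 (ℤ × ℤ) (og ω) (U1 A)
  have := h Λ (Ly A 0) (Ly A 1) (Ly_mono hA (by omega))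
  unfold DD
  have h' : (fm (og ω) (U1 A) Λ (Ly A 0) : ℝ) ≤ (fm (og ω) (U1 A) Λ (Ly A 1) : ℝ) := by
    exact_mod_cast this
  linarith

lemma DD_le (h3 : S_C3) (Λ : Finset (ℤ × ℤ)) (ω : Sym2 (ℤ × ℤ) → Bool) :
    DD A Λ ω ≤ ((S1_fin hA).toFinset.card : ℝ) := by
  obtain ⟨-, -, -, h, -⟩ := h3 (ℤ × ℤ) (og ω) (U1 A)
  have := h Λ (Ly A 0) (Ly A 1) (S1_fin hA).toFinset (fun x h1 h2 => by
    rw [Set.Finite.mem_toFinset]; exact ⟨h1, h2⟩)
  unfold DD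
  have h' : (fm (og ω) (U1 A) Λ (Ly A 1) : ℝ) ≤ (fm (og ω) (U1 A) Λ (Ly A 0) : ℝ) +
      ((S1_fin hA).toFinset.card : ℝ) := by
    exact_mod_cast this
  linarith

include hA in
lemma DD_anti (h3 : S_C3) {Λ Λ' : Finset (ℤ × ℤ)} (h : Λ ⊆ Λ')
    (hS : ∀ x, x ∈ Ly A 1 → x ∉ Ly A 0 → x ∈ Λ) (ω : Sym2 (ℤ × ℤ) → Bool) :
    DD A Λ' ω ≤ DD A Λ ω := by
  obtain ⟨-, -, -, -, -, h6, -⟩ := h3 (ℤ × ℤ) (og ω) (U1 A)
  have := h6 Λ Λ' (Ly A 0) (Ly A 1) h (Ly_mono hA (by omega)) hS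
  unfold DD
  have h' : (fm (og ω) (U1 A) Λ' (Ly A 1) : ℝ) + (fm (og ω) (U1 A) Λ (Ly A 0) : ℝ) ≤
      (fm (og ω) (U1 A) Λ' (Ly A 0) : ℝ) + (fm (og ω) (U1 A) Λ (Ly A 1) : ℝ) := by
    exact_mod_cast this
  linarith

/-- the limit increment -/
noncomputable def xi (ω : Sym2 (ℤ × ℤ) → Bool) : ℝ := ⨅ n : ℕ, DD A (Lam A hA n) ω

lemma xi_bdd (h3 : S_C3) (ω : Sym2 (ℤ × ℤ) → Bool) :
    BddBelow (Set.range (fun n : ℕ => DD A (Lam A hA n) ω)) :=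
  ⟨0, by rintro _ ⟨n, rfl⟩; exact DD_nonneg A hA h3 _ _⟩

lemma xi_le (h3 : S_C3) (Λ : Finset (ℤ × ℤ)) (hS : ∀ x, x ∈ Ly A 1 → x ∉ Ly A 0 → x ∈ Λ)
    (ω : Sym2 (ℤ × ℤ) → Bool) : xi A hA ω ≤ DD A Λ ω := by
  obtain ⟨n, hn⟩ := Lam_cof A hA Λ
  exact (ciInf_le (xi_bdd A hA h3 ω) n).trans (DD_anti A hA h3 hn hS ω)

lemma xi_nonneg (h3 : S_C3) (ω : Sym2 (ℤ × ℤ) → Bool) : 0 ≤ xi A hA ω :=
  le_ciInf fun n => DD_nonneg A hA h3 _ _

lemma xi_lim (h3 : S_C3) (ω : Sym2 (ℤ × ℤ) → Bool) :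
    Filter.Tendsto (fun n : ℕ => DD A (Lam A hA n) ω) Filter.atTop (nhds (xi A hA ω)) := by
  refine tendsto_atTop_ciInf (fun m n hmn => ?_) (xi_bdd A hA h3 ω)
  exact DD_anti A hA h3 (Lam_mono A hA hmn) (Lam_S1 A hA m) ω

/-- shifting -/
lemma DD_shift (h3 : S_C3) (Λ : Finset (ℤ × ℤ)) (i : ℕ) (ω : Sym2 (ℤ × ℤ) → Bool) :
    DD A (open Classical in Λ.image (trs (tv A i))) ((tau A)^[i] ω) =
      (fm (og ω) (U1 A) Λ (Ly A (i + 1)) : ℝ) - (fm (og ω) (U1 A) Λ (Ly A i) : ℝ) := by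
  classical
  obtain ⟨-, -, -, -, -, -, -, h8⟩ := h3 (ℤ × ℤ) (og ω) (U1 A)
  have hadj : ∀ x y, (og ((tau A)^[i] ω)).Adj (trs (tv A i) x) (trs (tv A i) y) ↔
      (og ω).Adj x y := by
    intro x y
    have e : ((tau A)^[i] ω) s(trs (tv A i) x, trs (tv A i) y) = ω s(x, y) := tau_iter A i ω x y
    constructor
    · rintro ⟨ha, hb⟩
      exact ⟨(trs_adj _ _ _).1 ha, by rw [← e]; exact hb⟩
    · rintro ⟨ha, hb⟩
      exact ⟨(trs_adj _ _ _).2 ha, by rw [e]; exact hb⟩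
  have e1 := h8 (og ((tau A)^[i] ω)) (trs (tv A i)) hadj Λ (Ly A (i + 1))
  have e0 := h8 (og ((tau A)^[i] ω)) (trs (tv A i)) hadj Λ (Ly A i)
  rw [img_U1, img_Ly] at e1
  have e2 := img_Ly A i 0
  rw [add_zero] at e2
  rw [img_U1, e2] at e0
  unfold DD
  rw [← e1, ← e0]

end Main

theorem main (h3 : S_C3) (h4 : S_C4) : S_C5b := by
  classical
  intro p hp c A hA hc hyp
  have hcint : c ≤ ∫ ω, xi A hA ω ∂(mu p hp) := by
    have hlim : Filter.Tendsto (fun n : ℕ => ∫ ω, DD A (Lam A hA n) ω ∂(mu p hp)) Filter.atTop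
        (nhds (∫ ω, xi A hA ω ∂(mu p hp))) := by
      refine tendsto_integral_of_dominated_convergence
        (fun _ => ((S1_fin hA).toFinset.card : ℝ)) (fun n => (DD_meas A h3 _).aestronglyMeasurable)
        (integrable_const _) (fun n => ?_) ?_
      · refine Filter.Eventually.of_forall fun ω => ?_
        rw [Real.norm_eq_abs, abs_of_nonneg (DD_nonneg A hA h3 _ _)]
        exact DD_le A hA h3 _ _
      · exact Filter.Eventually.of_forall fun ω => xi_lim A hA h3 ω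
    exact ge_of_tendsto' hlim fun n => hyp (Lam A hA n) (Lam_S1 A hA n)
  have hxm : Measurable (xi A hA) :=
    Measurable.iInf fun n => DD_meas A h3 _
  have hxb : ∀ ω, |xi A hA ω| ≤ ((S1_fin hA).toFinset.card : ℝ) := by
    intro ω
    rw [abs_of_nonneg (xi_nonneg A hA h3 ω)]
    exact (ciInf_le (xi_bdd A hA h3 ω) 0).trans (DD_le A hA h3 _ _)
  have hpos := h4 _ (mu p hp) (tau A) (tau_mp A p hp) (xi A hA) hxm _ hxb 1
    (lt_of_lt_of_le hc hcint)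
  refine ⟨_, ?_, hpos, ?_⟩
  · have : {ω | ∀ k : ℕ, 1 ≤ k → (1 : ℝ) * k < ∑ i ∈ Finset.range k, xi A hA ((tau A)^[i] ω)} =
        ⋂ k : ℕ, ⋂ (_ : 1 ≤ k), {ω | (1 : ℝ) * k < ∑ i ∈ Finset.range k, xi A hA ((tau A)^[i] ω)} := by
      ext ω
      simp
    rw [this]
    refine MeasurableSet.iInter fun k => MeasurableSet.iInter fun _ => ?_
    refine measurableSet_lt measurable_const ?_
    refine Finset.measurable_sum _ fun i _ => ?_
    exact hxm.comp ((tau_mp A p hp).measurable.iterate i)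
  · intro ω hω k hk Λ hΛ
    have h1 := hω k hk
    rw [one_mul] at h1
    have hsum : ∑ i ∈ Finset.range k, xi A hA ((tau A)^[i] ω) ≤
        ∑ i ∈ Finset.range k, ((fm (og ω) (U1 A) Λ (Ly A (i + 1)) : ℝ) -
          (fm (og ω) (U1 A) Λ (Ly A i) : ℝ)) := by
      refine Finset.sum_le_sum fun i hi => ?_
      rw [Finset.mem_range] at hi
      rw [← DD_shift A h3 Λ i ω]
      refine xi_le A hA h3 _ ?_ _
      intro x hx hx'
      rw [← img_Ly A i 1] at hx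
      obtain ⟨w, hw, rfl⟩ := hx
      rw [Finset.mem_image]
      refine ⟨w, hΛ w (Ly_mono hA (by omega) hw) ?_, rfl⟩
      intro hw0
      apply hx'
      have e2 := img_Ly A i 0
      rw [← e2, add_zero]
      exact ⟨w, Ly_mono hA (by omega) hw0, rfl⟩
    rw [Finset.sum_range_sub (fun i => (fm (og ω) (U1 A) Λ (Ly A i) : ℝ))] at hsum
    have h2 : (fm (og ω) (U1 A) Λ (Ly A 0) : ℝ) + k < (fm (og ω) (U1 A) Λ (Ly A k) : ℝ) := by
      linarith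
    exact_mod_cast h2

end Pool.Agent.W826.UCC5b
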