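import Mathlib
import Pool.Agent.W826.UCC5b

/-! UC-C5a: the mean increment of the cut cost. -/

set_option autoImplicit false
set_option linter.all false

open MeasureTheory Set
open Pool.Agent.H978R2 Pool.Agent.W829.UC Pool.Agent.W826.UCC5b

namespace Pool.Agent.W826.UCC5a

lemma fm_int (h3 : S_C3) (p : NNReal) (hp : p ≤ 1) (U : Set (ℤ × ℤ)) (Λ : Finset (ℤ × ℤ))
    (L : Set (ℤ × ℤ)) :
    Integrable (fun ω : Sym2 (ℤ × ℤ) → Bool => (fm (og ω) U Λ L : ℝ)) (mu p hp) := by
  refine Integrable.of_bound (((measurable_from_top (f := fun n : ℕ => (n : ℝ))).comp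
    (fm_meas h3 U Λ L)).aestronglyMeasurable) (Λ.card : ℝ) (Filter.Eventually.of_forall fun ω => ?_)
  rw [Real.norm_eq_abs, abs_of_nonneg (by positivity)]
  obtain ⟨-, -, -, -, h5, -⟩ := h3 (ℤ × ℤ) (og ω) U
  exact_mod_cast h5 Λ L Λ (fun x hx _ => hx)

open Classical in
/-- the translate of `Λ` by `- i v1` -/
noncomputable def Tr' (A : ℤ) (Λ : Finset (ℤ × ℤ)) (i : ℕ) : Finset (ℤ × ℤ) :=
  Λ.image (fun x => x - tv A i)

lemma mem_Tr' {A : ℤ} {Λ : Finset (ℤ × ℤ)} {i : ℕ} {x : ℤ × ℤ} :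
    x ∈ Tr' A Λ i ↔ x + tv A i ∈ Λ := by
  classical
  unfold Tr'
  rw [Finset.mem_image]
  constructor
  · rintro ⟨y, hy, rfl⟩
    simpa using hy
  · intro h
    exact ⟨_, h, by simp⟩

lemma img_Tr' {A : ℤ} {Λ : Finset (ℤ × ℤ)} {i : ℕ} :
    (open Classical in (Tr' A Λ i).image (trs (tv A i))) = Λ := by
  classical
  ext x
  rw [Finset.mem_image]
  constructor
  · rintro ⟨y, hy, rfl⟩
    rw [mem_Tr'] at hy
    exact hy
  · intro h
    refine ⟨x - tv A i, ?_, by simp [trs]⟩
    rw [mem_Tr']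
    simpa using h

lemma Tr'_layer {A : ℤ} (hA : 1 ≤ A) {Λ : Finset (ℤ × ℤ)}
    (hΛ : ∀ x, x ∈ Ly A 1 → x ∉ Ly A 0 → x ∈ Λ) (i : ℕ) :
    ∀ x, x ∈ Ly A (i + 1) → x ∉ Ly A i → x ∈ Tr' A Λ i := by
  intro x h1 h2
  rw [mem_Tr']
  refine hΛ _ ?_ ?_
  · rw [← img_Ly A i 1]
    exact ⟨x, h1, rfl⟩
  · intro h0
    apply h2
    have e := img_Ly A i 0
    rw [add_zero] at e
    rw [← e] at h0
    obtain ⟨w, hw, hw'⟩ := h0
    have : w = x := by
      have : w + tv A i = x + tv A i := hw'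
      exact add_right_cancel this
    rwa [← this]

lemma fin_bound (Λ : Finset (ℤ × ℤ)) (f : ℤ × ℤ → ℤ) : ∃ m : ℤ, 0 ≤ m ∧ ∀ x ∈ Λ, f x ≤ m := by
  refine ⟨∑ x ∈ Λ, |f x|, Finset.sum_nonneg fun _ _ => abs_nonneg _, fun x hx => ?_⟩
  exact (le_abs_self _).trans
    (Finset.single_le_sum (f := fun x => |f x|) (fun _ _ => abs_nonneg _) hx)

theorem main (h3 : S_C3) : S_C5a := by
  classical
  intro p hp κ A hA hcut Λ hΛ
  set μ := mu p hp with hμ
  haveI : IsProbabilityMeasure μ := by rw [hμ]; infer_instance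
  show κ * (A : ℝ) ≤ ∫ ω, DD A Λ ω ∂μ
  set D : ℝ := ∫ ω, DD A Λ ω ∂μ with hD
  have hA' : (1 : ℝ) ≤ A := by exact_mod_cast hA
  have hD0 : 0 ≤ D := integral_nonneg fun ω => DD_nonneg A hA h3 Λ ω
  rcases le_or_gt κ 0 with hκ | hκ
  · nlinarith
  -- bounds
  obtain ⟨M, hM0, hM⟩ := fin_bound Λ (fun x => x.1)
  obtain ⟨m, hm0, hm⟩ := fin_bound Λ (fun x => A * x.2 - x.1)
  set B : Finset (ℤ × ℤ) := (Finset.Icc 0 M) ×ˢ (Finset.Icc 0 (M + 1)) with hB
  -- main inequality
  have main1 : ∀ ε : ℝ, 0 < ε → ∃ L0 : ℕ, ∀ L : ℕ, L0 ≤ L →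
      κ * ((L : ℝ) * A) * (1 - ε) - B.card ≤ L * D := by
    intro ε hε
    obtain ⟨L0, hL0⟩ := hcut m ε hε
    refine ⟨L0, fun L hL => ?_⟩
    obtain ⟨E, hE, hEp, hEc⟩ := hL0 L hL
    set Om : Finset (ℤ × ℤ) := (Finset.range L).biUnion (fun i => Tr' A Λ i) with hOm
    have hsubO : ∀ i, i < L → Tr' A Λ i ⊆ Om := by
      intro i hi x hx
      rw [hOm, Finset.mem_biUnion]
      exact ⟨i, Finset.mem_range.2 hi, hx⟩
    -- pointwise sum
    have hsum : ∀ ω, (fm (og ω) (U1 A) Om (Ly A L) : ℝ) - (fm (og ω) (U1 A) Om (Ly A 0) : ℝ) ≤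
        ∑ i ∈ Finset.range L, DD A Λ ((tau A)^[i] ω) := by
      intro ω
      rw [← Finset.sum_range_sub (fun i => (fm (og ω) (U1 A) Om (Ly A i) : ℝ))]
      refine Finset.sum_le_sum fun i hi => ?_
      rw [Finset.mem_range] at hi
      have h1 := DD_shift A h3 (Tr' A Λ i) i ω
      rw [img_Tr'] at h1
      rw [h1]
      obtain ⟨-, -, -, -, -, h6, -⟩ := h3 (ℤ × ℤ) (og ω) (U1 A)
      have h2 := h6 (Tr' A Λ i) Om (Ly A i) (Ly A (i + 1)) (hsubO i hi) (Ly_mono hA (by omega))
        (Tr'_layer hA hΛ i)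
      have h2' : (fm (og ω) (U1 A) Om (Ly A (i + 1)) : ℝ) +
          (fm (og ω) (U1 A) (Tr' A Λ i) (Ly A i) : ℝ) ≤ (fm (og ω) (U1 A) Om (Ly A i) : ℝ) +
          (fm (og ω) (U1 A) (Tr' A Λ i) (Ly A (i + 1)) : ℝ) := by
        exact_mod_cast h2
      linarith
    -- integrate
    have hDDint : ∀ i, Integrable (fun ω => DD A Λ ((tau A)^[i] ω)) μ := by
      intro i
      have hi : Integrable (DD A Λ) μ := (fm_int h3 p hp _ _ _).sub (fm_int h3 p hp _ _ _)
      exact ((tau_mp A p hp).iterate i).integrable_comp_of_integrable hi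
    have hDDval : ∀ i, ∫ ω, DD A Λ ((tau A)^[i] ω) ∂μ = D := by
      intro i
      have hmp := (tau_mp A p hp).iterate i
      have h1 : ∫ ω, DD A Λ ω ∂(μ.map ((tau A)^[i])) = ∫ ω, DD A Λ ((tau A)^[i] ω) ∂μ :=
        integral_map hmp.measurable.aemeasurable (DD_meas A h3 Λ).aestronglyMeasurable
      rw [← h1, hmp.map_eq]
    have hint : ∫ ω, ((fm (og ω) (U1 A) Om (Ly A L) : ℝ) - (fm (og ω) (U1 A) Om (Ly A 0) : ℝ)) ∂μ ≤
        L * D := by
      refine (integral_mono ((fm_int h3 p hp _ _ _).sub (fm_int h3 p hp _ _ _))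
        (integrable_finsetSum _ fun i _ => hDDint i) hsum).trans ?_
      rw [integral_finsetSum _ fun i _ => hDDint i]
      rw [Finset.sum_congr rfl fun i _ => hDDval i, Finset.sum_const, Finset.card_range, nsmul_eq_mul]
    rw [integral_sub (fm_int h3 p hp _ _ _) (fm_int h3 p hp _ _ _)] at hint
    -- upper bound of the second term
    have h0 : ∫ ω, (fm (og ω) (U1 A) Om (Ly A 0) : ℝ) ∂μ ≤ B.card := by
      have hle : ∀ ω, (fm (og ω) (U1 A) Om (Ly A 0) : ℝ) ≤ B.card := by
        intro ω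
        obtain ⟨-, -, -, -, h5, -⟩ := h3 (ℤ × ℤ) (og ω) (U1 A)
        have := h5 Om (Ly A 0) B (by
          intro x hx hx0
          rw [hOm, Finset.mem_biUnion] at hx
          obtain ⟨i, -, hx⟩ := hx
          rw [mem_Tr'] at hx
          have h1 : x.1 + (i : ℤ) * A ≤ M := hM _ hx
          obtain ⟨g1, g2, g3⟩ := mem_Ly.1 hx0
          have h2 : 0 ≤ (i : ℤ) * A := mul_nonneg (by omega) (by omega)
          have g3' : 0 ≤ x.1 := by simpa using g3
          have h3 : 0 ≤ x.2 := by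
            by_contra hc
            push Not at hc
            have : A * x.2 < 0 := by nlinarith
            omega
          have h4 : x.2 ≤ M + 1 := by
            by_contra hc
            push Not at hc
            have : x.2 - 1 ≤ A * (x.2 - 1) := by nlinarith
            omega
          rw [hB, Finset.mem_product, Finset.mem_Icc, Finset.mem_Icc]
          exact ⟨⟨g3', by omega⟩, h3, h4⟩)
        exact_mod_cast this
      refine (integral_mono (fm_int h3 p hp _ _ _) (integrable_const _) hle).trans ?_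
      simp
    -- lower bound of the first term
    have h1 : κ * ((L : ℝ) * A) * (1 - ε) ≤ ∫ ω, (fm (og ω) (U1 A) Om (Ly A L) : ℝ) ∂μ := by
      have hlow : ∀ ω, E.indicator (fun _ => κ * ((L : ℝ) * A)) ω ≤
          (fm (og ω) (U1 A) Om (Ly A L) : ℝ) := by
        intro ω
        by_cases hω : ω ∈ E
        · rw [Set.indicator_of_mem hω]
          obtain ⟨h1, -⟩ := h3 (ℤ × ℤ) (og ω) (U1 A)
          obtain ⟨W, hW1, hW2, hW3⟩ := h1 Om (Ly A L)
          rw [← hW3]
          refine hEc ω hω W ?_ ?_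
          · intro x hx hx0
            refine hW2 x ?_ hx
            -- find the index
            have hex : ∃ i, x ∈ Ly A i := ⟨L, hx⟩
            set i := Nat.find hex with hi
            have hi1 : x ∈ Ly A i := Nat.find_spec hex
            have hi0 : i ≠ 0 := by
              intro h
              rw [h] at hi1
              exact hx0 hi1
            obtain ⟨k, hk⟩ := Nat.exists_eq_succ_of_ne_zero hi0
            have hkL : i ≤ L := Nat.find_min' hex hx
            have hk' : x ∉ Ly A k := Nat.find_min hex (by omega)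
            refine hsubO k (by omega) (Tr'_layer hA hΛ k x ?_ hk')
            rw [hk] at hi1
            exact hi1
          · intro x hx
            have hx' := hW1 hx
            rw [hOm, Finset.mem_biUnion] at hx'
            obtain ⟨i, -, hx'⟩ := hx'
            rw [mem_Tr'] at hx'
            have h1 : A * (x.2 + (i : ℤ)) - (x.1 + (i : ℤ) * A) ≤ m := hm _ hx'
            have e : A * (x.2 + (i : ℤ)) - (x.1 + (i : ℤ) * A) = A * x.2 - x.1 := by ring
            omega
        · rw [Set.indicator_of_notMem hω]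
          positivity
      have hi := integral_mono ((integrable_const _).indicator hE) (fm_int h3 p hp _ _ _) hlow
      rw [integral_indicator_const _ hE, smul_eq_mul] at hi
      refine le_trans ?_ hi
      rw [mul_comm]
      refine mul_le_mul_of_nonneg_right hEp ?_
      positivity
    linarith
  -- conclusion
  by_contra hcon
  push Not at hcon
  set δ : ℝ := κ * A - D with hδ
  have hδ0 : 0 < δ := by linarith
  have hκA : 0 < κ * A := by positivity
  obtain ⟨L0, hL0⟩ := main1 (δ / (4 * (κ * A))) (by positivity)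
  obtain ⟨N, hN⟩ := exists_nat_gt (4 * (B.card : ℝ) / δ)
  set L := max L0 (max N 1) with hL
  have h1 := hL0 L (le_max_left _ _)
  have hLN : (N : ℝ) ≤ L := by
    exact_mod_cast (le_max_left N 1).trans (le_max_right L0 _)
  have hL1 : (1 : ℝ) ≤ L := by
    exact_mod_cast (le_max_right N 1).trans (le_max_right L0 _)
  have h2 : 4 * (B.card : ℝ) < L * δ := by
    have := hN.trans_le hLN
    rwa [div_lt_iff₀ hδ0] at this
  have h3' : κ * ((L : ℝ) * A) * (1 - δ / (4 * (κ * A))) = L * (κ * A) - L * δ / 4 := by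
    field_simp
  rw [h3'] at h1
  have h4 : L * (κ * A) = L * D + L * δ := by rw [hδ]; ring
  rw [h4] at h1
  have h5 : 0 < (L : ℝ) * δ := by positivity
  linarith

end Pool.Agent.W826.UCC5a
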