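import Mathlib
import Pool.Agent.W829.UC.Stmts

/-! UC-C7a: open circuits at all scales. -/

set_option autoImplicit false
set_option linter.all false

open MeasureTheory Set
open Pool.Agent.H978R2 Pool.Agent.W829.UC

namespace Pool.Agent.W826.UCC7a

variable {ω : Sym2 (ℤ × ℤ) → Bool}

lemma toWalk {S : Set (ℤ × ℤ)} {a b : ℤ × ℤ} (w : (openG (latR S) ω).Walk a b) (ha : a ∈ S) :
    ∀ v ∈ w.support, v ∈ S ∧ (og ω).Reachable a v := by
  induction w with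
  | nil =>
    intro v hv
    rw [SimpleGraph.Walk.support_nil, List.mem_singleton] at hv
    subst hv
    exact ⟨ha, SimpleGraph.Reachable.refl _⟩
  | @cons u v' w' h p ih =>
    intro v hv
    have hadj : (og ω).Adj u v' := ⟨h.1.1, h.2⟩
    rw [SimpleGraph.Walk.support_cons, List.mem_cons] at hv
    rcases hv with rfl | hv
    · exact ⟨ha, SimpleGraph.Reachable.refl _⟩
    · obtain ⟨h1, h2⟩ := ih h.1.2.2 v hv
      exact ⟨h1, hadj.reachable.trans h2⟩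

lemma toList {S : Set (ℤ × ℤ)} {a b : ℤ × ℤ} (h : (openG (latR S) ω).Reachable a b) (ha : a ∈ S) :
    ∃ l : List (ℤ × ℤ), l.IsChain lat.Adj ∧ (∀ v ∈ l, v ∈ S ∧ (og ω).Reachable a v) ∧
      ∃ hne : l ≠ [], l.head hne = a ∧ l.getLast hne = b := by
  obtain ⟨w⟩ := h
  refine ⟨w.support, ?_, toWalk w ha, w.support_ne_nil, ?_, ?_⟩
  · exact w.isChain_adj_support.imp (fun u v huv => huv.1.1)
  · exact w.head_support
  · exact w.getLast_support

lemma end_mem {S : Set (ℤ × ℤ)} {a b : ℤ × ℤ} (h : (openG (latR S) ω).Reachable a b) (ha : a ∈ S) :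
    b ∈ S ∧ (og ω).Reachable a b := by
  obtain ⟨w⟩ := h
  exact toWalk w ha b w.end_mem_support

lemma start_mem {S : Set (ℤ × ℤ)} {a b : ℤ × ℤ} (h : (openG (latR S) ω).Reachable a b)
    (hab : a ≠ b) : a ∈ S := by
  obtain ⟨w⟩ := h
  cases w with
  | nil => exact absurd rfl hab
  | cons h p => exact h.1.2.1

/-- a horizontal and a vertical crossing are connected -/
lemma crossX {S T : Set (ℤ × ℤ)} {a b c d : ℤ × ℤ} {α β y0 y1 : ℤ}
    (hH : (openG (latR S) ω).Reachable a b) (hV : (openG (latR T) ω).Reachable c d)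
    (haS : a ∈ S) (hcT : c ∈ T)
    (hS : ∀ v ∈ S, y0 ≤ v.2 ∧ v.2 ≤ y1) (hT : ∀ v ∈ T, α ≤ v.1 ∧ v.1 ≤ β)
    (ha : a.1 ≤ α) (hb : β ≤ b.1) (hc : c.2 ≤ y0) (hd : y1 ≤ d.2) :
    (og ω).Reachable a c := by
  obtain ⟨L, hL1, hL2, hLne, hL3, hL4⟩ := toList hH haS
  obtain ⟨l, hl1, hl2, hlne, hl3, hl4⟩ := toList hV hcT
  obtain ⟨v, hv1, hv2⟩ := cross_common' (α := α) (β := β) (y0 := y0) (y1 := y1) hl1 hL1 hlne hLne
    (fun u hu => hT u (hl2 u hu).1) (by rw [hl3]; exact hc) (by rw [hl4]; exact hd)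
    (fun u hu => hS u (hL2 u hu).1) (by rw [hL3]; exact ha) (by rw [hL4]; exact hb)
  exact (hL2 v hv2).2.trans (hl2 v hv1).2.symm

lemma crH_get {a0 a1 b0 b1 : ℤ} (h : a0 < a1) (hω : ω ∈ crH a0 a1 b0 b1) :
    ∃ a b, a ∈ Rc a0 a1 b0 b1 ∧ a.1 ≤ a0 ∧ a1 ≤ b.1 ∧
      (openG (latR (Rc a0 a1 b0 b1)) ω).Reachable a b := by
  obtain ⟨a, ha, b, hb, hr⟩ := hω
  have ha' : a.1 ≤ a0 := ha
  have hb' : a1 ≤ b.1 := hb
  refine ⟨a, b, start_mem hr ?_, ha, hb, hr⟩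
  rintro rfl
  omega

lemma crV_get {a0 a1 b0 b1 : ℤ} (h : b0 < b1) (hω : ω ∈ crV a0 a1 b0 b1) :
    ∃ a b, a ∈ Rc a0 a1 b0 b1 ∧ a.2 ≤ b0 ∧ b1 ≤ b.2 ∧
      (openG (latR (Rc a0 a1 b0 b1)) ω).Reachable a b := by
  obtain ⟨a, ha, b, hb, hr⟩ := hω
  have ha' : a.2 ≤ b0 := ha
  have hb' : b1 ≤ b.2 := hb
  refine ⟨a, b, start_mem hr ?_, ha, hb, hr⟩
  rintro rfl
  omega

/-- the event at one scale -/
def EJ (x : ℤ × ℤ) (n : ℤ) : Set (Sym2 (ℤ × ℤ) → Bool) :=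
  crH (x.1 - 2 * n) (x.1 + 2 * n) (x.2 + n) (x.2 + 2 * n) ∩
  (crH (x.1 - 2 * n) (x.1 + 2 * n) (x.2 - 2 * n) (x.2 - n) ∩
  (crV (x.1 - 2 * n) (x.1 - n) (x.2 - 2 * n) (x.2 + 2 * n) ∩
  (crV (x.1 + n) (x.1 + 2 * n) (x.2 - 2 * n) (x.2 + 2 * n) ∩
  crH (x.1 - 4 * n) (x.1 + 4 * n) (x.2 - n) (x.2 + n))))

lemma EJ_meas (x : ℤ × ℤ) (n : ℤ) : MeasurableSet (EJ x n) :=
  (meas_crH _ _ _ _).inter ((meas_crH _ _ _ _).inter ((meas_crV _ _ _ _).inter
    ((meas_crV _ _ _ _).inter (meas_crH _ _ _ _))))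

/-- the strip crossing of scale `n` is connected to the left crossing of scale `n` -/
lemma strip_left {x : ℤ × ℤ} {n k : ℤ} (hn : 1 ≤ n) (hk : n ≤ k) (hk2 : k ≤ 2 * n) {a b c d : ℤ × ℤ}
    (ha : a ∈ Rc (x.1 - 4 * n) (x.1 + 4 * n) (x.2 - n) (x.2 + n)) (ha1 : a.1 ≤ x.1 - 4 * n)
    (hb1 : x.1 + 4 * n ≤ b.1)
    (hab : (openG (latR (Rc (x.1 - 4 * n) (x.1 + 4 * n) (x.2 - n) (x.2 + n))) ω).Reachable a b)
    (hc : c ∈ Rc (x.1 - 2 * k) (x.1 - k) (x.2 - 2 * k) (x.2 + 2 * k)) (hc1 : c.2 ≤ x.2 - 2 * k)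
    (hd1 : x.2 + 2 * k ≤ d.2)
    (hcd : (openG (latR (Rc (x.1 - 2 * k) (x.1 - k) (x.2 - 2 * k) (x.2 + 2 * k))) ω).Reachable c d) :
    (og ω).Reachable a c := by
  refine crossX (α := x.1 - 2 * k) (β := x.1 - k) (y0 := x.2 - 2 * k) (y1 := x.2 + 2 * k)
    hab hcd ha hc (fun v hv => ?_) (fun v hv => hv.1) (by omega) (by omega) hc1 hd1
  have := hv.2
  omega

/-- everything about one scale -/
lemma scale {x : ℤ × ℤ} {n : ℤ} (hn : 1 ≤ n) (h : ω ∈ EJ x n) :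
    ∃ a a' : ℤ × ℤ, (a ∈ Rc (x.1 - 4 * n) (x.1 + 4 * n) (x.2 - n) (x.2 + n) ∧
      a.1 ≤ x.1 - 4 * n ∧ x.1 + 4 * n ≤ a'.1 ∧
      (openG (latR (Rc (x.1 - 4 * n) (x.1 + 4 * n) (x.2 - n) (x.2 + n))) ω).Reachable a a') ∧
      (∃ u, u.1 = x.1 ∧ x.2 - n ≤ u.2 ∧ u.2 ≤ x.2 + n ∧ (og ω).Reachable a u) ∧
      (∀ u c : ℤ × ℤ, (x.1 - n ≤ u.1 ∧ u.1 ≤ x.1 + n) ∧ (x.2 - n ≤ u.2 ∧ u.2 ≤ x.2 + n) →
        (c.1 ≤ x.1 - 2 * n ∨ x.1 + 2 * n ≤ c.1 ∨ c.2 ≤ x.2 - 2 * n ∨ x.2 + 2 * n ≤ c.2) →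
        (openG (latR (Rc (x.1 - 2 * n) (x.1 + 2 * n) (x.2 - 2 * n) (x.2 + 2 * n))) ω).Reachable u c →
        (og ω).Reachable a u) ∧
      (∀ n' : ℤ, 1 ≤ n' → n' ≤ n → n ≤ 2 * n' → ∀ a' b' : ℤ × ℤ,
        a' ∈ Rc (x.1 - 4 * n') (x.1 + 4 * n') (x.2 - n') (x.2 + n') → a'.1 ≤ x.1 - 4 * n' →
        x.1 + 4 * n' ≤ b'.1 →
        (openG (latR (Rc (x.1 - 4 * n') (x.1 + 4 * n') (x.2 - n') (x.2 + n'))) ω).Reachable a' b' →
        (og ω).Reachable a a') := by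
  obtain ⟨hT, hB, hL, hR, hS⟩ := h
  obtain ⟨t, t', ht, ht1, ht2, ht3⟩ := crH_get (by omega) hT
  obtain ⟨b, b', hb, hb1, hb2, hb3⟩ := crH_get (by omega) hB
  obtain ⟨l, l', hl, hl1, hl2, hl3⟩ := crV_get (by omega) hL
  obtain ⟨r, r', hr, hr1, hr2, hr3⟩ := crV_get (by omega) hR
  obtain ⟨a, a', ha, ha1, ha2, ha3⟩ := crH_get (by omega) hS
  have al : (og ω).Reachable a l := strip_left hn (le_refl n) (by omega) ha ha1 ha2 ha3 hl hl1 hl2 hl3
  have tl : (og ω).Reachable t l := by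
    refine crossX (α := x.1 - 2 * n) (β := x.1 - n) (y0 := x.2 - 2 * n) (y1 := x.2 + 2 * n)
      ht3 hl3 ht hl (fun v hv => ?_) (fun v hv => hv.1) (by omega) (by omega) hl1 hl2
    have := hv.2
    omega
  have tr : (og ω).Reachable t r := by
    refine crossX (α := x.1 + n) (β := x.1 + 2 * n) (y0 := x.2 - 2 * n) (y1 := x.2 + 2 * n)
      ht3 hr3 ht hr (fun v hv => ?_) (fun v hv => hv.1) (by omega) (by omega) hr1 hr2
    have := hv.2
    omega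
  have bl : (og ω).Reachable b l := by
    refine crossX (α := x.1 - 2 * n) (β := x.1 - n) (y0 := x.2 - 2 * n) (y1 := x.2 + 2 * n)
      hb3 hl3 hb hl (fun v hv => ?_) (fun v hv => hv.1) (by omega) (by omega) hl1 hl2
    have := hv.2
    omega
  refine ⟨a, a', ⟨ha, ha1, ha2, ha3⟩, ?_, ?_, ?_⟩
  · obtain ⟨c, ⟨hc1, hc2⟩, hc3⟩ := exit_latR (S := {v | v.1 ≤ x.1}) (T := {v | x.1 ≤ v.1}) ha3
      (show a.1 ≤ x.1 by omega) (show x.1 ≤ a'.1 by omega) (by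
        intro c d hc hd hcd
        have hc' : c.1 ≤ x.1 := hc
        have hd' : ¬ d.1 ≤ x.1 := hd
        show x.1 ≤ c.1
        rw [lat_adj] at hcd
        omega)
    have hc1' : c.1 ≤ x.1 := hc1
    have hc2' : x.1 ≤ c.1 := hc2
    obtain ⟨hcm, hcr⟩ := end_mem hc3 ⟨ha, show a.1 ≤ x.1 by omega⟩
    exact ⟨c, by omega, hcm.1.2.1, hcm.1.2.2, hcr⟩
  · intro u c hu hc huc
    have hub : u ∈ Rc (x.1 - 2 * n) (x.1 + 2 * n) (x.2 - 2 * n) (x.2 + 2 * n) := by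
      refine ⟨⟨?_, ?_⟩, ?_, ?_⟩ <;> omega
    obtain ⟨hcb, huc'⟩ := end_mem huc hub
    rcases hc with hc | hc | hc | hc
    · -- left
      have h1 : (og ω).Reachable c l := by
        refine crossX (α := x.1 - 2 * n) (β := x.1 - n) (y0 := x.2 - 2 * n) (y1 := x.2 + 2 * n)
          huc.symm hl3 hcb hl (fun v hv => hv.2) (fun v hv => hv.1) hc (by omega) hl1 hl2
      exact al.trans (h1.symm.trans huc'.symm)
    · have h1 : (og ω).Reachable u r := by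
        refine crossX (α := x.1 + n) (β := x.1 + 2 * n) (y0 := x.2 - 2 * n) (y1 := x.2 + 2 * n)
          huc hr3 hub hr (fun v hv => hv.2) (fun v hv => hv.1) (by omega) hc hr1 hr2
      exact al.trans (tl.symm.trans (tr.trans h1.symm))
    · have h1 : (og ω).Reachable b c := by
        refine crossX (α := x.1 - 2 * n) (β := x.1 + 2 * n) (y0 := x.2 - 2 * n) (y1 := x.2 - n)
          hb3 huc.symm hb hcb (fun v hv => hv.2) (fun v hv => hv.1) hb1 hb2 hc (by omega)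
      exact al.trans (bl.symm.trans (h1.trans huc'.symm))
    · have h1 : (og ω).Reachable t u := by
        refine crossX (α := x.1 - 2 * n) (β := x.1 + 2 * n) (y0 := x.2 + n) (y1 := x.2 + 2 * n)
          ht3 huc ht hub (fun v hv => hv.2) (fun v hv => hv.1) ht1 ht2 (by omega) hc
      exact al.trans (tl.symm.trans h1)
  · intro n' hn' h1 h2 a1 b1 ha1' ha2' hb1' hr1'
    exact al.trans (strip_left hn' h1 h2 ha1' ha2' hb1' hr1' hl hl1 hl2 hl3).symm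

/-- the deterministic part -/
lemma determ {x : ℤ × ℤ} {m : ℕ} (hm : 1 ≤ m) (h : ∀ j : ℕ, ω ∈ EJ x (2 ^ j * (m : ℤ))) :
    (∃ u ∈ Bx x m, u ∈ InfV ω) ∧
      ∀ u ∈ Bx x m, (∃ v ∈ Far x (2 * m), (og ω).Reachable u v) →
        u ∈ InfV ω ∧ ∀ u' ∈ Bx x m, (∃ v ∈ Far x (2 * m), (og ω).Reachable u' v) →
          (og ω).Reachable u u' := by
  have hn : ∀ j : ℕ, (1 : ℤ) ≤ 2 ^ j * (m : ℤ) := by
    intro j
    have h1 : (1 : ℤ) ≤ 2 ^ j := one_le_pow₀ (by norm_num)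
    have h2 : (1 : ℤ) ≤ (m : ℤ) := by exact_mod_cast hm
    nlinarith
  choose a a' ha hu hfar hstep using fun j => scale (hn j) (h j)
  have hconn : ∀ j, (og ω).Reachable (a 0) (a j) := by
    intro j
    induction j with
    | zero => exact SimpleGraph.Reachable.refl _
    | succ j ih =>
      refine ih.trans ?_
      have e : (2 : ℤ) ^ (j + 1) * (m : ℤ) = 2 * (2 ^ j * (m : ℤ)) := by ring
      have hj := hn j
      exact (hstep (j + 1) (2 ^ j * (m : ℤ)) (hn j) (by omega) (by omega) (a j) (a' j) (ha j).1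
        (ha j).2.1 (ha j).2.2.1 (ha j).2.2.2).symm
  have hinf : {y | (og ω).Reachable (a 0) y}.Infinite := by
    intro hfin
    obtain ⟨B, hB⟩ := (hfin.image Prod.fst).bddBelow
    have hB' : ∀ y, (og ω).Reachable (a 0) y → B ≤ y.1 := fun y hy => hB ⟨y, hy, rfl⟩
    have h1 := hB' _ (hconn (x.1 - B).toNat)
    have h2 := (ha (x.1 - B).toNat).2.1
    have h3 : ((x.1 - B).toNat : ℤ) < 2 ^ (x.1 - B).toNat := by
      exact_mod_cast Nat.lt_two_pow_self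
    have h4 : (1 : ℤ) ≤ (m : ℤ) := by exact_mod_cast hm
    have h5 : (2 : ℤ) ^ (x.1 - B).toNat ≤ 2 ^ (x.1 - B).toNat * (m : ℤ) := by nlinarith
    omega
  have mem_inf : ∀ u, (og ω).Reachable (a 0) u → u ∈ InfV ω := by
    intro u hu
    show {y | (og ω).Reachable u y}.Infinite
    refine hinf.mono ?_
    intro y hy
    exact hu.symm.trans hy
  have hcl : ∀ u ∈ Bx x m, (∃ v ∈ Far x (2 * m), (og ω).Reachable u v) →
      (og ω).Reachable (a 0) u := by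
    rintro u hu ⟨v, hv, huv⟩
    have huB : u ∈ Bx x (2 * m) := by
      rw [mem_Bx] at hu ⊢
      push_cast
      omega
    have hlu : lat ≤ latR univ := fun x y h => ⟨h, mem_univ _, mem_univ _⟩
    have huv' : (openG (latR univ) ω).Reachable u v := huv.mono (openG_mono hlu ω)
    obtain ⟨c, ⟨hc1, hc2⟩, hc3⟩ := exit_latR (S := Bx x (2 * m)) (T := Far x (2 * m)) huv' huB hv
      (fun c d hc hd hcd => Bx_exit hc hd hcd)
    have hsub : univ ∩ Bx x (2 * m) ⊆ Rc (x.1 - 2 * (2 ^ 0 * (m : ℤ))) (x.1 + 2 * (2 ^ 0 * (m : ℤ)))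
        (x.2 - 2 * (2 ^ 0 * (m : ℤ))) (x.2 + 2 * (2 ^ 0 * (m : ℤ))) := by
      rintro w ⟨-, hw⟩
      rw [mem_Bx] at hw
      push_cast at hw
      refine ⟨⟨?_, ?_⟩, ?_, ?_⟩ <;> simp only [pow_zero, one_mul] <;> omega
    have hc4 := hc3.mono (openG_mono (latR_mono hsub) ω)
    refine hfar 0 u c ?_ ?_ hc4
    · rw [mem_Bx] at hu
      simp only [pow_zero, one_mul]
      exact hu
    · rw [mem_Far] at hc2
      push_cast at hc2
      simp only [pow_zero, one_mul]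
      exact hc2
  refine ⟨?_, ?_⟩
  · obtain ⟨u, h1, h2, h3, h4⟩ := hu 0
    refine ⟨u, ?_, mem_inf u h4⟩
    rw [mem_Bx]
    simp only [pow_zero, one_mul] at h2 h3
    omega
  · intro u hu hv
    have h1 := hcl u hu hv
    exact ⟨mem_inf u h1, fun u' hu' hv' => h1.symm.trans (hcl u' hu' hv')⟩

/-- probability of one scale -/
lemma prob_one {p : NNReal} (hp : p ≤ 1) {K c : ℝ} (hK : 0 < K) (hc : 0 < c)
    (h1 : ∀ a0 a1 b0 b1 : ℤ, a0 < a1 → b0 ≤ b1 →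
      (bm (Sym2 (ℤ × ℤ)) p hp).real (crH a0 a1 b0 b1)ᶜ ≤
        K * (a1 - a0) * Real.exp (-c * (b1 - b0)))
    (h2 : ∀ a0 a1 b0 b1 : ℤ, a0 ≤ a1 → b0 < b1 →
      (bm (Sym2 (ℤ × ℤ)) p hp).real (crV a0 a1 b0 b1)ᶜ ≤
        K * (b1 - b0) * Real.exp (-c * (a1 - a0)))
    (x : ℤ × ℤ) {n : ℤ} (hn : 1 ≤ n) :
    (mu p hp).real (EJ x n)ᶜ ≤ 24 * K * n * Real.exp (-c * n) := by
  have hn' : (1 : ℝ) ≤ n := by exact_mod_cast hn
  have t1 := h1 (x.1 - 2 * n) (x.1 + 2 * n) (x.2 + n) (x.2 + 2 * n) (by omega) (by omega)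
  have t2 := h1 (x.1 - 2 * n) (x.1 + 2 * n) (x.2 - 2 * n) (x.2 - n) (by omega) (by omega)
  have t3 := h2 (x.1 - 2 * n) (x.1 - n) (x.2 - 2 * n) (x.2 + 2 * n) (by omega) (by omega)
  have t4 := h2 (x.1 + n) (x.1 + 2 * n) (x.2 - 2 * n) (x.2 + 2 * n) (by omega) (by omega)
  have t5 := h1 (x.1 - 4 * n) (x.1 + 4 * n) (x.2 - n) (x.2 + n) (by omega) (by omega)
  push_cast at t1 t2 t3 t4 t5
  have e1 : K * ((x.1 : ℝ) + 2 * n - (x.1 - 2 * n)) * Real.exp (-c * (x.2 + 2 * n - (x.2 + n))) =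
      4 * K * n * Real.exp (-c * n) := by
    congr 1
    · ring
    · congr 1; ring
  have e2 : K * ((x.1 : ℝ) + 2 * n - (x.1 - 2 * n)) * Real.exp (-c * (x.2 - n - (x.2 - 2 * n))) =
      4 * K * n * Real.exp (-c * n) := by
    congr 1
    · ring
    · congr 1; ring
  have e3 : K * ((x.2 : ℝ) + 2 * n - (x.2 - 2 * n)) * Real.exp (-c * (x.1 - n - (x.1 - 2 * n))) =
      4 * K * n * Real.exp (-c * n) := by
    congr 1
    · ring
    · congr 1; ring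
  have e4 : K * ((x.2 : ℝ) + 2 * n - (x.2 - 2 * n)) * Real.exp (-c * (x.1 + 2 * n - (x.1 + n))) =
      4 * K * n * Real.exp (-c * n) := by
    congr 1
    · ring
    · congr 1; ring
  have e5 : K * ((x.1 : ℝ) + 4 * n - (x.1 - 4 * n)) * Real.exp (-c * (x.2 + n - (x.2 - n))) ≤
      8 * K * n * Real.exp (-c * n) := by
    have e6 : K * ((x.1 : ℝ) + 4 * n - (x.1 - 4 * n)) = 8 * K * n := by ring
    rw [e6]
    refine mul_le_mul_of_nonneg_left (Real.exp_le_exp.2 ?_) (by positivity)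
    nlinarith
  rw [e1] at t1
  rw [e2] at t2
  rw [e3] at t3
  rw [e4] at t4
  have t5' := t5.trans e5
  unfold EJ
  rw [compl_inter, compl_inter, compl_inter, compl_inter]
  have u1 := measureReal_union_le (μ := mu p hp)
    (crH (x.1 - 2 * n) (x.1 + 2 * n) (x.2 + n) (x.2 + 2 * n))ᶜ
    ((crH (x.1 - 2 * n) (x.1 + 2 * n) (x.2 - 2 * n) (x.2 - n))ᶜ ∪
    ((crV (x.1 - 2 * n) (x.1 - n) (x.2 - 2 * n) (x.2 + 2 * n))ᶜ ∪
    ((crV (x.1 + n) (x.1 + 2 * n) (x.2 - 2 * n) (x.2 + 2 * n))ᶜ ∪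
    (crH (x.1 - 4 * n) (x.1 + 4 * n) (x.2 - n) (x.2 + n))ᶜ)))
  have u2 := measureReal_union_le (μ := mu p hp)
    (crH (x.1 - 2 * n) (x.1 + 2 * n) (x.2 - 2 * n) (x.2 - n))ᶜ
    ((crV (x.1 - 2 * n) (x.1 - n) (x.2 - 2 * n) (x.2 + 2 * n))ᶜ ∪
    ((crV (x.1 + n) (x.1 + 2 * n) (x.2 - 2 * n) (x.2 + 2 * n))ᶜ ∪
    (crH (x.1 - 4 * n) (x.1 + 4 * n) (x.2 - n) (x.2 + n))ᶜ))
  have u3 := measureReal_union_le (μ := mu p hp)
    (crV (x.1 - 2 * n) (x.1 - n) (x.2 - 2 * n) (x.2 + 2 * n))ᶜ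
    ((crV (x.1 + n) (x.1 + 2 * n) (x.2 - 2 * n) (x.2 + 2 * n))ᶜ ∪
    (crH (x.1 - 4 * n) (x.1 + 4 * n) (x.2 - n) (x.2 + n))ᶜ)
  have u4 := measureReal_union_le (μ := mu p hp)
    (crV (x.1 + n) (x.1 + 2 * n) (x.2 - 2 * n) (x.2 + 2 * n))ᶜ
    (crH (x.1 - 4 * n) (x.1 + 4 * n) (x.2 - n) (x.2 + n))ᶜ
  linarith

theorem main : S_C7a := by
  intro p hp hph
  obtain ⟨K, c, hK, hc, h1, h2⟩ := cross_est p hp hph
  have hq0 : Real.exp (-(c / 2)) < 1 := by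
    rw [Real.exp_lt_one_iff]; linarith
  have hD : 0 < 1 - Real.exp (-(c / 2)) := by linarith
  refine ⟨24 * K * (2 / c) / (1 - Real.exp (-(c / 2))), c / 2, by positivity, by positivity,
    fun x m hm => ?_⟩
  refine ⟨⋂ j : ℕ, EJ x (2 ^ j * (m : ℤ)), MeasurableSet.iInter fun j => EJ_meas _ _, ?_, ?_⟩
  · have hm' : (1 : ℝ) ≤ m := by exact_mod_cast hm
    set r : ℝ := Real.exp (-(c / 2) * m) with hr
    have hr0 : 0 < r := Real.exp_pos _
    have hr1 : r ≤ Real.exp (-(c / 2)) := Real.exp_le_exp.2 (by nlinarith)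
    have hr2 : r < 1 := lt_of_le_of_lt hr1 hq0
    -- each scale
    have hj : ∀ j : ℕ, (mu p hp).real (EJ x (2 ^ j * (m : ℤ)))ᶜ ≤ 24 * K * (2 / c) * r * r ^ j := by
      intro j
      have hn : (1 : ℤ) ≤ 2 ^ j * (m : ℤ) := by
        have h1 : (1 : ℤ) ≤ 2 ^ j := one_le_pow₀ (by norm_num)
        have h2 : (1 : ℤ) ≤ (m : ℤ) := by exact_mod_cast hm
        nlinarith
      refine (prob_one hp hK hc h1 h2 x hn).trans ?_
      push_cast
      set N : ℝ := 2 ^ j * (m : ℝ) with hN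
      have hN0 : 0 ≤ N := by positivity
      have hb1 : N * Real.exp (-c * N) ≤ 2 / c * Real.exp (-(c / 2) * N) := by
        have e : Real.exp (-c * N) = Real.exp (-(c / 2) * N) * Real.exp (-(c / 2) * N) := by
          rw [← Real.exp_add]; congr 1; ring
        rw [e]
        have h3 : c / 2 * N * Real.exp (-(c / 2) * N) ≤ 1 := by
          have h4 : c / 2 * N ≤ Real.exp (c / 2 * N) := by
            have := Real.add_one_le_exp (c / 2 * N)
            linarith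
          calc c / 2 * N * Real.exp (-(c / 2) * N) ≤ Real.exp (c / 2 * N) * Real.exp (-(c / 2) * N) :=
                mul_le_mul_of_nonneg_right h4 (Real.exp_pos _).le
            _ = 1 := by rw [← Real.exp_add]; simp
        have h5 : N * Real.exp (-(c / 2) * N) ≤ 2 / c := by
          rw [le_div_iff₀ hc]
          linarith
        calc N * (Real.exp (-(c / 2) * N) * Real.exp (-(c / 2) * N)) =
              (N * Real.exp (-(c / 2) * N)) * Real.exp (-(c / 2) * N) := by ring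
          _ ≤ _ := mul_le_mul_of_nonneg_right h5 (Real.exp_pos _).le
      have hb2 : Real.exp (-(c / 2) * N) ≤ r * r ^ j := by
        rw [← pow_succ', hr, ← Real.exp_nat_mul]
        apply Real.exp_le_exp.2
        have h3 : ((j + 1 : ℕ) : ℝ) ≤ 2 ^ j := by
          have : j + 1 ≤ 2 ^ j := Nat.lt_two_pow_self
          exact_mod_cast this
        have h4 : ((j + 1 : ℕ) : ℝ) * m ≤ N := mul_le_mul_of_nonneg_right h3 (by positivity)
        nlinarith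
      calc 24 * K * N * Real.exp (-c * N) = 24 * K * (N * Real.exp (-c * N)) := by ring
        _ ≤ 24 * K * (2 / c * Real.exp (-(c / 2) * N)) :=
            mul_le_mul_of_nonneg_left hb1 (by positivity)
        _ ≤ 24 * K * (2 / c * (r * r ^ j)) := by
            refine mul_le_mul_of_nonneg_left ?_ (by positivity)
            exact mul_le_mul_of_nonneg_left hb2 (by positivity)
        _ = _ := by ring
    -- the union
    have hU : (mu p hp).real (⋂ j : ℕ, EJ x (2 ^ j * (m : ℤ)))ᶜ ≤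
        24 * K * (2 / c) * r * (1 - r)⁻¹ := by
      rw [compl_iInter]
      have hs : Summable (fun j : ℕ => 24 * K * (2 / c) * r * r ^ j) :=
        (summable_geometric_of_lt_one hr0.le hr2).mul_left _
      have ht : ∑' j : ℕ, 24 * K * (2 / c) * r * r ^ j = 24 * K * (2 / c) * r * (1 - r)⁻¹ := by
        rw [tsum_mul_left, tsum_geometric_of_lt_one hr0.le hr2]
      have h3 : mu p hp (⋃ j : ℕ, (EJ x (2 ^ j * (m : ℤ)))ᶜ) ≤
          ENNReal.ofReal (24 * K * (2 / c) * r * (1 - r)⁻¹) := by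
        rw [← ht, ENNReal.ofReal_tsum_of_nonneg (fun j => by positivity) hs]
        refine (measure_iUnion_le _).trans (ENNReal.tsum_le_tsum fun j => ?_)
        rw [← ofReal_measureReal (measure_ne_top _ _)]
        exact ENNReal.ofReal_le_ofReal (hj j)
      have h4 : 0 ≤ 24 * K * (2 / c) * r * (1 - r)⁻¹ := by
        have : 0 < 1 - r := by linarith
        positivity
      exact ENNReal.toReal_le_of_le_ofReal h4 h3
    rw [probReal_compl_eq_one_sub (MeasurableSet.iInter fun j => EJ_meas _ _)] at hU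
    have h5 : (1 - r)⁻¹ ≤ (1 - Real.exp (-(c / 2)))⁻¹ := by
      apply inv_anti₀ hD
      linarith
    have h6 : 24 * K * (2 / c) * r * (1 - r)⁻¹ ≤
        24 * K * (2 / c) * r * (1 - Real.exp (-(c / 2)))⁻¹ :=
      mul_le_mul_of_nonneg_left h5 (by positivity)
    have h7 : 24 * K * (2 / c) * r * (1 - Real.exp (-(c / 2)))⁻¹ =
        24 * K * (2 / c) / (1 - Real.exp (-(c / 2))) * r := by
      rw [div_eq_mul_inv]; ring
    rw [h7] at h6
    linarith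
  · intro ω hω
    exact determ hm fun j => mem_iInter.1 hω j

end Pool.Agent.W826.UCC7a
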