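import Mathlib
import Pool.Agent.W829.UC.Stmts

/-! UC-C7b: existence and uniqueness of the infinite cluster. -/

set_option autoImplicit false
set_option linter.all false

open MeasureTheory Set
open Pool.Agent.H978R2 Pool.Agent.W829.UC

namespace Pool.Agent.W826.UCC7b

lemma far_of_notBx {x v : ℤ × ℤ} {n : ℕ} (h : v ∉ Bx x n) : v ∈ Far x n := by
  rw [mem_Bx] at h
  rw [mem_Far]
  omega

lemma exists_far {ω : Sym2 (ℤ × ℤ) → Bool} {u : ℤ × ℤ} (hu : u ∈ InfV ω) (x : ℤ × ℤ) (n : ℕ) :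
    ∃ v ∈ Far x n, (og ω).Reachable u v := by
  have h1 : {y | (og ω).Reachable u y}.Infinite := hu
  obtain ⟨y, hy, hy'⟩ := h1.exists_notMem_finite (Bx_finite x n)
  exact ⟨y, far_of_notBx hy', hy⟩

lemma lat_le_univ : lat ≤ latR univ := fun x y h => ⟨h, mem_univ _, mem_univ _⟩

lemma arm_of_inf {ω : Sym2 (ℤ × ℤ) → Bool} {x : ℤ × ℤ} (hx : x ∈ InfV ω) (n : ℕ) :
    ω ∈ armE x n := by
  obtain ⟨v, hv, hr⟩ := exists_far hx x n
  exact arm_of_reach (R := univ) (hr.mono (openG_mono lat_le_univ ω)) hv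

theorem main (h7 : S_C7a) : S_C7b := by
  intro p hp hph
  obtain ⟨K, c, hK, hc, h⟩ := h7 p hp hph
  have h0 : ∀ m : ℕ, 1 ≤ m → ∃ E : Set (Sym2 (ℤ × ℤ) → Bool), MeasurableSet E ∧
      1 - K * Real.exp (-c * m) ≤ (mu p hp).real E ∧ ∀ ω ∈ E,
      (∃ u ∈ Bx (0, 0) m, u ∈ InfV ω) ∧
      ∀ u ∈ Bx (0, 0) m, (∃ v ∈ Far (0, 0) (2 * m), (og ω).Reachable u v) →
        u ∈ InfV ω ∧ ∀ u' ∈ Bx (0, 0) m, (∃ v ∈ Far (0, 0) (2 * m), (og ω).Reachable u' v) →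
          (og ω).Reachable u u' := fun m hm => h (0, 0) m hm
  choose! E hEm hEp hE using h0
  have hinf : ∀ᵐ ω ∂(mu p hp), ∀ m0 : ℕ, ∃ m, m0 ≤ m ∧ 1 ≤ m ∧ ω ∈ E m := by
    rw [ae_all_iff]
    intro m0
    rw [ae_iff]
    have hle : ∀ m : ℕ, m0 ≤ m → 1 ≤ m →
        (mu p hp).real {ω | ¬ ∃ m, m0 ≤ m ∧ 1 ≤ m ∧ ω ∈ E m} ≤ K * Real.exp (-c * m) := by
      intro m hm hm1
      have h1 : {ω | ¬ ∃ m, m0 ≤ m ∧ 1 ≤ m ∧ ω ∈ E m} ⊆ (E m)ᶜ := by
        intro ω hω hωm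
        exact hω ⟨m, hm, hm1, hωm⟩
      have h2 := measureReal_mono (μ := mu p hp) h1 (measure_ne_top _ _)
      rw [measureReal_compl (hEm m hm1), probReal_univ] at h2
      have := hEp m hm1
      linarith
    have hlim : Filter.Tendsto (fun m : ℕ => K * Real.exp (-c * m)) Filter.atTop (nhds 0) := by
      have h1 : Filter.Tendsto (fun m : ℕ => -c * (m : ℝ)) Filter.atTop Filter.atBot :=
        tendsto_natCast_atTop_atTop.const_mul_atTop_of_neg (by linarith)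
      have h2 := (Real.tendsto_exp_atBot.comp h1).const_mul K
      simpa using h2
    have h3 : (mu p hp).real {ω | ¬ ∃ m, m0 ≤ m ∧ 1 ≤ m ∧ ω ∈ E m} ≤ 0 := by
      refine ge_of_tendsto hlim ?_
      filter_upwards [Filter.eventually_ge_atTop (max m0 1)] with m hm
      exact hle m (by omega) (by omega)
    have h4 : (mu p hp).real {ω | ¬ ∃ m, m0 ≤ m ∧ 1 ≤ m ∧ ω ∈ E m} = 0 :=
      le_antisymm h3 measureReal_nonneg
    exact (measureReal_eq_zero_iff (measure_ne_top _ _)).1 h4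
  have hae : ∀ᵐ ω ∂(mu p hp), (InfV ω).Nonempty ∧
      ∀ u ∈ InfV ω, ∀ v ∈ InfV ω, (og ω).Reachable u v := by
    filter_upwards [hinf] with ω hω
    constructor
    · obtain ⟨m, -, hm1, hm⟩ := hω 1
      obtain ⟨⟨u, -, hu⟩, -⟩ := hE m hm1 ω hm
      exact ⟨u, hu⟩
    · intro u hu v hv
      obtain ⟨m, hm, hm1, hmE⟩ := hω (u.1.natAbs + u.2.natAbs + v.1.natAbs + v.2.natAbs)
      have hub : u ∈ Bx (0, 0) m := by rw [mem_Bx]; simp only; omega
      have hvb : v ∈ Bx (0, 0) m := by rw [mem_Bx]; simp only; omega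
      obtain ⟨-, h2⟩ := hE m hm1 ω hmE
      exact (h2 u hub (exists_far hu _ _)).2 v hvb (exists_far hv _ _)
  refine ⟨hae, ?_⟩
  have hx : ∃ x : ℤ × ℤ, mu p hp {ω | x ∈ InfV ω} ≠ 0 := by
    by_contra hcon
    push Not at hcon
    have h1 : mu p hp (⋃ x : ℤ × ℤ, {ω | x ∈ InfV ω}) = 0 := measure_iUnion_null hcon
    have h2 : ∀ᵐ ω ∂(mu p hp), False := by
      have h3 : ∀ᵐ ω ∂(mu p hp), ω ∉ ⋃ x : ℤ × ℤ, {ω | x ∈ InfV ω} := measure_eq_zero_iff_ae_notMem.1 h1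
      filter_upwards [hae, h3] with ω h4 h5
      obtain ⟨u, hu⟩ := h4.1
      exact h5 (mem_iUnion.2 ⟨u, hu⟩)
    have h6 := h2.exists
    obtain ⟨_, hf⟩ := h6
    exact hf
  obtain ⟨x, hx⟩ := hx
  refine ⟨(mu p hp).real {ω | x ∈ InfV ω}, ?_, fun y n => ?_⟩
  · exact ENNReal.toReal_pos hx (measure_ne_top _ _)
  · have e1 : (mu p hp).real (armE y n) = th p hp n := arm_eq p hp y n
    have e2 : (mu p hp).real (armE x n) = th p hp n := arm_eq p hp x n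
    rw [e1, ← e2]
    exact measureReal_mono (fun ω hω => arm_of_inf hω n) (measure_ne_top _ _)

end Pool.Agent.W826.UCC7b
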