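import Mathlib
import Pool.Agent.W829.UC.Stmts2

/-! UC-C9: almost surely some translate is in a set of positive probability. -/

set_option autoImplicit false
set_option linter.all false

open MeasureTheory Set
open Pool.Agent.H978R2 Pool.Agent.W829.UC
open scoped symmDiff

namespace Pool.Agent.W826.UCC9

/-- sum of the first coordinates -/
def gg : Sym2 (ℤ × ℤ) → ℤ := Sym2.lift ⟨fun x y => x.1 + y.1, fun x y => add_comm _ _⟩

lemma gg_map (t : ℤ × ℤ) (e : Sym2 (ℤ × ℤ)) :
    gg (Sym2.map (fun x => x + t) e) = gg e + 2 * t.1 := by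
  induction e using Sym2.ind with
  | _ x y =>
    rw [Sym2.map_mk]
    show (x.1 + t.1) + (y.1 + t.1) = (x.1 + y.1) + 2 * t.1
    ring

lemma shift_mp (p : NNReal) (hp : p ≤ 1) (t : ℤ × ℤ) :
    MeasurePreserving (shiftC t) (mu p hp) (mu p hp) := by
  refine ⟨?_, ?_⟩
  · rw [measurable_pi_iff]
    intro e
    exact measurable_pi_apply _
  · exact map_comp_inj p hp (Sym2.map (fun x : ℤ × ℤ => x + t))
      (Sym2.map.injective (fun a b h => by simpa using h))

lemma shift_shift (s t : ℤ × ℤ) (ω : Sym2 (ℤ × ℤ) → Bool) :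
    shiftC s (shiftC t ω) = shiftC (s + t) ω := by
  funext e
  unfold shiftC
  rw [Sym2.map_map]
  congr 2
  funext x
  simp [add_assoc]

theorem main : Pool.Agent.W829.UC.S_C9 := by
  classical
  intro p hp E hE hpos
  set μ := mu p hp with hμ
  haveI : IsProbabilityMeasure μ := by rw [hμ]; infer_instance
  set B : Set (Sym2 (ℤ × ℤ) → Bool) := {ω | ∀ t, shiftC t ω ∉ E} with hB
  have hBm : MeasurableSet B := by
    have : B = ⋂ t : ℤ × ℤ, (shiftC t) ⁻¹' Eᶜ := by
      ext ω; simp [hB]
    rw [this]
    exact MeasurableSet.iInter fun t => (shift_mp p hp t).measurable hE.compl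
  have hinv : ∀ t, (shiftC t) ⁻¹' B = B := by
    intro t
    ext ω
    constructor
    · intro h s
      have := h (s - t)
      rw [shift_shift, sub_add_cancel] at this
      exact this
    · intro h s
      rw [shift_shift]
      exact h (s + t)
  set b : ℝ := μ.real B with hb
  have key : ∀ ε : ℝ, 0 < ε → b ≤ (b + ε) ^ 2 + 2 * ε := by
    intro ε hε
    obtain ⟨B', hB'C, hB'⟩ := exists_measure_symmDiff_lt_of_generateFrom_isSetRing (μ := μ)
      (C := measurableCylinders (fun _ : Sym2 (ℤ × ℤ) => Bool)) isSetRing_measurableCylinders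
      ⟨{univ}, countable_singleton _, by
        rw [singleton_subset_iff]; exact univ_mem_measurableCylinders _, by simp⟩
      generateFrom_measurableCylinders.symm hBm (ε := ENNReal.ofReal ε) (by simpa using hε)
    have hB'm : MeasurableSet B' := MeasurableSet.of_mem_measurableCylinders hB'C
    have hε1 : μ.real (B' ∆ B) ≤ ε := ENNReal.toReal_le_of_le_ofReal hε.le hB'.le
    obtain ⟨J, S, hS, rfl⟩ := (mem_measurableCylinders _).1 hB'C
    have dJ : DepOn (J : Set (Sym2 (ℤ × ℤ))) (cylinder J S) := by
      intro ω ω' h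
      rw [mem_cylinder, mem_cylinder]
      have : J.restrict ω = J.restrict ω' := by
        funext i
        exact h i i.2
      rw [this]
    -- a large translation
    set R : ℤ := 1 + ∑ e ∈ J, |gg e| with hR
    have hRb : ∀ e ∈ J, |gg e| < R := by
      intro e he
      have := Finset.single_le_sum (f := fun e => |gg e|) (fun _ _ => abs_nonneg _) he
      have h2 : |gg e| ≤ ∑ e ∈ J, |gg e| := this
      omega
    set t : ℤ × ℤ := (R, 0) with ht
    have dJ' : DepOn ((J.image (Sym2.map (fun x => x + t)) : Finset (Sym2 (ℤ × ℤ))) :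
        Set (Sym2 (ℤ × ℤ))) ((shiftC t) ⁻¹' (cylinder J S)) := by
      intro ω ω' h
      refine dJ _ _ ?_
      intro i hi
      apply h
      rw [Finset.mem_coe, Finset.mem_image]
      exact ⟨i, hi, rfl⟩
    have hdis : Disjoint (J : Set (Sym2 (ℤ × ℤ)))
        ((J.image (Sym2.map (fun x => x + t)) : Finset (Sym2 (ℤ × ℤ))) : Set (Sym2 (ℤ × ℤ))) := by
      rw [Set.disjoint_left]
      intro e he he'
      rw [Finset.mem_coe, Finset.mem_image] at he'
      obtain ⟨e', he', rfl⟩ := he'
      have h1 := hRb _ he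
      have h2 := hRb _ he'
      rw [gg_map, abs_lt] at h1
      rw [abs_lt] at h2
      have : t.1 = R := rfl
      omega
    have hind := bm_inter p hp hdis hB'm ((shift_mp p hp t).measurable hB'm) dJ dJ'
    have hpres : μ ((shiftC t) ⁻¹' (cylinder J S)) = μ (cylinder J S) :=
      (shift_mp p hp t).measure_preimage hB'm.nullMeasurableSet
    have hsq : μ.real (cylinder J S ∩ (shiftC t) ⁻¹' (cylinder J S)) = μ.real (cylinder J S) ^ 2 := by
      have e1 : μ (cylinder J S ∩ (shiftC t) ⁻¹' (cylinder J S)) =
          μ (cylinder J S) * μ (cylinder J S) := by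
        have : μ (cylinder J S ∩ (shiftC t) ⁻¹' (cylinder J S)) =
          μ (cylinder J S) * μ ((shiftC t) ⁻¹' (cylinder J S)) := hind
        rw [this, hpres]
      unfold Measure.real
      rw [e1, ENNReal.toReal_mul, sq]
    have hd1 : μ.real (B \ cylinder J S) ≤ ε := by
      refine le_trans (measureReal_mono ?_ (measure_ne_top _ _)) hε1
      intro ω hω
      exact Or.inr hω
    have hd2 : μ.real ((shiftC t) ⁻¹' (B \ cylinder J S)) ≤ ε := by
      have : μ ((shiftC t) ⁻¹' (B \ cylinder J S)) = μ (B \ cylinder J S) :=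
        (shift_mp p hp t).measure_preimage (hBm.diff hB'm).nullMeasurableSet
      unfold Measure.real at hd1 ⊢
      rwa [this]
    have hB'b : μ.real (cylinder J S) ≤ b + ε := by
      have h1 : cylinder J S ⊆ B ∪ (cylinder J S ∆ B) := by
        intro ω hω
        by_cases h : ω ∈ B
        · exact Or.inl h
        · exact Or.inr (Or.inl ⟨hω, h⟩)
      have h2 := (measureReal_mono (μ := μ) h1 (measure_ne_top _ _)).trans (measureReal_union_le _ _)
      linarith
    have hsub : B ⊆ (cylinder J S ∩ (shiftC t) ⁻¹' (cylinder J S)) ∪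
        ((B \ cylinder J S) ∪ (shiftC t) ⁻¹' (B \ cylinder J S)) := by
      intro ω hω
      by_cases h1 : ω ∈ cylinder J S
      · by_cases h2 : shiftC t ω ∈ cylinder J S
        · exact Or.inl ⟨h1, h2⟩
        · right; right
          refine ⟨?_, h2⟩
          have : ω ∈ (shiftC t) ⁻¹' B := by rw [hinv]; exact hω
          exact this
      · exact Or.inr (Or.inl ⟨hω, h1⟩)
    have h3 := (measureReal_mono (μ := μ) hsub (measure_ne_top _ _)).trans
      ((measureReal_union_le _ _).trans (add_le_add_right (measureReal_union_le _ _) _))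
    have h4 : μ.real (cylinder J S) ^ 2 ≤ (b + ε) ^ 2 :=
      pow_le_pow_left₀ measureReal_nonneg hB'b 2
    rw [hsq] at h3
    linarith
  have hb0 : 0 ≤ b := measureReal_nonneg
  -- B misses E
  have hbE : b ≤ 1 - μ.real E := by
    have h1 : B ⊆ Eᶜ := by
      intro ω hω hωE
      apply hω 0
      have : shiftC 0 ω = ω := by
        funext e
        unfold shiftC
        simp
      rw [this]
      exact hωE
    have h2 := measureReal_mono (μ := μ) h1 (measure_ne_top _ _)
    rwa [measureReal_compl hE, probReal_univ] at h2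
  have hE0 : 0 < μ.real E := ENNReal.toReal_pos hpos.ne' (measure_ne_top _ _)
  have hb1 : b < 1 := by linarith
  have hbz : b = 0 := by
    by_contra hne
    have hbp : 0 < b := lt_of_le_of_ne hb0 (Ne.symm hne)
    have hq : 0 < b * (1 - b) := by
      have : 0 < 1 - b := by linarith
      positivity
    have h5 := key (b * (1 - b) / 8) (by positivity)
    have h6 : b * (1 - b) / 8 ≤ 1 / 8 := by nlinarith
    nlinarith
  have h7 : μ B = 0 := (measureReal_eq_zero_iff (measure_ne_top _ _)).1 hbz
  have h8 : ∀ᵐ ω ∂μ, ω ∉ B := measure_eq_zero_iff_ae_notMem.1 h7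
  filter_upwards [h8] with ω hω
  by_contra hcon
  push Not at hcon
  exact hω hcon

end Pool.Agent.W826.UCC9
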