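import Mathlib
import Pool.Agent.W526.LL.Stm

/-! LL-TOP: open subgroups of `GL₂(F)`. -/

namespace Pool.Agent.W826.LLTop

open Pool.Agent.W526.LL
open WithZero Topology Matrix

section
variable {F : Type} [Field F] [Valued F ℤᵐ⁰]

theorem cont_entry (i j : Fin 2) : Continuous (fun g : GL (Fin 2) F => g i j) :=
  ((Units.continuous_val : Continuous (Units.val : GL (Fin 2) F → Matrix (Fin 2) (Fin 2) F))).matrix_elem i j

theorem ball_nhds {a : F} (ha : Valued.v a = exp (-1 : ℤ)) (n : ℕ) :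
    {x : F | Valued.v x < exp (-(n : ℤ))} ∈ 𝓝 (0 : F) := by
  refine mem_nhds_of_ball (a := a ^ n) ?_ subset_rfl
  rw [map_pow, ha, ← WithZero.exp_nsmul]
  simp

theorem Kn_nhds {a : F} (ha : Valued.v a = exp (-1 : ℤ)) (n : ℕ) :
    (Kn F n : Set (GL (Fin 2) F)) ∈ 𝓝 (1 : GL (Fin 2) F) := by
  have h1 : ∀ i j : Fin 2, {g : GL (Fin 2) F | Valued.v (g i j - (1 : GL (Fin 2) F) i j) <
      exp (-(n : ℤ))} ∈ 𝓝 (1 : GL (Fin 2) F) := by
    intro i j
    have hc : Filter.Tendsto (fun g : GL (Fin 2) F => g i j - (1 : GL (Fin 2) F) i j)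
        (𝓝 1) (𝓝 0) := by
      have : Filter.Tendsto (fun g : GL (Fin 2) F => g i j - (1 : GL (Fin 2) F) i j)
        (𝓝 1) (𝓝 ((1 : GL (Fin 2) F) i j - (1 : GL (Fin 2) F) i j)) :=
        ((cont_entry i j).sub continuous_const).tendsto 1
      rwa [sub_self] at this
    exact hc (ball_nhds ha n)
  have h2 := Filter.inter_mem (Filter.inter_mem (h1 0 0) (h1 0 1))
    (Filter.inter_mem (h1 1 0) (h1 1 1))
  refine Filter.mem_of_superset h2 ?_
  rintro g ⟨⟨h00, h01⟩, h10, h11⟩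
  simp only [Set.mem_ofPred_eq, one_00, one_01, one_10, one_11, sub_zero] at h00 h01 h10 h11
  have hle : exp (-(n : ℤ)) ≤ (1 : ℤᵐ⁰) := by
    rw [← exp_zero, exp_le_exp]; omega
  have g00 : Valued.v (g 0 0) ≤ 1 := by
    have e : g 0 0 = (g 0 0 - 1) + 1 := by ring
    rw [e]
    exact Valued.v.map_add_le (h00.le.trans hle) (by simp)
  have g11 : Valued.v (g 1 1) ≤ 1 := by
    have e : g 1 1 = (g 1 1 - 1) + 1 := by ring
    rw [e]
    exact Valued.v.map_add_le (h11.le.trans hle) (by simp)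
  have g01 : Valued.v (g 0 1) ≤ 1 := h01.le.trans hle
  have g10 : Valued.v (g 1 0) ≤ 1 := h10.le.trans hle
  have hd : Valued.v (dt g - 1) < 1 := by
    have e : dt g - 1 = ((g 0 0 - 1) * g 1 1 + (g 1 1 - 1)) - g 0 1 * g 1 0 := by
      simp only [dt]; ring
    rw [e]
    refine (Valuation.map_sub _ _ _).trans_lt (max_lt (Valued.v.map_add_lt ?_ ?_) ?_)
    · rw [map_mul]
      exact mul_lt_one_of_nonneg_of_lt_one_left zero_le (h00.trans_le hle) g11
    · exact h11.trans_le hle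
    · rw [map_mul]
      exact mul_lt_one_of_nonneg_of_lt_one_left zero_le (h01.trans_le hle) g10
  have hd1 : Valued.v (dt g) = 1 := by
    have e : dt g = 1 + (dt g - 1) := by ring
    rw [e]
    have := Valuation.map_add_eq_of_lt_right (v := Valued.v) (x := dt g - 1) (y := (1 : F)) (by simpa using hd)
    rw [add_comm]
    rw [this, map_one]
  refine ⟨⟨?_, hd1⟩, ?_⟩
  · intro i j
    fin_cases i <;> fin_cases j
    exacts [g00, g01, g10, g11]
  · intro i j
    fin_cases i <;> fin_cases j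
    · exact h00.le
    · show Valued.v (g 0 1 - 0) ≤ _
      rw [sub_zero]; exact h01.le
    · show Valued.v (g 1 0 - 0) ≤ _
      rw [sub_zero]; exact h10.le
    · exact h11.le

theorem exists_mat_ball {A : Set (Matrix (Fin 2) (Fin 2) F)}
    (hA : A ∈ 𝓝 (1 : Matrix (Fin 2) (Fin 2) F)) :
    ∃ n : ℕ, ∀ M : Matrix (Fin 2) (Fin 2) F,
      (∀ i j, Valued.v (M i j - (1 : Matrix (Fin 2) (Fin 2) F) i j) ≤ exp (-(n : ℤ))) → M ∈ A := by
  have hA' : (fun M : Fin 2 → Fin 2 → F => (Matrix.of M : Matrix (Fin 2) (Fin 2) F)) ⁻¹' A ∈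
      𝓝 (fun i j => (1 : Matrix (Fin 2) (Fin 2) F) i j) := hA
  rw [nhds_pi, Filter.mem_pi] at hA'
  obtain ⟨I, -, t, ht, hsub⟩ := hA'
  have h2 : ∀ i, ∃ n : ℕ, ∀ r : Fin 2 → F,
      (∀ j, Valued.v (r j - (1 : Matrix (Fin 2) (Fin 2) F) i j) ≤ exp (-(n : ℤ))) → r ∈ t i := by
    intro i
    have hi := ht i
    rw [nhds_pi, Filter.mem_pi] at hi
    obtain ⟨J, -, s, hs, hsub2⟩ := hi
    have h3 : ∀ j, ∃ n : ℕ, ∀ x : F,
        Valued.v (x - (1 : Matrix (Fin 2) (Fin 2) F) i j) ≤ exp (-(n : ℤ)) → x ∈ s j := by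
      intro j
      have hc : (fun y : F => y + (1 : Matrix (Fin 2) (Fin 2) F) i j) ⁻¹' (s j) ∈ 𝓝 (0 : F) := by
        have : Filter.Tendsto (fun y : F => y + (1 : Matrix (Fin 2) (Fin 2) F) i j) (𝓝 0)
            (𝓝 (0 + (1 : Matrix (Fin 2) (Fin 2) F) i j)) :=
          (continuous_id.add continuous_const).tendsto 0
        rw [zero_add] at this
        exact this (hs j)
      obtain ⟨n, hn⟩ := exists_ball_of_mem_nhds hc
      refine ⟨n, fun x hx => ?_⟩
      have := hn (a := x - (1 : Matrix (Fin 2) (Fin 2) F) i j) hx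
      simpa using this
    choose n hn using h3
    refine ⟨max (n 0) (n 1), fun r hr => hsub2 ?_⟩
    intro j _
    refine hn j (r j) ((hr j).trans ?_)
    rw [exp_le_exp]
    have : n j ≤ max (n 0) (n 1) := by fin_cases j <;> simp
    omega
  choose n hn using h2
  refine ⟨max (n 0) (n 1), fun M hM => ?_⟩
  have : (fun i j => M i j) ∈ (fun M : Fin 2 → Fin 2 → F => (Matrix.of M : Matrix (Fin 2) (Fin 2) F)) ⁻¹' A := by
    apply hsub
    intro i _
    refine hn i (fun j => M i j) (fun j => (hM i j).trans ?_)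
    rw [exp_le_exp]
    have : n i ≤ max (n 0) (n 1) := by fin_cases i <;> simp
    omega
  exact this

theorem exists_Kn_le {U : Subgroup (GL (Fin 2) F)} (hU : IsOpen (U : Set (GL (Fin 2) F))) :
    ∃ n, Kn F n ≤ U := by
  have h1 : (U : Set (GL (Fin 2) F)) ∈ 𝓝 (1 : GL (Fin 2) F) := hU.mem_nhds (one_mem U)
  rw [Units.isEmbedding_embedProduct.isInducing.nhds_eq_comap, Filter.mem_comap] at h1
  obtain ⟨W, hW, hWU⟩ := h1
  rw [map_one, Prod.one_eq_mk, nhds_prod_eq, Filter.mem_prod_iff] at hW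
  obtain ⟨A, hA, B, hB, hAB⟩ := hW
  obtain ⟨n, hn⟩ := exists_mat_ball hA
  have hB' : (MulOpposite.op : Matrix (Fin 2) (Fin 2) F → _) ⁻¹' B ∈
      𝓝 (1 : Matrix (Fin 2) (Fin 2) F) :=
    (MulOpposite.continuous_op (M := Matrix (Fin 2) (Fin 2) F)).tendsto 1 hB
  obtain ⟨m, hm⟩ := exists_mat_ball hB'
  refine ⟨max n m, fun g hg => ?_⟩
  have hg' := inv_mem hg
  apply hWU
  apply hAB
  refine ⟨?_, ?_⟩
  · apply hn
    intro i j
    refine (hg.2 i j).trans ?_
    rw [exp_le_exp]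
    have : n ≤ max n m := le_max_left _ _
    omega
  · apply hm
    intro i j
    refine (hg'.2 i j).trans ?_
    rw [exp_le_exp]
    have : m ≤ max n m := le_max_right _ _
    omega

end

theorem main : S_open := by
  intro F _ _ a ha
  have hK : ∀ n, IsOpen (Kn F n : Set (GL (Fin 2) F)) := fun n =>
    Subgroup.isOpen_of_mem_nhds _ (Kn_nhds ha n)
  refine ⟨hK, ?_, ?_, fun U hU => exists_Kn_le hU⟩
  · refine Subgroup.isOpen_mono (H₁ := Kn F 1) ?_ (hK 1)
    intro g hg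
    refine ⟨hg.1, ?_⟩
    have h := hg.2 1 0
    rw [one_10, sub_zero] at h
    refine h.trans_lt ?_
    rw [← exp_zero, exp_lt_exp]
    norm_num
  · exact Subgroup.isOpen_mono (Kn_le 1) (hK 1)

end Pool.Agent.W826.LLTop
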