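import Pool.Agent.W674.LVF.Stm2

/-! Uniform one-sided bound of the difference quotients of equi-Lipschitz functions (S_kdir). -/

set_option autoImplicit false

open MeasureTheory Set Filter Topology Asymptotics
open scoped ENNReal NNReal
open Pool.Agent.W674.LVR

namespace Pool.Agent.W826.LVFkdir

open Pool.Agent.W674.LVF

theorem main : S_kdir := by
  intro k φ L v hφ
  obtain ⟨m, hm⟩ : ∃ m : Rn k → ℝ, m = fun u => ⨆ i, |lineDeriv ℝ (φ i) u v| := ⟨_, rfl⟩
  have hbd : ∀ i u, |lineDeriv ℝ (φ i) u v| ≤ L * ‖v‖ := fun i u =>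
    norm_lineDeriv_le_of_lipschitz ℝ (hφ i)
  have hbdd : ∀ u, BddAbove (range fun i => |lineDeriv ℝ (φ i) u v|) := fun u =>
    ⟨L * ‖v‖, by rintro _ ⟨i, rfl⟩; exact hbd i u⟩
  have hle : ∀ i u, |lineDeriv ℝ (φ i) u v| ≤ m u := fun i u => by
    rw [hm]; exact le_ciSup (hbdd u) i
  have hm0 : ∀ u, 0 ≤ m u := fun u => (abs_nonneg _).trans (hle 0 u)
  have hmL : ∀ u, m u ≤ L * ‖v‖ := fun u => by
    rw [hm]; exact ciSup_le (fun i => hbd i u)
  have hmm : Measurable m := by
    rw [hm]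
    exact Measurable.iSup fun i => (measurable_lineDeriv (hφ i).continuous).norm
  obtain ⟨P, hPd⟩ : ∃ P : Set (Rn k), P = {u | ∀ n : ℕ, ∃ l : ℕ, ∀ q : ℚ, 0 < (q : ℝ) →
      (q : ℝ) < 1 / ((l : ℝ) + 1) → ∀ j, |φ j (u + (q : ℝ) • v) - φ j u| ≤
        (m u + 1 / ((n : ℝ) + 1)) * q} := ⟨_, rfl⟩
  have hP : MeasurableSet P := by
    have : P = ⋂ n : ℕ, ⋃ l : ℕ, ⋂ q : ℚ, ⋂ (_ : 0 < (q : ℝ)), ⋂ (_ : (q : ℝ) < 1 / ((l : ℝ) + 1)),
        ⋂ j, {u | |φ j (u + (q : ℝ) • v) - φ j u| ≤ (m u + 1 / ((n : ℝ) + 1)) * q} := by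
      rw [hPd]
      ext u
      simp only [mem_iInter, mem_iUnion]
      rfl
    rw [this]
    refine MeasurableSet.iInter fun n => MeasurableSet.iUnion fun l => MeasurableSet.iInter
      fun q => MeasurableSet.iInter fun _ => MeasurableSet.iInter fun _ => MeasurableSet.iInter
      fun j => measurableSet_le ?_ ?_
    · exact (((hφ j).continuous.measurable.comp (measurable_id.add_const _)).sub
        (hφ j).continuous.measurable).norm
    · exact (hmm.add_const _).mul_const _
  have A : ∀ p : Rn k, ∀ᵐ s : ℝ, p + s • v ∈ P := by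
    intro p
    obtain ⟨M, hM⟩ : ∃ M : ℝ → ℝ, M = fun s => m (p + s • v) := ⟨_, rfl⟩
    have hMm : Measurable M := by
      rw [hM]
      exact hmm.comp (measurable_const.add (measurable_id.smul_const v))
    have hMi : LocallyIntegrable M volume := by
      refine (memLp_top_of_bound hMm.aestronglyMeasurable (L * ‖v‖)
        (Eventually.of_forall fun s => ?_)).locallyIntegrable le_top
      rw [hM, Real.norm_eq_abs, abs_of_nonneg (hm0 _)]
      exact hmL _
    filter_upwards [_root_.LocallyIntegrable.ae_hasDerivAt_integral hMi] with s hs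
    have hs := hs 0
    rw [hPd]
    intro n
    have hn : 0 < 1 / ((n : ℝ) + 1) := by positivity
    -- the average tends to `M s`
    have h1 : Tendsto (fun t : ℝ => t⁻¹ • ((∫ x in (0 : ℝ)..(s + t), M x) - ∫ x in (0 : ℝ)..s, M x))
        (𝓝[≠] 0) (𝓝 (M s)) := hasDerivAt_iff_tendsto_slope_zero.1 hs
    have h2 : ∀ᶠ t : ℝ in 𝓝[≠] 0,
        t⁻¹ • ((∫ x in (0 : ℝ)..(s + t), M x) - ∫ x in (0 : ℝ)..s, M x) <
          M s + 1 / ((n : ℝ) + 1) := h1.eventually_lt_const (by linarith)
    rw [eventually_nhdsWithin_iff, Metric.eventually_nhds_iff] at h2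
    obtain ⟨δ, hδ, h2⟩ := h2
    obtain ⟨l, hl⟩ := exists_nat_one_div_lt hδ
    refine ⟨l, fun q hq0 hql j => ?_⟩
    have h3 := h2 (y := (q : ℝ)) (by
      rw [Real.dist_eq, sub_zero, abs_of_pos hq0]
      exact hql.trans hl) (by
      show (q : ℝ) ∈ ({0} : Set ℝ)ᶜ
      rw [mem_compl_singleton_iff]
      exact hq0.ne')
    have hint : ∀ a b : ℝ, IntervalIntegrable M volume a b := fun a b =>
      intervalIntegrable_iff.mpr <|
        (hMi.integrableOn_isCompact isCompact_uIcc).mono_set uIoc_subset_uIcc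
    rw [intervalIntegral.integral_interval_sub_left (hint _ _) (hint _ _), smul_eq_mul,
      inv_mul_lt_iff₀ hq0] at h3
    -- the function on the line
    obtain ⟨c, hc⟩ : ∃ c : ℝ → ℝ, c = fun x => φ j (p + x • v) := ⟨_, rfl⟩
    have hcL : LipschitzWith (L * ‖v‖₊) c := by
      rw [hc]
      refine (hφ j).comp ?_
      refine LipschitzWith.of_dist_le_mul fun x y => ?_
      rw [dist_add_left, dist_eq_norm, ← sub_smul, norm_smul, mul_comm, Real.dist_eq]
      rfl
    have hac : AbsolutelyContinuousOnInterval c s (s + q) :=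
      (hcL.lipschitzOnWith (s := uIcc s (s + q))).absolutelyContinuousOnInterval
    have h4 := hac.integral_deriv_eq_sub
    have hder : ∀ x, deriv c x = lineDeriv ℝ (φ j) (p + x • v) v := by
      intro x
      unfold lineDeriv
      have : (fun t : ℝ => φ j (p + x • v + t • v)) = fun t => c (x + t) := by
        rw [hc]
        funext t
        show φ j (p + x • v + t • v) = φ j (p + (x + t) • v)
        rw [add_smul, add_assoc]
      rw [this, deriv_comp_const_add, add_zero]
    have h5 : |c (s + q) - c s| ≤ ∫ x in s..(s + q), M x := by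
      rw [← h4, ← Real.norm_eq_abs]
      have hsq : s ≤ s + q := by linarith
      refine (intervalIntegral.norm_integral_le_integral_norm hsq).trans ?_
      refine intervalIntegral.integral_mono_on hsq hac.intervalIntegrable_deriv.norm (hint _ _) ?_
      intro x _
      rw [hder, hM]
      exact hle j _
    have h6 : c (s + q) = φ j (p + s • v + (q : ℝ) • v) := by
      rw [hc]
      show φ j (p + (s + q) • v) = _
      rw [add_smul, add_assoc]
    rw [← h6]
    have h7 : c s = φ j (p + s • v) := by rw [hc]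
    have h8 : M s = m (p + s • v) := by rw [hM]
    rw [← h7, ← h8]
    calc |c (s + q) - c s| ≤ ∫ x in s..(s + q), M x := h5
      _ ≤ q * (M s + 1 / ((n : ℝ) + 1)) := h3.le
      _ = _ := mul_comm _ _
  have B : ∀ᵐ u : Rn k, u ∈ P := by
    let Lm : ℝ →L[ℝ] Rn k := ContinuousLinearMap.smulRight (1 : ℝ →L[ℝ] ℝ) v
    exact ae_mem_of_ae_add_linearMap_mem Lm.toLinearMap volume volume hP A
  filter_upwards [B] with u hu ε hε
  rw [hPd] at hu
  obtain ⟨n, hn⟩ := exists_nat_one_div_lt hε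
  obtain ⟨l, hl⟩ := hu n
  have hlpos : 0 < 1 / ((l : ℝ) + 1) := by positivity
  have hev : ∀ᶠ t : ℝ in 𝓝[>] 0, t ∈ Ioo (0 : ℝ) (1 / ((l : ℝ) + 1)) :=
    Ioo_mem_nhdsGT hlpos
  filter_upwards [hev] with t ht j
  have hcl : IsClosed {t : ℝ | |φ j (u + t • v) - φ j u| ≤ (m u + 1 / ((n : ℝ) + 1)) * t} := by
    refine isClosed_le ?_ ?_
    · exact (((hφ j).continuous.comp (continuous_const.add
        (continuous_id.smul continuous_const))).sub continuous_const).norm
    · exact continuous_const.mul continuous_id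
  have h1 : t ∈ closure (Ioo (0 : ℝ) (1 / ((l : ℝ) + 1)) ∩ range (Rat.cast : ℚ → ℝ)) :=
    Rat.denseRange_cast.open_subset_closure_inter isOpen_Ioo ht
  have h2 : t ∈ {t : ℝ | |φ j (u + t • v) - φ j u| ≤ (m u + 1 / ((n : ℝ) + 1)) * t} := by
    refine closure_minimal ?_ hcl h1
    rintro _ ⟨⟨hx1, hx2⟩, q, rfl⟩
    exact hl q hx1 hx2 j
  have h3 : |φ j (u + t • v) - φ j u| ≤ (m u + 1 / ((n : ℝ) + 1)) * t := h2
  have h4 : m u = ⨆ i, |lineDeriv ℝ (φ i) u v| := by rw [hm]
  rw [← h4]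
  refine h3.trans ?_
  have ht0 : 0 ≤ t := ht.1.le
  gcongr

end Pool.Agent.W826.LVFkdir
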