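import Mathlib
import Pool.Agent.W829.UC.Stmts

/-! UC-C1: sprinkling. -/

set_option autoImplicit false
set_option linter.all false

open MeasureTheory Set
open Pool.Agent.H978R2 Pool.Agent.W829.UC

namespace Pool.Agent.W826.UCC1

variable {ι : Type*}

/-- the sprinkled weight -/
noncomputable def GG (ε : ℝ) : List ι → ((ι → Bool) → ℝ) → (ι → Bool) → ℝ
  | [], f, ω => f ω
  | e :: l, f, ω => max (GG ε l f ω) (ε * GG ε l f (upd e true ω))

lemma upd_mono {e : ι} {b : Bool} {ω ω' : ι → Bool} (h : ω ≤ ω') : upd e b ω ≤ upd e b ω' := by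
  intro i
  by_cases hi : i = e
  · subst hi; rw [upd_self, upd_self]
  · rw [upd_ne hi, upd_ne hi]; exact h i

lemma upd_tf (e : ι) (ω : ι → Bool) : upd e false ω ≤ upd e true ω := by
  intro i
  by_cases hi : i = e
  · subst hi; rw [upd_self, upd_self]; exact Bool.false_le _
  · rw [upd_ne hi, upd_ne hi]

lemma upd_upd (e : ι) (b b' : Bool) (ω : ι → Bool) : upd e b (upd e b' ω) = upd e b ω := by
  funext i
  by_cases hi : i = e
  · subst hi; rw [upd_self, upd_self]
  · rw [upd_ne hi, upd_ne hi, upd_ne hi]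

lemma upd_comm {e e' : ι} (h : e ≠ e') (b b' : Bool) (ω : ι → Bool) :
    upd e b (upd e' b' ω) = upd e' b' (upd e b ω) := by
  funext i
  by_cases hi : i = e
  · subst hi; rw [upd_self, upd_ne h, upd_self]
  · by_cases hi' : i = e'
    · subst hi'; rw [upd_self, upd_ne hi, upd_self]
    · rw [upd_ne hi, upd_ne hi', upd_ne hi', upd_ne hi]

lemma GG_mono {ε : ℝ} (hε : 0 ≤ ε) (l : List ι) {f : (ι → Bool) → ℝ} (hf : Monotone f) :
    Monotone (GG ε l f) := by
  induction l with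
  | nil => exact hf
  | cons e l ih =>
    intro ω ω' h
    show max _ _ ≤ max _ _
    exact max_le_max (ih h) (mul_le_mul_of_nonneg_left (ih (upd_mono h)) hε)

lemma GG_nonneg {ε : ℝ} (hε : 0 ≤ ε) (l : List ι) {f : (ι → Bool) → ℝ} (hf : ∀ ω, 0 ≤ f ω)
    (ω : ι → Bool) : 0 ≤ GG ε l f ω := by
  induction l generalizing ω with
  | nil => exact hf ω
  | cons e l ih => exact le_max_of_le_left (ih ω)

lemma GG_upd {ε : ℝ} (l : List ι) (f : (ι → Bool) → ℝ) {e : ι} (he : e ∉ l) (b : Bool)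
    (ω : ι → Bool) : GG ε l f (upd e b ω) = GG ε l (fun ω => f (upd e b ω)) ω := by
  induction l generalizing ω with
  | nil => rfl
  | cons e' l ih =>
    have h1 : e ≠ e' := fun h => he (by rw [h]; exact List.mem_cons_self)
    have h2 : e ∉ l := fun h => he (List.mem_cons_of_mem _ h)
    show max _ _ = max _ _
    rw [ih h2, upd_comm h1.symm, ih h2]

lemma key {ε q : ℝ} (hε : 0 ≤ ε) (hε1 : ε ≤ 1) (hq : 0 ≤ q) (hq1 : q ≤ 1) (l : List ι)
    (hl : l.Nodup) [DecidableEq ι] (f : (ι → Bool) → ℝ) (hf : Monotone f) (hf0 : ∀ ω, 0 ≤ f ω) :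
    EE l.toFinset q (GG ε l f) ≤ EE l.toFinset (q + (1 - q) * ε) f := by
  induction l generalizing f with
  | nil =>
    rw [List.toFinset_nil, EE_empty, EE_empty]
    exact le_refl _
  | cons e l ih =>
    have he : e ∉ l := (List.nodup_cons.1 hl).1
    have hl' := (List.nodup_cons.1 hl).2
    have he' : e ∉ l.toFinset := by rwa [List.mem_toFinset]
    rw [List.toFinset_cons, EE_insert he', EE_insert he']
    have hm : ∀ b, Monotone (fun ω => f (upd e b ω)) := fun b ω ω' h => hf (upd_mono h)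
    have i1 := ih hl' (fun ω => f (upd e true ω)) (hm true) (fun ω => hf0 _)
    have i0 := ih hl' (fun ω => f (upd e false ω)) (hm false) (fun ω => hf0 _)
    set a := EE l.toFinset q (GG ε l fun ω => f (upd e false ω)) with ha
    set b := EE l.toFinset q (GG ε l fun ω => f (upd e true ω)) with hb
    have e1 : EE l.toFinset q (fun ω => GG ε (e :: l) f (upd e true ω)) ≤ b := by
      refine EE_mono hq hq1 fun ω => ?_
      show max (GG ε l f (upd e true ω)) (ε * GG ε l f (upd e true (upd e true ω))) ≤ _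
      rw [upd_upd, GG_upd l f he]
      have h0 : 0 ≤ GG ε l (fun ω => f (upd e true ω)) ω := GG_nonneg hε l (fun ω => hf0 _) ω
      exact max_le (le_refl _) (by nlinarith)
    have e0 : EE l.toFinset q (fun ω => GG ε (e :: l) f (upd e false ω)) ≤ ε * b + (1 - ε) * a := by
      rw [ha, hb, ← EE_mul, ← EE_mul, ← EE_add]
      refine EE_mono hq hq1 fun ω => ?_
      show max (GG ε l f (upd e false ω)) (ε * GG ε l f (upd e true (upd e false ω))) ≤ _
      rw [upd_upd]
      have h1 : GG ε l f (upd e false ω) ≤ GG ε l f (upd e true ω) := GG_mono hε l hf (upd_tf e ω)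
      have h0 : 0 ≤ GG ε l f (upd e false ω) := GG_nonneg hε l hf0 _
      rw [← GG_upd l f he, ← GG_upd l f he]
      have h2 : 0 ≤ 1 - ε := by linarith
      exact max_le (by nlinarith) (by nlinarith)
    have hq2 : 0 ≤ 1 - q := by linarith
    have hε2 : 0 ≤ 1 - ε := by linarith
    calc q * EE l.toFinset q (fun ω => GG ε (e :: l) f (upd e true ω)) +
          (1 - q) * EE l.toFinset q (fun ω => GG ε (e :: l) f (upd e false ω))
        ≤ q * b + (1 - q) * (ε * b + (1 - ε) * a) :=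
          add_le_add (mul_le_mul_of_nonneg_left e1 hq) (mul_le_mul_of_nonneg_left e0 hq2)
      _ = (q + (1 - q) * ε) * b + (1 - (q + (1 - q) * ε)) * a := by ring
      _ ≤ _ := by
          refine add_le_add (mul_le_mul_of_nonneg_left i1 (by positivity))
            (mul_le_mul_of_nonneg_left i0 ?_)
          nlinarith

lemma opF_insert [DecidableEq (Sym2 (ℤ × ℤ))] (ω : Sym2 (ℤ × ℤ) → Bool) (e : Sym2 (ℤ × ℤ))
    (F : Finset (Sym2 (ℤ × ℤ))) : opF ω (insert e F) = opF (upd e true ω) F := by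
  funext i
  unfold opF
  by_cases hi : i = e
  · subst hi
    simp [upd_self]
  · simp [upd_ne hi, hi]

lemma opF_empty (ω : Sym2 (ℤ × ℤ) → Bool) : opF ω ∅ = ω := by
  funext i
  simp [opF]

lemma GG_ge {ε : ℝ} (hε : 0 ≤ ε) (l : List (Sym2 (ℤ × ℤ))) (f : (Sym2 (ℤ × ℤ) → Bool) → ℝ)
    (F : Finset (Sym2 (ℤ × ℤ))) (hF : ∀ e ∈ F, e ∈ l) (ω : Sym2 (ℤ × ℤ) → Bool) :
    ε ^ F.card * f (opF ω F) ≤ GG ε l f ω := by
  classical
  induction l generalizing F ω with
  | nil =>
    have : F = ∅ := Finset.eq_empty_of_forall_notMem fun e he => by simpa using hF e he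
    subst this
    rw [opF_empty]
    simp [GG]
  | cons e l ih =>
    by_cases he : e ∈ F
    · have h1 : F = insert e (F.erase e) := (Finset.insert_erase he).symm
      have h2 : F.card = (F.erase e).card + 1 := by
        rw [Finset.card_erase_of_mem he]
        have := Finset.card_pos.2 ⟨e, he⟩
        omega
      have h3 := ih (F.erase e) (fun i hi => by
        have := hF i (Finset.mem_of_mem_erase hi)
        rcases List.mem_cons.1 this with h | h
        · exact absurd h (Finset.ne_of_mem_erase hi)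
        · exact h) (upd e true ω)
      have h4 : opF ω F = opF (upd e true ω) (F.erase e) := by
        conv_lhs => rw [h1]
        rw [opF_insert]
      rw [h2, h4]
      show _ ≤ max _ _
      refine le_trans ?_ (le_max_right _ _)
      calc _ = ε * (ε ^ (F.erase e).card * f (opF (upd e true ω) (F.erase e))) := by ring
        _ ≤ _ := mul_le_mul_of_nonneg_left h3 hε
    · show _ ≤ max _ _
      refine le_trans (ih F (fun i hi => ?_) ω) (le_max_left _ _)
      rcases List.mem_cons.1 (hF i hi) with h | h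
      · exact absurd (h ▸ hi) he
      · exact h

lemma armE_upper (x : ℤ × ℤ) (n : ℕ) : IsUpperSet (armE x n) := by
  rintro ω ω' h ⟨a, ha, b, hb, hr⟩
  refine ⟨a, ha, b, hb, hr.mono ?_⟩
  intro u v huv
  refine ⟨huv.1, ?_⟩
  have h1 := h s(u, v)
  rw [huv.2] at h1
  exact Bool.eq_true_of_true_le h1

/-- the sprinkling inequality -/
lemma sprinkle {q q' : NNReal} (hq : q ≤ 1) (hq' : q' ≤ 1) {ε : ℝ} (hε : 0 ≤ ε) (hε1 : ε ≤ 1)
    (h : (q' : ℝ) = q + (1 - q) * ε) (x : ℤ × ℤ) (n m : ℕ) :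
    ε ^ m * (mu q hq).real {ω | ∃ F : Finset (Sym2 (ℤ × ℤ)), F.card ≤ m ∧ opF ω F ∈ armE x n} ≤
      (mu q' hq').real (armE x n) := by
  classical
  set J : Finset (Sym2 (ℤ × ℤ)) := (ins_finite (Bx_finite x n)).toFinset with hJ
  have hJc : (J : Set (Sym2 (ℤ × ℤ))) = ins (Bx x n) := by rw [hJ]; simp
  have dA : DepOn (J : Set (Sym2 (ℤ × ℤ))) (armE x n) := by
    rw [hJc]; exact dep_ins _ _ _
  set B : Set (Sym2 (ℤ × ℤ) → Bool) :=
    {ω | ∃ F : Finset (Sym2 (ℤ × ℤ)), F.card ≤ m ∧ opF ω F ∈ armE x n} with hB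
  have restr : ∀ ω, ω ∈ B → ∃ F : Finset (Sym2 (ℤ × ℤ)), F.card ≤ m ∧ F ⊆ J ∧ opF ω F ∈ armE x n := by
    rintro ω ⟨F, hF, hF'⟩
    refine ⟨F ∩ J, (Finset.card_le_card Finset.inter_subset_left).trans hF,
      Finset.inter_subset_right, ?_⟩
    refine (dA _ _ ?_).1 hF'
    intro i hi
    have hi' : i ∈ J := hi
    unfold opF
    by_cases h1 : i ∈ F <;> simp [h1, hi']
  have dB : DepOn (J : Set (Sym2 (ℤ × ℤ))) B := by
    have one : ∀ ω ω' : Sym2 (ℤ × ℤ) → Bool, (∀ i ∈ (J : Set (Sym2 (ℤ × ℤ))), ω i = ω' i) →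
        ω ∈ B → ω' ∈ B := by
      rintro ω ω' hω ⟨F, hF, hF'⟩
      refine ⟨F, hF, (dA _ _ ?_).1 hF'⟩
      intro i hi
      unfold opF
      by_cases h1 : i ∈ F <;> simp [h1, hω i hi]
    exact fun ω ω' hω => ⟨one ω ω' hω, one ω' ω fun i hi => (hω i hi).symm⟩
  rw [bm_real_eq_EE q hq dB, bm_real_eq_EE q' hq' dA, ← EE_mul, h]
  have hJl : J = J.toList.toFinset := by simp
  have hmono : Monotone (I1 (armE x n)) := by
    intro ω ω' hle
    by_cases h1 : ω ∈ armE x n
    · rw [I1_mem h1, I1_mem (armE_upper x n hle h1)]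
    · rw [I1_not h1]; exact I1_nonneg _ _
  have hk := key (q := (q : ℝ)) hε hε1 q.2 (by exact_mod_cast hq) J.toList J.nodup_toList
    (I1 (armE x n)) hmono (I1_nonneg _)
  rw [← hJl] at hk
  refine le_trans (EE_mono q.2 (by exact_mod_cast hq) fun ω => ?_) hk
  by_cases h1 : ω ∈ B
  · obtain ⟨F, hF, hFJ, hFA⟩ := restr ω h1
    have h2 := GG_ge hε J.toList (I1 (armE x n)) F (fun e he => by
      rw [Finset.mem_toList]; exact hFJ he) ω
    rw [I1_mem hFA, mul_one] at h2
    rw [I1_mem h1, mul_one]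
    exact (pow_le_pow_of_le_one hε hε1 hF).trans h2
  · rw [I1_not h1, mul_zero]
    exact GG_nonneg hε _ (I1_nonneg _) ω

theorem main : S_C1 := by
  intro q hq hqh
  set q' : NNReal := (q + 1 / 2) / 2 with hq'
  have hq'r : (q' : ℝ) = ((q : ℝ) + 1 / 2) / 2 := by
    rw [hq']; push_cast; ring
  have hq'h : (q' : ℝ) < 1 / 2 := by rw [hq'r]; linarith
  have hq'1 : q' ≤ 1 := by
    rw [← NNReal.coe_le_coe, NNReal.coe_one]; linarith
  have hq0 : (0 : ℝ) ≤ q := q.2
  set ε : ℝ := ((q' : ℝ) - q) / (1 - q) with hε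
  have h1q : (0 : ℝ) < 1 - q := by linarith
  have hε0 : 0 < ε := by
    rw [hε]; apply div_pos _ h1q; rw [hq'r]; linarith
  have hε1 : ε < 1 := by
    rw [hε, div_lt_one h1q]; linarith
  have heq : (q' : ℝ) = q + (1 - q) * ε := by
    rw [hε, mul_div_cancel₀ _ h1q.ne']; ring
  obtain ⟨K, c, hK, hc, hdec⟩ := exp_decay q' hq'1 hq'h
  set L : ℝ := -Real.log ε with hL
  have hL0 : 0 < L := by
    rw [hL]; have := Real.log_neg hε0 hε1; linarith
  refine ⟨c / (2 * L), K, c / 2, by positivity, hK, by positivity, fun x n => ?_⟩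
  set m : ℕ := ⌊c / (2 * L) * n⌋₊ with hm
  have hmle : (m : ℝ) ≤ c / (2 * L) * n := Nat.floor_le (by positivity)
  have hset : {ω | ∃ F : Finset (Sym2 (ℤ × ℤ)), (F.card : ℝ) ≤ c / (2 * L) * n ∧
      opF ω F ∈ armE x n} = {ω | ∃ F : Finset (Sym2 (ℤ × ℤ)), F.card ≤ m ∧
      opF ω F ∈ armE x n} := by
    ext ω
    constructor
    · rintro ⟨F, hF, hF'⟩
      exact ⟨F, Nat.le_floor hF, hF'⟩
    · rintro ⟨F, hF, hF'⟩
      exact ⟨F, le_trans (by exact_mod_cast hF) hmle, hF'⟩
  rw [hset]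
  have hs := sprinkle hq hq'1 hε0.le hε1.le heq x n m
  rw [show (mu q' hq'1).real (armE x n) = th q' hq'1 n from arm_eq q' hq'1 x n] at hs
  have hpow : Real.exp (-(c / 2) * n) ≤ ε ^ m := by
    have e1 : ε ^ m = Real.exp (m * Real.log ε) := by
      rw [mul_comm, Real.exp_mul, Real.exp_log hε0, Real.rpow_natCast]
    rw [e1]
    apply Real.exp_le_exp.2
    have e2 : Real.log ε = -L := by rw [hL]; ring
    rw [e2]
    have e3 : (m : ℝ) * L ≤ c / (2 * L) * n * L := mul_le_mul_of_nonneg_right hmle hL0.le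
    have e4 : c / (2 * L) * n * L = c / 2 * n := by field_simp
    rw [e4] at e3
    linarith
  set P := (mu q hq).real {ω | ∃ F : Finset (Sym2 (ℤ × ℤ)), F.card ≤ m ∧
      opF ω F ∈ armE x n} with hP
  have hP0 : 0 ≤ P := measureReal_nonneg
  have h3 : Real.exp (-(c / 2) * n) * P ≤ K * Real.exp (-c * n) :=
    (mul_le_mul_of_nonneg_right hpow hP0).trans (hs.trans (hdec n))
  have h4 : Real.exp (-c * n) = Real.exp (-(c / 2) * n) * Real.exp (-(c / 2) * n) := by
    rw [← Real.exp_add]; congr 1; ring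
  rw [h4] at h3
  have h5 : Real.exp (-(c / 2) * n) * P ≤ Real.exp (-(c / 2) * n) * (K * Real.exp (-(c / 2) * n)) := by
    calc _ ≤ _ := h3
      _ = _ := by ring
  exact le_of_mul_le_mul_left h5 (Real.exp_pos _)

end Pool.Agent.W826.UCC1
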