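import Mathlib
import Pool.Agent.W886.VL.Stm

/-! VL-DEF: definability by `NF`-formulas with finitely supported parameters. -/

namespace Pool.Agent.W826.VLDef

open SOCat (Fml cons)
open Pool.Agent.W886.VL

/-- translation; the variable bound at depth `d` gets the name `2 d + 1` -/
def tr : Fml → (ℕ → ℕ) → ℕ → NF
  | .mem i j, g, _ => .mem (g i) (g j)
  | .eq i j, g, _ => .eq (g i) (g j)
  | .neg φ, g, d => .neg (tr φ g d)
  | .and φ ψ, g, d => .and (tr φ g d) (tr ψ g d)
  | .all φ, g, d => .all (2 * d + 1) (tr φ (cons (2 * d + 1) g) (d + 1))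

theorem tr_sat (A : ZFSet.{0}) (φ : Fml) : ∀ (g : ℕ → ℕ) (d : ℕ),
    (∀ n e, d ≤ e → g n ≠ 2 * e + 1) → ∀ w : ℕ → ZFSet.{0},
    (NSat A (tr φ g d) w ↔ Sat A φ (fun n => w (g n))) := by
  induction φ with
  | mem i j => intro g d _ w; rfl
  | eq i j => intro g d _ w; rfl
  | neg φ ih =>
    intro g d hg w
    show ¬ NSat A (tr φ g d) w ↔ ¬ Sat A φ _
    rw [ih g d hg w]
  | and φ ψ ih1 ih2 =>
    intro g d hg w
    show NSat A (tr φ g d) w ∧ NSat A (tr ψ g d) w ↔ Sat A φ _ ∧ Sat A ψ _
    rw [ih1 g d hg w, ih2 g d hg w]
  | all φ ih =>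
    intro g d hg w
    show (∀ a ∈ A, NSat A (tr φ (cons (2 * d + 1) g) (d + 1)) (Function.update w (2 * d + 1) a)) ↔
      ∀ a ∈ A, Sat A φ (cons a (fun n => w (g n)))
    refine forall_congr' fun a => forall_congr' fun _ => ?_
    rw [ih (cons (2 * d + 1) g) (d + 1)]
    · have : (fun n => Function.update w (2 * d + 1) a (cons (2 * d + 1) g n)) =
          cons a (fun n => w (g n)) := by
        funext n
        cases n with
        | zero =>
          show Function.update w (2 * d + 1) a (2 * d + 1) = a
          simp
        | succ n =>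
          show Function.update w (2 * d + 1) a (g n) = w (g n)
          rw [Function.update_of_ne (hg n d le_rfl)]
      rw [this]
    · intro n e he
      cases n with
      | zero =>
        show 2 * d + 1 ≠ 2 * e + 1
        omega
      | succ n =>
        show g n ≠ 2 * e + 1
        exact hg n e (by omega)

theorem fin_dep (φ : Fml) : ∃ N : ℕ, ∀ (A : ZFSet.{0}) (v w : ℕ → ZFSet.{0}),
    (∀ n, n < N → v n = w n) → (Sat A φ v ↔ Sat A φ w) := by
  induction φ with
  | mem i j =>
    refine ⟨max i j + 1, fun A v w h => ?_⟩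
    show v i ∈ v j ↔ w i ∈ w j
    rw [h i (by omega), h j (by omega)]
  | eq i j =>
    refine ⟨max i j + 1, fun A v w h => ?_⟩
    show v i = v j ↔ w i = w j
    rw [h i (by omega), h j (by omega)]
  | neg φ ih =>
    obtain ⟨N, hN⟩ := ih
    exact ⟨N, fun A v w h => not_congr (hN A v w h)⟩
  | and φ ψ ih1 ih2 =>
    obtain ⟨N, hN⟩ := ih1
    obtain ⟨M, hM⟩ := ih2
    exact ⟨max N M, fun A v w h => and_congr (hN A v w fun n hn => h n (by omega))
      (hM A v w fun n hn => h n (by omega))⟩
  | all φ ih =>
    obtain ⟨N, hN⟩ := ih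
    refine ⟨N, fun A v w h => ?_⟩
    refine forall_congr' fun a => forall_congr' fun _ => ?_
    apply hN
    intro n hn
    cases n with
    | zero => rfl
    | succ n => exact h n (by omega)

theorem task (h : T_NS) : T_DEF := by
  intro y hy h0 x
  constructor
  · intro hx
    unfold Def at hx
    rw [ZFSet.mem_sep, ZFSet.mem_powerset] at hx
    obtain ⟨hxy, hx⟩ := hx
    rcases hx with rfl | ⟨φ, v, hv, hφ⟩
    · refine ⟨.neg (.eq 0 0), fun _ => ∅, ⟨fun _ => h0, 0, fun _ _ => rfl⟩, hxy, ?_⟩
      intro a _
      constructor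
      · intro ha
        exact absurd ha (ZFSet.notMem_empty a)
      · intro ha
        exact absurd rfl ha
    · obtain ⟨N, hN⟩ := fin_dep φ
      set v' : ℕ → ZFSet.{0} := fun n => if n < N then v n else ∅ with hv'
      have hv'm : ∀ n, v' n ∈ y := by
        intro n
        simp only [hv']
        split_ifs
        · exact hv n
        · exact h0
      set s : ℕ → ZFSet.{0} := fun m => if m % 2 = 0 then cons ∅ v' (m / 2) else ∅ with hs
      refine ⟨tr φ (fun n => 2 * n) 0, s, ⟨?_, 2 * N + 2, ?_⟩, hxy, ?_⟩
      · intro m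
        simp only [hs]
        split_ifs
        · cases m / 2 with
          | zero => exact h0
          | succ k => exact hv'm k
        · exact h0
      · intro m hm
        simp only [hs]
        split_ifs with h1
        · obtain ⟨k, hk⟩ : ∃ k, m / 2 = k + 1 := ⟨m / 2 - 1, by omega⟩
          rw [hk]
          show v' k = ∅
          simp only [hv']
          rw [if_neg (by omega)]
        · rfl
      · intro a ha
        rw [hφ a ha, tr_sat y φ (fun n => 2 * n) 0 (fun n e _ => by omega)]
        apply hN
        intro n hn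
        cases n with
        | zero =>
          show a = Function.update s 0 a (2 * 0)
          simp
        | succ n =>
          show v n = Function.update s 0 a (2 * (n + 1))
          rw [Function.update_of_ne (by omega)]
          simp only [hs]
          rw [if_pos (by omega)]
          have e : 2 * (n + 1) / 2 = n + 1 := by omega
          rw [e]
          show v n = v' n
          simp only [hv']
          rw [if_pos (by omega)]
  · rintro ⟨φ, s, ⟨hs, -⟩, hxy, hx⟩
    unfold Def
    rw [ZFSet.mem_sep, ZFSet.mem_powerset]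
    refine ⟨hxy, Or.inr ?_⟩
    obtain ⟨ψ, hψ⟩ := h φ
    refine ⟨ψ, fun n => s (n + 1), fun n => hs _, ?_⟩
    intro a ha
    rw [hx a ha]
    have e : Function.update s 0 a = cons a (fun n => s (n + 1)) := by
      funext n
      cases n with
      | zero => simp; rfl
      | succ n => rw [Function.update_of_ne (by omega)]; rfl
    rw [e, hψ y hy]
    intro n
    cases n with
    | zero => exact ha
    | succ n => exact hs _

end Pool.Agent.W826.VLDef
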