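import Mathlib
import Pool.Agent.W886.VL.Stm

/-! VL-KS2, part 1: set-level definability, nodes, second-order definability. -/

set_option autoImplicit false
set_option linter.all false

namespace Pool.Agent.W826.VLKs2

open SOCat (Fml cons SO Str Asg Voc Asg.upd)
open Pool.Agent.W886.VL
open ZFSet (pair omega)

/-! ### the sets coded by nodes -/

theorem mem_mos {M : Type} {E : M → M → Prop} (h : WellFounded E) {t : M} {w : ZFSet.{0}} :
    w ∈ mos E t ↔ ∃ s, E s t ∧ mos E s = w := by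
  unfold mos
  rw [dif_pos h, WellFounded.fix_eq, ZFSet.mem_range]
  constructor
  · rintro ⟨⟨s, hs⟩, h1⟩
    refine ⟨s, hs, ?_⟩
    rw [dif_pos h]
    exact h1
  · rintro ⟨s, hs, h1⟩
    refine ⟨⟨s, hs⟩, ?_⟩
    rw [dif_pos h] at h1
    exact h1

theorem mos_mem_HH {M : Type} (E : M → M → Prop) (t : M) : mos E t ∈ HH M := by
  unfold HH
  rw [ZFSet.mem_range]
  exact ⟨(E, t), rfl⟩

/-- every component of a pair in a coded set is coded -/
theorem node_of_mem {M : Type} {E : M → M → Prop} (h : WellFounded E) {t : M} {w : ZFSet.{0}}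
    (hw : w ∈ mos E t) : ∃ s, mos E s = w := by
  obtain ⟨s, -, hs⟩ := (mem_mos h).1 hw
  exact ⟨s, hs⟩

theorem up_mem_pair (x y : ZFSet.{0}) : ({x, y} : ZFSet.{0}) ∈ pair x y := by
  unfold ZFSet.pair
  exact ZFSet.mem_pair.2 (Or.inr rfl)

theorem node_of_pair {M : Type} {E : M → M → Prop} (h : WellFounded E) {t : M} {x y : ZFSet.{0}}
    (hw : pair x y ∈ mos E t) : ∃ s, mos E s = y := by
  obtain ⟨s, hs⟩ := node_of_mem h hw
  have h1 : ({x, y} : ZFSet.{0}) ∈ mos E s := by rw [hs]; exact up_mem_pair x y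
  obtain ⟨s', hs'⟩ := node_of_mem h h1
  have h2 : y ∈ mos E s' := by rw [hs']; exact ZFSet.mem_pair.2 (Or.inr rfl)
  exact node_of_mem h h2

theorem snd_mem {A b x y : ZFSet.{0}} (hA : A.IsTransitive) (hb : b ∈ A) (h : pair x y ∈ b) :
    y ∈ A := by
  have h1 : pair x y ∈ A := hA _ hb h
  have h2 : ({x, y} : ZFSet.{0}) ∈ A := hA _ h1 (up_mem_pair x y)
  exact hA _ h2 (ZFSet.mem_pair.2 (Or.inr rfl))

theorem num_mem {A : ZFSet.{0}} (hA : Base A) (m : ℕ) : num m ∈ A :=
  hA.tr _ hA.om (num_mem_omega m)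

/-! ### definability of the needed relations -/

/-- `u 1 ∈ b(m)`, `b = u 0` -/
theorem D_mem (m : ℕ) : Dfn Base (fun _ u => ∃ X, pair (num m) X ∈ u 0 ∧ u 1 ∈ X) :=
  ((((d_num m 0).and ((d_app 0 1 2).and (Dfn.mem 3 1))).ex).ex).congr fun A hA v hv => by
    show (∃ X ∈ A, ∃ c ∈ A, c = num m ∧ pair c X ∈ v 0 ∧ v 1 ∈ X) ↔ _
    constructor
    · rintro ⟨X, -, c, -, rfl, h1, h2⟩
      exact ⟨X, h1, h2⟩
    · rintro ⟨X, h1, h2⟩
      exact ⟨X, snd_mem hA.tr (hv 0) h1, num m, num_mem hA m, rfl, h1, h2⟩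

/-- `(num j, v x) ∈ v i` -/
theorem d_numapp (j x i : ℕ) : Dfn Base (fun _ v => pair (num j) (v x) ∈ v i) :=
  (((d_num j 0).and (d_app 0 (x + 1) (i + 1))).ex).congr fun A hA v hv => by
    show (∃ c ∈ A, c = num j ∧ pair c (v x) ∈ v i) ↔ _
    constructor
    · rintro ⟨c, -, rfl, h⟩; exact h
    · intro h; exact ⟨num j, num_mem hA j, rfl, h⟩

/-- `v i = (num j, v x)` -/
theorem d_numpair (i j x : ℕ) : Dfn Base (fun _ v => v i = pair (num j) (v x)) :=
  (((d_num j 0).and (d_pair (i + 1) 0 (x + 1))).ex).congr fun A hA v hv => by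
    show (∃ c ∈ A, c = num j ∧ v i = pair c (v x)) ↔ _
    constructor
    · rintro ⟨c, -, rfl, h⟩; exact h
    · intro h; exact ⟨num j, num_mem hA j, rfl, h⟩

/-- `v i = ⟨v x : x ∈ is⟩` -/
theorem d_tup (i : ℕ) (is : List ℕ) : Dfn Base (fun _ v => v i = tupZ (is.map v)) :=
  ((Dfn.allFin (n := is.length) (fun j => d_numapp j.1 (is.get j) i)).and
    ((Dfn.exFin (n := is.length) (fun j => d_numpair 0 j.1 (is.get j + 1))).allB i)).congr
    fun A hA v hv => by
    show ((∀ j : Fin is.length, pair (num j.1) (v (is.get j)) ∈ v i) ∧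
      ∀ q ∈ v i, ∃ j : Fin is.length, q = pair (num j.1) (v (is.get j))) ↔ _
    constructor
    · rintro ⟨h1, h2⟩
      ext q
      rw [mem_tupZ]
      constructor
      · intro hq
        obtain ⟨j, hj⟩ := h2 q hq
        exact ⟨⟨j.1, by simp⟩, by rw [hj]; simp⟩
      · rintro ⟨k, hk⟩
        have hk' : k.1 < is.length := by simpa using k.2
        have := h1 ⟨k.1, hk'⟩
        rw [hk]
        simpa using this
    · intro h
      rw [h]
      constructor
      · intro j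
        rw [mem_tupZ]
        exact ⟨⟨j.1, by simp⟩, by simp⟩
      · intro q hq
        rw [mem_tupZ] at hq
        obtain ⟨k, hk⟩ := hq
        have hk' : k.1 < is.length := by simpa using k.2
        exact ⟨⟨k.1, hk'⟩, by rw [hk]; simp⟩

/-- `⟨u x : x ∈ is⟩ ∈ b(m)`, `b = u 0` -/
theorem D_tup (m : ℕ) (is : List ℕ) :
    Dfn Base (fun _ u => ∃ X, pair (num m) X ∈ u 0 ∧ tupZ (is.map u) ∈ X) :=
  ((((d_numapp m 1 2).and ((Dfn.mem 0 1).and (d_tup 0 (is.map (fun x => x + 2))))).ex).ex).congr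
    fun A hA v hv => by
    have e : ∀ X p : ZFSet.{0}, (is.map (fun x => x + 2)).map (cons p (cons X v)) = is.map v := by
      intro X p
      rw [List.map_map]
      rfl
    show (∃ X ∈ A, ∃ p ∈ A, pair (num m) X ∈ v 0 ∧ p ∈ X ∧
      p = tupZ ((is.map (fun x => x + 2)).map (cons p (cons X v)))) ↔ _
    constructor
    · rintro ⟨X, -, p, -, h1, h2, h3⟩
      rw [e] at h3
      exact ⟨X, h1, h3 ▸ h2⟩
    · rintro ⟨X, h1, h2⟩
      have hX : X ∈ A := snd_mem hA.tr (hv 0) h1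
      refine ⟨X, hX, _, hA.tr _ hX h2, h1, h2, ?_⟩
      rw [e]

/-- `b` is a function with domain `ω` with the prescribed empty values -/
def IsF (N : ℕ) (b : ZFSet.{0}) : Prop :=
  ∃ s : ℕ → ZFSet.{0}, b = fnZ s ∧ ∀ n, (∀ k, k ≤ N → n ≠ 3 * k) → s n = ∅

theorem D_fn (N : ℕ) : Dfn Base (fun _ u => IsF N (u 0)) :=
  (((((d_pair 2 1 0).ex).exOm).allB 0).and
    ((((d_app 1 0 2).ex).allOm).and
    (((((((d_app 2 1 3).imp ((d_app 2 0 3).imp (Dfn.eq 1 0))).all).all).allOm)).and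
    (((Dfn.allFin (n := N + 1) (fun k => (d_num (3 * k.1) 0).not)).imp
      (((d_app 1 0 2).imp (d_emp 0)).all)).allOm)))).congr
    fun A hA v hv => by
    show ((∀ q ∈ v 0, ∃ m : ℕ, ∃ X ∈ A, q = pair (num m) X) ∧
      (∀ m : ℕ, ∃ X ∈ A, pair (num m) X ∈ v 0) ∧
      (∀ m : ℕ, ∀ X ∈ A, ∀ X' ∈ A, pair (num m) X ∈ v 0 → pair (num m) X' ∈ v 0 → X = X') ∧
      (∀ m : ℕ, (∀ k : Fin (N + 1), ¬ num m = num (3 * k.1)) → ∀ X ∈ A,
        pair (num m) X ∈ v 0 → X = ∅)) ↔ _
    constructor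
    · rintro ⟨ha, hb, hc, hd⟩
      choose s hs hs' using hb
      refine ⟨s, ?_, ?_⟩
      · ext q
        rw [mem_fnZ]
        constructor
        · intro hq
          obtain ⟨m, X, hX, rfl⟩ := ha q hq
          exact ⟨m, by rw [hc m X hX (s m) (hs m) hq (hs' m)]⟩
        · rintro ⟨m, rfl⟩
          exact hs' m
      · intro m hm
        refine hd m (fun k hk => ?_) (s m) (hs m) (hs' m)
        exact hm k.1 (by have := k.2; omega) (num_inj.1 hk)
    · rintro ⟨s, hs, hs'⟩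
      have hmem : ∀ m, pair (num m) (s m) ∈ v 0 := fun m => by rw [hs]; exact pair_mem_fnZ.2 rfl
      have hA' : ∀ m, s m ∈ A := fun m => snd_mem hA.tr (hv 0) (hmem m)
      refine ⟨?_, fun m => ⟨s m, hA' m, hmem m⟩, ?_, ?_⟩
      · intro q hq
        rw [hs, mem_fnZ] at hq
        obtain ⟨m, rfl⟩ := hq
        exact ⟨m, s m, hA' m, rfl⟩
      · intro m X _ X' _ h1 h2
        rw [hs, pair_mem_fnZ] at h1 h2
        rw [h1, h2]
      · intro m hm X _ h1
        rw [hs, pair_mem_fnZ] at h1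
        rw [h1]
        refine hs' m fun k hk he => ?_
        exact hm ⟨k, by omega⟩ (by rw [he])

/-! ### second-order definability -/

/-- `Q` is definable by a second-order formula, for the assignments with a well-founded value of
the variable `(2, n)` -/
def SD (τ : Voc) (n : ℕ)
    (Q : ∀ (M : Type) [Infinite M], Str τ M → (ℕ → M) → Asg M → Prop) : Prop :=
  ∃ ψ : SO τ, ∀ (M : Type) [Infinite M] (S : Str τ M) (v : ℕ → M) (W : Asg M),
    WellFounded (rl W n) → (ψ.Sat S v W ↔ Q M S v W)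

namespace SD

variable {τ : Voc} {n : ℕ}
  {P Q : ∀ (M : Type) [Infinite M], Str τ M → (ℕ → M) → Asg M → Prop}

theorem congr (h : SD τ n P) (hPQ : ∀ (M : Type) [Infinite M] (S : Str τ M) (v : ℕ → M)
    (W : Asg M), WellFounded (rl W n) → (P M S v W ↔ Q M S v W)) : SD τ n Q := by
  obtain ⟨ψ, hψ⟩ := h
  exact ⟨ψ, fun M _ S v W hW => (hψ M S v W hW).trans (hPQ M S v W hW)⟩

theorem not (h : SD τ n P) : SD τ n (fun M _ S v W => ¬ P M S v W) := by
  obtain ⟨ψ, hψ⟩ := h
  exact ⟨.neg ψ, fun M _ S v W hW => not_congr (hψ M S v W hW)⟩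

theorem and (h : SD τ n P) (h' : SD τ n Q) :
    SD τ n (fun M _ S v W => P M S v W ∧ Q M S v W) := by
  obtain ⟨ψ, hψ⟩ := h
  obtain ⟨χ, hχ⟩ := h'
  exact ⟨.and ψ χ, fun M _ S v W hW => and_congr (hψ M S v W hW) (hχ M S v W hW)⟩

theorem imp (h : SD τ n P) (h' : SD τ n Q) :
    SD τ n (fun M _ S v W => P M S v W → Q M S v W) :=
  ((h.and h'.not).not).congr fun M _ S v W _ => by tauto

theorem iff (h : SD τ n P) (h' : SD τ n Q) :
    SD τ n (fun M _ S v W => (P M S v W ↔ Q M S v W)) :=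
  ((h.imp h').and (h'.imp h)).congr fun M _ S v W _ => by tauto

theorem all (x : ℕ) (h : SD τ n P) :
    SD τ n (fun M _ S v W => ∀ m : M, P M S (Function.update v x m) W) := by
  obtain ⟨ψ, hψ⟩ := h
  exact ⟨.all x ψ, fun M _ S v W hW => forall_congr' fun m => hψ M S _ W hW⟩

theorem eq (x y : ℕ) : SD τ n (fun M _ S v W => v x = v y) :=
  ⟨.eq x y, fun _ _ _ _ _ _ => Iff.rfl⟩

theorem tru : SD τ n (fun M _ S v W => True) :=
  (eq 0 0).congr fun _ _ _ _ _ _ => by simp

theorem rel (R : Fin τ.nR) (xs : Fin (τ.aR R) → ℕ) :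
    SD τ n (fun M _ S v W => S.rel R (fun k => v (xs k))) :=
  ⟨.rel R xs, fun _ _ _ _ _ _ => Iff.rfl⟩

theorem fn (f : Fin τ.nF) (xs : Fin (τ.aF f) → ℕ) (y : ℕ) :
    SD τ n (fun M _ S v W => S.fn f (fun k => v (xs k)) = v y) :=
  ⟨.fn f xs y, fun _ _ _ _ _ _ => Iff.rfl⟩

theorem G (n' x y : ℕ) : SD τ n (fun M _ S v W => rl W n' (v x) (v y)) :=
  ⟨.var 2 n' ![x, y], fun M _ S v W _ => by
    show W 2 n' (fun k => v (![x, y] k)) ↔ W 2 n' ![v x, v y]
    have : (fun k => v ((![x, y] : Fin 2 → ℕ) k)) = ![v x, v y] := by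
      funext k
      fin_cases k <;> rfl
    rw [this]⟩

theorem rl_upd {M : Type} (W : Asg M) {n n' : ℕ} (h : n ≠ n') (A : (Fin 2 → M) → Prop) :
    rl (W.upd 2 n' A) n = rl W n := by
  funext a b
  unfold rl Asg.upd
  rw [Function.update_self, Function.update_of_ne h]

theorem rl_upd_self {M : Type} (W : Asg M) (n' : ℕ) (A : (Fin 2 → M) → Prop) (a b : M) :
    rl (W.upd 2 n' A) n' a b = A ![a, b] := by
  unfold rl Asg.upd
  rw [Function.update_self, Function.update_self]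

theorem exG {n' : ℕ} (hn : n ≠ n') (h : SD τ n P) :
    SD τ n (fun M _ S v W => ∃ A : (Fin 2 → M) → Prop, P M S v (W.upd 2 n' A)) := by
  obtain ⟨ψ, hψ⟩ := h
  refine ⟨.neg (.allR 2 n' (.neg ψ)), fun M _ S v W hW => ?_⟩
  show ¬ (∀ A : (Fin 2 → M) → Prop, ¬ ψ.Sat S v (W.upd 2 n' A)) ↔ _
  push Not
  refine exists_congr fun A => hψ M S v _ ?_
  rw [rl_upd W hn]
  exact hW

theorem allFin {m : ℕ} {P : Fin m → ∀ (M : Type) [Infinite M], Str τ M → (ℕ → M) → Asg M → Prop}
    (h : ∀ i, SD τ n (P i)) : SD τ n (fun M _ S v W => ∀ i, P i M S v W) := by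
  induction m with
  | zero => exact tru.congr fun _ _ _ _ _ _ => by simp
  | succ m ih =>
    exact ((h 0).and (ih fun i => h i.succ)).congr fun M _ S v W _ => by
      rw [Fin.forall_fin_succ]

end SD

/-- change the values at `c, c+1, ..., c+r-1` -/
def updB {M : Type} (v : ℕ → M) (c : ℕ) {r : ℕ} (xs : Fin r → M) : ℕ → M := fun j =>
  if h : c ≤ j ∧ j < c + r then xs ⟨j - c, by omega⟩ else v j

theorem updB_in {M : Type} (v : ℕ → M) (c : ℕ) {r : ℕ} (xs : Fin r → M) (i : Fin r) :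
    updB v c xs (c + i.1) = xs i := by
  unfold updB
  rw [dif_pos ⟨by omega, by have := i.2; omega⟩]
  congr 1
  apply Fin.ext
  show c + i.1 - c = i.1
  omega

theorem updB_out {M : Type} (v : ℕ → M) (c : ℕ) {r : ℕ} (xs : Fin r → M) {j : ℕ}
    (h : j < c ∨ c + r ≤ j) : updB v c xs j = v j := by
  unfold updB
  rw [dif_neg (by omega)]

theorem updB_succ {M : Type} (v : ℕ → M) (c : ℕ) {r : ℕ} (xs : Fin (r + 1) → M) :
    updB v c xs = updB (Function.update v c (xs 0)) (c + 1) (fun i : Fin r => xs i.succ) := by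
  funext j
  by_cases h1 : j = c
  · subst h1
    have e1 : updB v j xs (j + (0 : Fin (r + 1)).1) = xs 0 := updB_in v j xs 0
    rw [Fin.val_zero, add_zero] at e1
    rw [e1, updB_out _ _ _ (by omega), Function.update_self]
  · by_cases h2 : c < j ∧ j < c + (r + 1)
    · obtain ⟨i, hi⟩ : ∃ i : Fin r, j = c + 1 + i.1 := ⟨⟨j - (c + 1), by omega⟩, by
        show j = c + 1 + (j - (c + 1)); omega⟩
      rw [hi, updB_in]
      have e : c + 1 + i.1 = c + (i.succ).1 := by
        rw [Fin.val_succ]; omega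
      rw [e, updB_in]
    · rw [updB_out _ _ _ (by omega), updB_out _ _ _ (by omega), Function.update_of_ne h1]

theorem SD.allB {τ : Voc} {n : ℕ} (r : ℕ) :
    ∀ (c : ℕ) {P : ∀ (M : Type) [Infinite M], Str τ M → (ℕ → M) → Asg M → Prop}, SD τ n P →
    SD τ n (fun M _ S v W => ∀ xs : Fin r → M, P M S (updB v c xs) W) := by
  induction r with
  | zero =>
    intro c P h
    refine h.congr fun M _ S v W _ => ?_
    have e : ∀ xs : Fin 0 → M, updB v c xs = v := by
      intro xs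
      funext j
      exact updB_out _ _ _ (by omega)
    constructor
    · intro h1 xs
      rw [e]; exact h1
    · intro h1
      have := h1 Fin.elim0
      rwa [e] at this
  | succ r ih =>
    intro c P h
    refine (SD.all c (ih (c + 1) h)).congr fun M _ S v W _ => ?_
    constructor
    · intro h1 xs
      rw [updB_succ]
      exact h1 _ _
    · intro h1 m tl
      have := h1 (Fin.cons m tl)
      rw [updB_succ] at this
      exact this

theorem SD.exB {τ : Voc} {n : ℕ} (r c : ℕ)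
    {P : ∀ (M : Type) [Infinite M], Str τ M → (ℕ → M) → Asg M → Prop} (h : SD τ n P) :
    SD τ n (fun M _ S v W => ∃ xs : Fin r → M, P M S (updB v c xs) W) :=
  ((h.not.allB r c).not).congr fun M _ S v W _ => by push Not; rfl

/-- the sets coded by the nodes `v j`, `j ∈ js` (and `∅` beyond the end of the list) -/
noncomputable def nd {M : Type} (E : M → M → Prop) (v : ℕ → M) (js : List ℕ) : ℕ → ZFSet.{0} :=
  fun i => (js[i]?).elim ∅ (fun j => mos E (v j))

/-- properties of coded sets -/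
theorem SD.set (h1 : T_KS1) (h2 : T_HH) {τ : Voc} {n : ℕ} (js : List ℕ)
    {P : ZFSet.{0} → (ℕ → ZFSet.{0}) → Prop} (hP : Dfn Base P) :
    SD τ n (fun M _ S v W => P (HH M) (nd (rl W n) v js)) := by
  obtain ⟨φ, hφ⟩ := hP
  obtain ⟨d, hd⟩ : ∃ d, ∀ j ∈ js, j < d := by
    induction js with
    | nil => exact ⟨0, by simp⟩
    | cons a l ih =>
      obtain ⟨d, hd⟩ := ih
      refine ⟨max d (a + 1), ?_⟩
      intro j hj
      rcases List.mem_cons.1 hj with h | h
      · omega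
      · have := hd j h; omega
  obtain ⟨ψ, hψ⟩ := h1 τ φ (max d (n + 1)) (fun i => (js[i]?).map (fun j => (n, j))) (by
    intro i p hp
    rw [Option.map_eq_some_iff] at hp
    obtain ⟨j, hj, rfl⟩ := hp
    have := hd j (List.mem_of_getElem? hj)
    exact ⟨by show n < _; omega, by show j < _; omega⟩)
  refine ⟨ψ, fun M _ S v W hW => ?_⟩
  have e : envZ (fun i => (js[i]?).map (fun j => (n, j))) v W = nd (rl W n) v js := by
    funext i
    unfold envZ nd
    beta_reduce
    cases js[i]? with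
    | none => rfl
    | some j => rfl
  rw [hψ M S v W (by
    intro i p hp
    rw [Option.map_eq_some_iff] at hp
    obtain ⟨j, hj, rfl⟩ := hp
    exact hW), e]
  refine hφ (HH M) (h2.base M) _ ?_
  intro i
  unfold nd
  cases js[i]? with
  | none =>
    exact num_mem (h2.base M) 0
  | some j => exact mos_mem_HH _ _

end Pool.Agent.W826.VLKs2
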