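import Mathlib
import Pool.Agent.W826.VLKs2a

/-! VL-KS1. -/

set_option autoImplicit false
set_option linter.all false

namespace Pool.Agent.W826.VLKs1

open SOCat (Fml cons SO Str Asg Voc Asg.upd)
open Pool.Agent.W886.VL
open Pool.Agent.W826.VLKs2
open ZFSet (pair omega)

/-- `Q` is definable by a second-order formula, for the assignments with well-founded values of
the variables `(2, n)`, `n ∈ w` -/
def SE (τ : Voc) (w : Set ℕ)
    (Q : ∀ (M : Type) [Infinite M], Str τ M → (ℕ → M) → Asg M → Prop) : Prop :=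
  ∃ ψ : SO τ, ∀ (M : Type) [Infinite M] (S : Str τ M) (v : ℕ → M) (W : Asg M),
    (∀ n ∈ w, WellFounded (rl W n)) → (ψ.Sat S v W ↔ Q M S v W)

namespace SE

variable {τ : Voc} {w : Set ℕ}
  {P Q : ∀ (M : Type) [Infinite M], Str τ M → (ℕ → M) → Asg M → Prop}

theorem mono (h : SE τ w P) {w' : Set ℕ} (hw : w ⊆ w') : SE τ w' P := by
  obtain ⟨ψ, hψ⟩ := h
  exact ⟨ψ, fun M _ S v W hW => hψ M S v W fun n hn => hW n (hw hn)⟩

theorem congr (h : SE τ w P) (hPQ : ∀ (M : Type) [Infinite M] (S : Str τ M) (v : ℕ → M)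
    (W : Asg M), (∀ n ∈ w, WellFounded (rl W n)) → (P M S v W ↔ Q M S v W)) : SE τ w Q := by
  obtain ⟨ψ, hψ⟩ := h
  exact ⟨ψ, fun M _ S v W hW => (hψ M S v W hW).trans (hPQ M S v W hW)⟩

theorem not (h : SE τ w P) : SE τ w (fun M _ S v W => ¬ P M S v W) := by
  obtain ⟨ψ, hψ⟩ := h
  exact ⟨.neg ψ, fun M _ S v W hW => not_congr (hψ M S v W hW)⟩

theorem and (h : SE τ w P) (h' : SE τ w Q) :
    SE τ w (fun M _ S v W => P M S v W ∧ Q M S v W) := by
  obtain ⟨ψ, hψ⟩ := h
  obtain ⟨χ, hχ⟩ := h'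
  exact ⟨.and ψ χ, fun M _ S v W hW => and_congr (hψ M S v W hW) (hχ M S v W hW)⟩

theorem imp (h : SE τ w P) (h' : SE τ w Q) :
    SE τ w (fun M _ S v W => P M S v W → Q M S v W) :=
  ((h.and h'.not).not).congr fun M _ S v W _ => by tauto

theorem iff (h : SE τ w P) (h' : SE τ w Q) :
    SE τ w (fun M _ S v W => (P M S v W ↔ Q M S v W)) :=
  ((h.imp h').and (h'.imp h)).congr fun M _ S v W _ => by tauto

theorem all (x : ℕ) (h : SE τ w P) :
    SE τ w (fun M _ S v W => ∀ m : M, P M S (Function.update v x m) W) := by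
  obtain ⟨ψ, hψ⟩ := h
  exact ⟨.all x ψ, fun M _ S v W hW => forall_congr' fun m => hψ M S _ W hW⟩

theorem eq (x y : ℕ) : SE τ w (fun M _ S v W => v x = v y) :=
  ⟨.eq x y, fun _ _ _ _ _ _ => Iff.rfl⟩

theorem tru : SE τ w (fun M _ S v W => True) :=
  (eq 0 0).congr fun _ _ _ _ _ _ => by simp

theorem G (n' x y : ℕ) : SE τ w (fun M _ S v W => rl W n' (v x) (v y)) :=
  ⟨.var 2 n' ![x, y], fun M _ S v W _ => by
    show W 2 n' (fun k => v (![x, y] k)) ↔ W 2 n' ![v x, v y]
    have : (fun k => v ((![x, y] : Fin 2 → ℕ) k)) = ![v x, v y] := by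
      funext k
      fin_cases k <;> rfl
    rw [this]⟩

theorem exG {n' : ℕ} (hn : n' ∉ w) (h : SE τ w P) :
    SE τ w (fun M _ S v W => ∃ A : (Fin 2 → M) → Prop, P M S v (W.upd 2 n' A)) := by
  obtain ⟨ψ, hψ⟩ := h
  refine ⟨.neg (.allR 2 n' (.neg ψ)), fun M _ S v W hW => ?_⟩
  show ¬ (∀ A : (Fin 2 → M) → Prop, ¬ ψ.Sat S v (W.upd 2 n' A)) ↔ _
  push Not
  refine exists_congr fun A => hψ M S v _ ?_
  intro n hnw
  have hne : n ≠ n' := fun h => hn (h ▸ hnw)
  rw [SD.rl_upd W hne]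
  exact hW n hnw

theorem allB (r : ℕ) :
    ∀ (c : ℕ) {P : ∀ (M : Type) [Infinite M], Str τ M → (ℕ → M) → Asg M → Prop}, SE τ w P →
    SE τ w (fun M _ S v W => ∀ xs : Fin r → M, P M S (updB v c xs) W) := by
  induction r with
  | zero =>
    intro c P h
    refine h.congr fun M _ S v W _ => ?_
    have e : ∀ xs : Fin 0 → M, updB v c xs = v := by
      intro xs
      funext j
      exact updB_out _ _ _ (by omega)
    constructor
    · intro h1 xs
      rw [e]; exact h1
    · intro h1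
      have := h1 Fin.elim0
      rwa [e] at this
  | succ r ih =>
    intro c P h
    refine (SE.all c (ih (c + 1) h)).congr fun M _ S v W _ => ?_
    constructor
    · intro h1 xs
      rw [updB_succ]
      exact h1 _ _
    · intro h1 m tl
      have := h1 (Fin.cons m tl)
      rw [updB_succ] at this
      exact this

theorem exB (r c : ℕ) (h : SE τ w P) :
    SE τ w (fun M _ S v W => ∃ xs : Fin r → M, P M S (updB v c xs) W) :=
  ((h.not.allB r c).not).congr fun M _ S v W _ => by push Not; rfl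

/-- one element quantifier -/
theorem all1 (c : ℕ) (h : SE τ w P) :
    SE τ w (fun M _ S v W => ∀ x : M, P M S (updB v c (fun _ : Fin 1 => x)) W) :=
  (h.allB 1 c).congr fun M _ S v W _ => by
    constructor
    · intro h x; exact h _
    · intro h xs
      have e : xs = fun _ => xs 0 := by
        funext i; fin_cases i; rfl
      rw [e]; exact h _

theorem ex1 (c : ℕ) (h : SE τ w P) :
    SE τ w (fun M _ S v W => ∃ x : M, P M S (updB v c (fun _ : Fin 1 => x)) W) :=
  ((h.not.all1 c).not).congr fun M _ S v W _ => by push Not; rfl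

end SE

/-- well-foundedness is expressible -/
theorem wf_fml {τ : Voc} (n' : ℕ) : ∃ χ : SO τ, ∀ (M : Type) (S : Str τ M) (v : ℕ → M) (W : Asg M),
    (χ.Sat S v W ↔ WellFounded (rl W n')) := by
  refine ⟨.allR 1 0 (.neg (.and (.neg (.all 0 (.neg (.var 1 0 (fun _ => 0)))))
    (.all 0 (.neg (.and (.var 1 0 (fun _ => 0))
      (.all 1 (.neg (.and (.var 2 n' ![1, 0]) (.var 1 0 (fun _ => 1)))))))))), ?_⟩
  intro M S v W
  rw [WellFounded.wellFounded_iff_has_min]
  have e2 : ∀ A : (Fin 1 → M) → Prop, (W.upd 1 0 A) 2 n' = W 2 n' := by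
    intro A
    unfold SOCat.Asg.upd
    rw [Function.update_of_ne (by norm_num)]
  have e1 : ∀ A : (Fin 1 → M) → Prop, (W.upd 1 0 A) 1 0 = A := by
    intro A
    unfold SOCat.Asg.upd
    rw [Function.update_self, Function.update_self]
  have e3 : ∀ a b : M, (fun k => Function.update (Function.update v 0 a) 1 b
      ((![1, 0] : Fin 2 → ℕ) k)) = ![b, a] := by
    intro a b
    funext k
    fin_cases k
    · show Function.update (Function.update v 0 a) 1 b 1 = b
      rw [Function.update_self]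
    · show Function.update (Function.update v 0 a) 1 b 0 = a
      rw [Function.update_of_ne (by norm_num), Function.update_self]
  have sem : SO.Sat S (.allR 1 0 (.neg (.and (.neg (.all 0 (.neg (.var 1 0 (fun _ => 0)))))
    (.all 0 (.neg (.and (.var 1 0 (fun _ => 0))
      (.all 1 (.neg (.and (.var 2 n' ![1, 0]) (.var 1 0 (fun _ => 1))))))))))) v W ↔
      ∀ A : (Fin 1 → M) → Prop, ¬ ((¬ ∀ a : M, ¬ A (fun _ => a)) ∧
        ∀ a : M, ¬ (A (fun _ => a) ∧ ∀ b : M, ¬ (rl W n' b a ∧ A (fun _ => b)))) := by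
    simp only [SO.Sat, e1, e2, e3, Function.update_self]
    rfl
  rw [sem]
  constructor
  · intro h s hs
    have h1 := h (fun x => x 0 ∈ s)
    by_contra hcon
    push Not at hcon
    apply h1
    refine ⟨?_, ?_⟩
    · intro h2
      obtain ⟨a, ha⟩ := hs
      exact h2 a ha
    · rintro a ⟨ha, h3⟩
      obtain ⟨x, hx, hx'⟩ := hcon a ha
      exact h3 x ⟨hx', hx⟩
  · intro h A
    rintro ⟨h1, h2⟩
    push Not at h1
    obtain ⟨a, ha⟩ := h1
    obtain ⟨m, hm, hm'⟩ := h {a | A (fun _ => a)} ⟨a, ha⟩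
    exact h2 m ⟨hm, fun b hb => hm' b hb.2 hb.1⟩

theorem SE.allRW {τ : Voc} {w : Set ℕ} {n' : ℕ} (hn : n' ∉ w)
    {P : ∀ (M : Type) [Infinite M], Str τ M → (ℕ → M) → Asg M → Prop}
    (h : SE τ (insert n' w) P) :
    SE τ w (fun M _ S v W => ∀ A : (Fin 2 → M) → Prop, WellFounded (rl (W.upd 2 n' A) n') →
      P M S v (W.upd 2 n' A)) := by
  obtain ⟨ψ, hψ⟩ := h
  obtain ⟨χ, hχ⟩ := wf_fml (τ := τ) n'
  refine ⟨.allR 2 n' (.neg (.and χ (.neg ψ))), fun M _ S v W hW => ?_⟩
  show (∀ A : (Fin 2 → M) → Prop, ¬ (χ.Sat S v (W.upd 2 n' A) ∧ ¬ ψ.Sat S v (W.upd 2 n' A))) ↔ _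
  refine forall_congr' fun A => ?_
  rw [hχ, not_and, not_not]
  refine imp_congr_right fun hwf => ?_
  refine hψ M S v _ ?_
  intro n hnw
  rcases hnw with h | h
  · rw [h]; exact hwf
  · have hne : n ≠ n' := fun h' => hn (h' ▸ h)
    rw [SD.rl_upd W hne]
    exact hW n h

/-! ### semantics of the atomic formulas -/

theorem bisim {M : Type} {E E' : M → M → Prop} (hE : WellFounded E) (hE' : WellFounded E')
    (s t : M) : mos E s = mos E' t ↔ ∃ Z : M → M → Prop, Z s t ∧ ∀ a b, Z a b →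
      (∀ a', E a' a → ∃ b', E' b' b ∧ Z a' b') ∧ (∀ b', E' b' b → ∃ a', E a' a ∧ Z a' b') := by
  constructor
  · intro h
    refine ⟨fun a b => mos E a = mos E' b, h, ?_⟩
    intro a b hab
    constructor
    · intro a' ha'
      have : mos E a' ∈ mos E' b := by
        rw [← hab, mem_mos hE]; exact ⟨a', ha', rfl⟩
      obtain ⟨b', hb', h2⟩ := (mem_mos hE').1 this
      exact ⟨b', hb', h2.symm⟩
    · intro b' hb'
      have : mos E' b' ∈ mos E a := by
        rw [hab, mem_mos hE']; exact ⟨b', hb', rfl⟩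
      obtain ⟨a', ha', h2⟩ := (mem_mos hE).1 this
      exact ⟨a', ha', h2⟩
  · rintro ⟨Z, hst, hZ⟩
    have key : ∀ a b, Z a b → mos E a = mos E' b := by
      intro a
      induction a using hE.induction with
      | _ a ih =>
        intro b hab
        obtain ⟨h1, h2⟩ := hZ a b hab
        ext x
        rw [mem_mos hE, mem_mos hE']
        constructor
        · rintro ⟨a', ha', rfl⟩
          obtain ⟨b', hb', hz⟩ := h1 a' ha'
          exact ⟨b', hb', (ih a' ha' b' hz).symm⟩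
        · rintro ⟨b', hb', rfl⟩
          obtain ⟨a', ha', hz⟩ := h2 b' hb'
          exact ⟨a', ha', ih a' ha' b' hz⟩
    exact key s t hst

theorem mos_empty {M : Type} {E : M → M → Prop} (hE : WellFounded E) (t : M) :
    mos E t = ∅ ↔ ∀ s, ¬ E s t := by
  rw [ZFSet.eq_empty]
  constructor
  · intro h s hs
    exact h _ ((mem_mos hE).2 ⟨s, hs, rfl⟩)
  · intro h x hx
    obtain ⟨s, hs, -⟩ := (mem_mos hE).1 hx
    exact h s hs

/-- the set coded by an optional pair of names -/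
noncomputable def oz {M : Type} (P : Option (ℕ × ℕ)) (v : ℕ → M) (W : Asg M) : ZFSet.{0} :=
  match P with
  | none => ∅
  | some p => mos (rl W p.1) (v p.2)

theorem envZ_eq {M : Type} (g : ℕ → Option (ℕ × ℕ)) (v : ℕ → M) (W : Asg M) (i : ℕ) :
    envZ g v W i = oz (g i) v W := by
  unfold envZ oz
  cases g i <;> rfl

theorem updB1 {M : Type} (v : ℕ → M) (c : ℕ) (x : M) : updB v c (fun _ : Fin 1 => x) c = x := by
  have := updB_in v c (fun _ : Fin 1 => x) 0
  simpa using this

theorem updB1' {M : Type} (v : ℕ → M) {c j : ℕ} (x : M) (h : j < c) :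
    updB v c (fun _ : Fin 1 => x) j = v j := updB_out _ _ _ (Or.inl h)

theorem EMP {τ : Voc} {w : Set ℕ} (p : ℕ × ℕ) (hw : p.1 ∈ w) (d : ℕ) (hd : p.2 < d) :
    SE τ w (fun M _ S v W => mos (rl W p.1) (v p.2) = ∅) :=
  (((SE.G p.1 d p.2).not).all1 d).congr fun M _ S v W hW => by
    rw [mos_empty (hW _ hw)]
    simp only [updB1, updB1' v _ hd]

theorem EQ {τ : Voc} {w : Set ℕ} (p q : ℕ × ℕ) (hp : p.1 ∈ w) (hq : q.1 ∈ w) (d : ℕ)
    (hp1 : p.1 < d) (hp2 : p.2 < d) (hq1 : q.1 < d) (hq2 : q.2 < d) (hdw : d ∉ w) :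
    SE τ w (fun M _ S v W => mos (rl W p.1) (v p.2) = mos (rl W q.1) (v q.2)) := by
  refine (SE.exG (n' := d) hdw ((SE.G d p.2 q.2).and
    (SE.all1 d (SE.all1 (d + 1) ((SE.G d d (d + 1)).imp
      ((SE.all1 (d + 2) ((SE.G p.1 (d + 2) d).imp
        (SE.ex1 (d + 3) ((SE.G q.1 (d + 3) (d + 1)).and (SE.G d (d + 2) (d + 3)))))).and
      (SE.all1 (d + 2) ((SE.G q.1 (d + 2) (d + 1)).imp
        (SE.ex1 (d + 3) ((SE.G p.1 (d + 3) d).and (SE.G d (d + 3) (d + 2))))))))))
    )).congr fun M _ S v W hW => ?_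
  rw [bisim (hW _ hp) (hW _ hq)]
  have u0 : ∀ a b x y : M, updB (updB (updB (updB v d (fun _ : Fin 1 => a)) (d + 1)
      (fun _ : Fin 1 => b)) (d + 2) (fun _ : Fin 1 => x)) (d + 3) (fun _ : Fin 1 => y) (d + 3) =
      y := fun a b x y => updB1 _ _ _
  have u1 : ∀ a b x y : M, updB (updB (updB (updB v d (fun _ : Fin 1 => a)) (d + 1)
      (fun _ : Fin 1 => b)) (d + 2) (fun _ : Fin 1 => x)) (d + 3) (fun _ : Fin 1 => y) (d + 2) =
      x := fun a b x y => by rw [updB1' _ _ (by omega), updB1]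
  have u2 : ∀ a b x y : M, updB (updB (updB (updB v d (fun _ : Fin 1 => a)) (d + 1)
      (fun _ : Fin 1 => b)) (d + 2) (fun _ : Fin 1 => x)) (d + 3) (fun _ : Fin 1 => y) (d + 1) =
      b := fun a b x y => by rw [updB1' _ _ (by omega), updB1' _ _ (by omega), updB1]
  have u3 : ∀ a b x y : M, updB (updB (updB (updB v d (fun _ : Fin 1 => a)) (d + 1)
      (fun _ : Fin 1 => b)) (d + 2) (fun _ : Fin 1 => x)) (d + 3) (fun _ : Fin 1 => y) d =
      a := fun a b x y => by
    rw [updB1' _ _ (by omega), updB1' _ _ (by omega), updB1' _ _ (by omega), updB1]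
  have w1 : ∀ a b x : M, updB (updB (updB v d (fun _ : Fin 1 => a)) (d + 1)
      (fun _ : Fin 1 => b)) (d + 2) (fun _ : Fin 1 => x) (d + 2) = x := fun a b x => updB1 _ _ _
  have w2 : ∀ a b x : M, updB (updB (updB v d (fun _ : Fin 1 => a)) (d + 1)
      (fun _ : Fin 1 => b)) (d + 2) (fun _ : Fin 1 => x) (d + 1) = b := fun a b x => by
    rw [updB1' _ _ (by omega), updB1]
  have w3 : ∀ a b x : M, updB (updB (updB v d (fun _ : Fin 1 => a)) (d + 1)
      (fun _ : Fin 1 => b)) (d + 2) (fun _ : Fin 1 => x) d = a := fun a b x => by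
    rw [updB1' _ _ (by omega), updB1' _ _ (by omega), updB1]
  have x2 : ∀ a b : M, updB (updB v d (fun _ : Fin 1 => a)) (d + 1)
      (fun _ : Fin 1 => b) (d + 1) = b := fun a b => updB1 _ _ _
  have x3 : ∀ a b : M, updB (updB v d (fun _ : Fin 1 => a)) (d + 1)
      (fun _ : Fin 1 => b) d = a := fun a b => by
    rw [updB1' _ _ (by omega), updB1]
  simp only [u0, u1, u2, u3, w1, w2, w3, x2, x3]
  have hpd : p.1 ≠ d := by omega
  have hqd : q.1 ≠ d := by omega
  constructor
  · rintro ⟨A, hA⟩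
    rw [SD.rl_upd W hpd, SD.rl_upd W hqd] at hA
    exact ⟨rl (W.upd 2 d A) d, hA⟩
  · rintro ⟨Z, hZ⟩
    refine ⟨fun p => Z (p 0) (p 1), ?_⟩
    have : rl (W.upd 2 d (fun p => Z (p 0) (p 1))) d = Z := by
      funext a b
      rw [SD.rl_upd_self]
      rfl
    rw [SD.rl_upd W hpd, SD.rl_upd W hqd, this]
    exact hZ

/-- bound for an optional pair -/
def Bd (d : ℕ) (w : Set ℕ) (P : Option (ℕ × ℕ)) : Prop :=
  ∀ p, P = some p → p.1 ∈ w ∧ p.1 < d ∧ p.2 < d

theorem EQO {τ : Voc} {w : Set ℕ} (P Q : Option (ℕ × ℕ)) (d : ℕ) (hP : Bd d w P) (hQ : Bd d w Q)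
    (hdw : d ∉ w) : SE τ w (fun M _ S v W => oz P v W = oz Q v W) := by
  cases P with
  | none =>
    cases Q with
    | none => exact SE.tru.congr fun M _ S v W _ => by simp [oz]
    | some q =>
      obtain ⟨h1, h2, h3⟩ := hQ q rfl
      exact (EMP q h1 d h3).congr fun M _ S v W _ => by
        show mos (rl W q.1) (v q.2) = ∅ ↔ ∅ = mos (rl W q.1) (v q.2)
        exact eq_comm
  | some p =>
    obtain ⟨g1, g2, g3⟩ := hP p rfl
    cases Q with
    | none => exact EMP p g1 d g3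
    | some q =>
      obtain ⟨h1, h2, h3⟩ := hQ q rfl
      exact EQ p q g1 h1 d g2 g3 h2 h3 hdw

theorem oz_upd {M : Type} {P : Option (ℕ × ℕ)} {d : ℕ} {w : Set ℕ} (hP : Bd d w P) (v : ℕ → M)
    (W : Asg M) (x : M) : oz P (updB v d (fun _ : Fin 1 => x)) W = oz P v W := by
  cases P with
  | none => rfl
  | some p =>
    show mos (rl W p.1) (updB v d (fun _ : Fin 1 => x) p.2) = mos (rl W p.1) (v p.2)
    rw [updB1' _ _ (hP p rfl).2.2]

theorem MEMO {τ : Voc} {w : Set ℕ} (P Q : Option (ℕ × ℕ)) (d : ℕ) (hP : Bd d w P) (hQ : Bd d w Q)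
    (hdw : ∀ e, d ≤ e → e ∉ w) : SE τ w (fun M _ S v W => oz P v W ∈ oz Q v W) := by
  cases Q with
  | none => exact SE.tru.not.congr fun M _ S v W _ => by simp [oz]
  | some q =>
    obtain ⟨h1, h2, h3⟩ := hQ q rfl
    have hP' : Bd (d + 1) w P := fun p hp => by
      obtain ⟨g1, g2, g3⟩ := hP p hp
      exact ⟨g1, by omega, by omega⟩
    have hQ' : Bd (d + 1) w (some (q.1, d)) := fun p hp => by
      rw [Option.some.injEq] at hp
      subst hp
      exact ⟨h1, by show q.1 < d + 1; omega, by show d < d + 1; omega⟩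
    refine (SE.ex1 d ((SE.G q.1 d q.2).and
      (EQO P (some (q.1, d)) (d + 1) hP' hQ' (hdw _ (by omega))))).congr fun M _ S v W hW => ?_
    have e1 : ∀ x : M, oz (some (q.1, d)) (updB v d (fun _ : Fin 1 => x)) W = mos (rl W q.1) x := by
      intro x
      show mos (rl W q.1) (updB v d (fun _ : Fin 1 => x) d) = _
      rw [updB1]
    simp only [updB1, updB1' v _ h3, oz_upd hP, e1]
    show _ ↔ oz P v W ∈ mos (rl W q.1) (v q.2)
    rw [mem_mos (hW _ h1)]
    constructor
    · rintro ⟨x, hx, he⟩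
      exact ⟨x, hx, he.symm⟩
    · rintro ⟨x, hx, he⟩
      exact ⟨x, hx, he.symm⟩

/-- the second-order names of an environment -/
def wg (g : ℕ → Option (ℕ × ℕ)) : Set ℕ := {n | ∃ i p, g i = some p ∧ p.1 = n}

theorem wg_cons (g : ℕ → Option (ℕ × ℕ)) (d : ℕ) :
    wg (cons (some (d, d)) g) ⊆ insert d (wg g) := by
  rintro n ⟨i, p, hi, rfl⟩
  cases i with
  | zero =>
    have : some (d, d) = some p := hi
    rw [Option.some.injEq] at this
    left
    rw [← this]
  | succ i => exact Or.inr ⟨i, p, hi, rfl⟩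

theorem envZ_cons {M : Type} (g : ℕ → Option (ℕ × ℕ)) (d : ℕ)
    (hg : ∀ i p, g i = some p → p.1 < d ∧ p.2 < d) (v : ℕ → M) (W : Asg M) (x : M)
    (A : (Fin 2 → M) → Prop) :
    envZ (cons (some (d, d)) g) (Function.update v d x) (W.upd 2 d A) =
      cons (mos (rl (W.upd 2 d A) d) x) (envZ g v W) := by
  funext i
  rw [envZ_eq]
  cases i with
  | zero =>
    show mos (rl (W.upd 2 d A) d) (Function.update v d x d) = mos (rl (W.upd 2 d A) d) x
    rw [Function.update_self]
  | succ i =>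
    show oz (g i) (Function.update v d x) (W.upd 2 d A) = envZ g v W i
    rw [envZ_eq]
    cases h : g i with
    | none => rfl
    | some p =>
      obtain ⟨h1, h2⟩ := hg i p h
      show mos (rl (W.upd 2 d A) p.1) (Function.update v d x p.2) = mos (rl W p.1) (v p.2)
      rw [SD.rl_upd W (by omega), Function.update_of_ne (by omega)]

/-- quantification over `HH M` -/
theorem all_HH {M : Type} (P : ZFSet.{0} → Prop) : (∀ a ∈ HH M, P a) ↔
    ∀ (x : M) (E : M → M → Prop), WellFounded E → P (mos E x) := by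
  constructor
  · intro h x E _
    exact h _ (mos_mem_HH E x)
  · intro h a ha
    unfold HH at ha
    rw [ZFSet.mem_range] at ha
    obtain ⟨⟨E, x⟩, rfl⟩ := ha
    by_cases hE : WellFounded E
    · exact h x E hE
    · have h1 : WellFounded (fun _ _ : M => False) := ⟨fun a => ⟨_, fun _ h => h.elim⟩⟩
      have e1 : mos E x = ∅ := by
        unfold mos
        rw [dif_neg hE]
      have e2 : mos (fun _ _ : M => False) x = ∅ := (mos_empty h1 x).2 fun _ h => h
      have := h x _ h1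
      rw [e2] at this
      show P (mos E x)
      rw [e1]
      exact this

theorem main1 (τ : Voc) (φ : Fml) : ∀ (d : ℕ) (g : ℕ → Option (ℕ × ℕ)),
    (∀ i p, g i = some p → p.1 < d ∧ p.2 < d) →
    SE τ (wg g) (fun M _ S v W => Pool.Agent.W886.VL.Sat (HH M) φ (envZ g v W)) := by
  induction φ with
  | mem i j =>
    intro d g hg
    have hB : ∀ i, Bd d (wg g) (g i) := fun i p hp => ⟨⟨i, p, hp, rfl⟩, hg i p hp⟩
    refine (MEMO (g i) (g j) d (hB i) (hB j) ?_).congr fun M _ S v W _ => ?_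
    · rintro e he ⟨i, p, hp, rfl⟩
      have := (hg i p hp).1
      omega
    · rw [← envZ_eq, ← envZ_eq]; rfl
  | eq i j =>
    intro d g hg
    have hB : ∀ i, Bd d (wg g) (g i) := fun i p hp => ⟨⟨i, p, hp, rfl⟩, hg i p hp⟩
    refine (EQO (g i) (g j) d (hB i) (hB j) ?_).congr fun M _ S v W _ => ?_
    · rintro ⟨i, p, hp, he⟩
      have := (hg i p hp).1
      omega
    · rw [← envZ_eq, ← envZ_eq]; rfl
  | neg φ ih => intro d g hg; exact (ih d g hg).not
  | and φ ψ ih1 ih2 => intro d g hg; exact (ih1 d g hg).and (ih2 d g hg)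
  | all φ ih =>
    intro d g hg
    have h1 := (ih (d + 1) (cons (some (d, d)) g) (by
      intro i p hp
      cases i with
      | zero =>
        have : some (d, d) = some p := hp
        rw [Option.some.injEq] at this
        rw [← this]
        exact ⟨by show d < d + 1; omega, by show d < d + 1; omega⟩
      | succ i =>
        obtain ⟨h1, h2⟩ := hg i p hp
        exact ⟨by omega, by omega⟩)).mono (wg_cons g d)
    have hd : d ∉ wg g := by
      rintro ⟨i, p, hp, he⟩
      have := (hg i p hp).1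
      omega
    refine ((SE.allRW hd h1).all d).congr fun M _ S v W _ => ?_
    show _ ↔ ∀ a ∈ HH M, Pool.Agent.W886.VL.Sat (HH M) φ (cons a (envZ g v W))
    rw [all_HH]
    refine forall_congr' fun x => ?_
    simp only [envZ_cons g d hg]
    constructor
    · intro h E hE
      have := h (fun p => E (p 0) (p 1))
      have e : rl (W.upd 2 d (fun p => E (p 0) (p 1))) d = E := by
        funext a b
        rw [SD.rl_upd_self]
        rfl
      rw [e] at this
      exact this hE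
    · intro h A hA
      exact h _ hA

theorem task : T_KS1 := by
  intro τ φ d g hg
  obtain ⟨ψ, hψ⟩ := main1 τ φ d g hg
  refine ⟨ψ, fun M _ S v W hW => hψ M S v W ?_⟩
  rintro n ⟨i, p, hp, rfl⟩
  exact hW i p hp

end Pool.Agent.W826.VLKs1
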