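import Mathlib
import Pool.Agent.W826.VLKs2a

/-! VL-KS2. -/

set_option autoImplicit false
set_option linter.all false

namespace Pool.Agent.W826.VLKs2

open SOCat (Fml cons SO Str Asg Voc Asg.upd)
open Pool.Agent.W886.VL
open ZFSet (pair omega)

/-- `y ∈ b(m)` -/
def MM (b : ZFSet.{0}) (m : ℕ) (y : ZFSet.{0}) : Prop := ∃ X, pair (num m) X ∈ b ∧ y ∈ X

theorem MM_fnZ {s : ℕ → ZFSet.{0}} {m : ℕ} {y : ZFSet.{0}} : MM (fnZ s) m y ↔ y ∈ s m := by
  constructor
  · rintro ⟨X, h1, h2⟩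
    rw [pair_mem_fnZ] at h1
    rwa [← h1]
  · intro h
    exact ⟨s m, pair_mem_fnZ.2 rfl, h⟩

/-- the properties of `G` -/
def Core {τ : Voc} {M : Type} (S : Str τ M) (E : M → M → Prop) (b : ZFSet.{0})
    (G : M → M → Prop) : Prop :=
  (∀ x, ∃ y, G x y) ∧
  (∀ x y x' y', G x y → G x' y' → (mos E y = mos E y' ↔ x = x')) ∧
  (∀ x y, G x y → MM b 0 (mos E y)) ∧
  (∀ z, MM b 0 (mos E z) → ∃ x, G x z) ∧
  (∃ x y, G x y ∧ mos E y = ∅) ∧
  (∀ (R : Fin τ.nR) (xs ys : Fin (τ.aR R) → M), (∀ i, G (xs i) (ys i)) →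
    (S.rel R xs ↔ MM b (3 * (R.1 + 1)) (tupZ (List.ofFn (fun i => mos E (ys i)))))) ∧
  (∀ (f : Fin τ.nF) (xs ys : Fin (τ.aF f + 1) → M), (∀ i, G (xs i) (ys i)) →
    (S.fn f (fun i => xs i.castSucc) = xs (Fin.last _) ↔
      MM b (3 * (τ.nR + f.1 + 1)) (tupZ (List.ofFn (fun i => mos E (ys i)))))) ∧
  IsF (τ.nR + τ.nF) b

theorem core_iff {τ : Voc} {M : Type} (S : Str τ M) {E : M → M → Prop} (hE : WellFounded E)
    (t : M) : Cds S (mos E t) ↔ ∃ G : M → M → Prop, Core S E (mos E t) G := by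
  -- every element of the first value is a node
  have node0 : ∀ (s : ℕ → ZFSet.{0}), mos E t = fnZ s → ∀ x ∈ s 0, ∃ z, mos E z = x := by
    intro s hs x hx
    have h1 : pair (num 0) (s 0) ∈ mos E t := by rw [hs]; exact pair_mem_fnZ.2 rfl
    obtain ⟨z, hz⟩ := node_of_pair hE h1
    rw [← hz] at hx
    exact node_of_mem hE hx
  constructor
  · rintro ⟨s, e, hb, hz, hinj, ⟨m0, hm0⟩, h0, hR, hf⟩
    have hnod : ∀ m, ∃ z, mos E z = e m := fun m => node0 s hb _ ((h0 _).2 ⟨m, rfl⟩)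
    choose nod hnod using hnod
    refine ⟨fun x y => mos E y = e x, fun x => ⟨nod x, hnod x⟩, ?_, ?_, ?_, ⟨m0, nod m0, hnod m0,
      by rw [hnod, hm0]⟩, ?_, ?_, ⟨s, hb, hz⟩⟩
    · intro x y x' y' h1 h2
      rw [h1, h2]
      exact hinj.eq_iff
    · intro x y h1
      rw [hb, MM_fnZ, h1, h0]
      exact ⟨x, rfl⟩
    · intro z h1
      rw [hb, MM_fnZ, h0] at h1
      obtain ⟨m, hm⟩ := h1
      exact ⟨m, hm.symm⟩
    · intro R xs ys h1
      rw [hR, hb, MM_fnZ]
      have : (fun i => mos E (ys i)) = fun i => e (xs i) := funext h1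
      rw [this]
    · intro f xs ys h1
      rw [hf, hb, MM_fnZ]
      have : (fun i => mos E (ys i)) = fun i => e (xs i) := funext h1
      rw [this, List.ofFn_succ', List.concat_eq_append]
  · rintro ⟨G, g1, g2, g3, g4, ⟨x0, y0, g5, g5'⟩, g6, g7, s, hb, hz⟩
    choose nod hnod using g1
    have he : ∀ x y, G x y → mos E (nod x) = mos E y := fun x y h =>
      (g2 x (nod x) x y (hnod x) h).2 rfl
    refine ⟨s, fun x => mos E (nod x), hb, hz, ?_, ⟨x0, ?_⟩, ?_, ?_, ?_⟩
    · intro x x' h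
      exact (g2 x (nod x) x' (nod x') (hnod x) (hnod x')).1 h
    · show mos E (nod x0) = ∅
      rw [he x0 y0 g5, g5']
    · intro x
      constructor
      · intro hx
        obtain ⟨z, rfl⟩ := node0 s hb x hx
        obtain ⟨m, hm⟩ := g4 z (by rw [hb, MM_fnZ]; exact hx)
        exact ⟨m, he m z hm⟩
      · rintro ⟨m, rfl⟩
        have := g3 m (nod m) (hnod m)
        rwa [hb, MM_fnZ] at this
    · intro R xs
      rw [g6 R xs (fun i => nod (xs i)) (fun i => hnod _), hb, MM_fnZ]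
    · intro f xs y
      have h1 := g7 f (Fin.snoc (α := fun _ => M) xs y)
        (fun i => nod (Fin.snoc (α := fun _ => M) xs y i)) (fun i => hnod _)
      simp only [Fin.snoc_castSucc, Fin.snoc_last] at h1
      rw [h1, hb, MM_fnZ, List.ofFn_succ', List.concat_eq_append]
      simp only [Fin.snoc_castSucc, Fin.snoc_last]

theorem updB_at {M : Type} (v : ℕ → M) (c : ℕ) {r : ℕ} (xs : Fin r → M) (i : Fin r) {j : ℕ}
    (h : j = c + i.1) : updB v c xs j = xs i := by
  rw [h, updB_in]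

theorem nd_tup {M : Type} (E : M → M → Prop) (v : ℕ → M) (k a r : ℕ) :
    tupZ ((List.ofFn (fun i : Fin r => i.1 + 1)).map
      (nd E v (k :: List.ofFn (fun i : Fin r => a + i.1)))) =
    tupZ (List.ofFn (fun i : Fin r => mos E (v (a + i.1)))) := by
  congr 1
  rw [List.map_ofFn]
  congr 1
  funext i
  show ((k :: List.ofFn (fun i : Fin r => a + i.1))[i.1 + 1]?).elim ∅ (fun j => mos E (v j)) = _
  rw [List.getElem?_cons_succ]
  simp

theorem task (h1 : T_KS1) (h2 : T_HH) : T_KS2 := by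
  intro τ n k
  have hn : n ≠ n + 1 := by omega
  set c := k + 1 with hc
  have p1 : SD τ n (fun M _ S v W => ∀ x, ∃ y, rl W (n + 1) x y) :=
    (SD.allB 1 c (SD.exB 1 (c + 1) (SD.G (n + 1) c (c + 1)))).congr fun M _ S v W _ => by
      have e1 : ∀ xs ys : Fin 1 → M, updB (updB v c xs) (c + 1) ys c = xs 0 := fun xs ys => by
        rw [updB_out _ _ _ (by omega), updB_at v c xs 0 (by simp)]
      have e2 : ∀ xs ys : Fin 1 → M, updB (updB v c xs) (c + 1) ys (c + 1) = ys 0 := fun xs ys => by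
        rw [updB_at _ _ _ 0 (by simp)]
      simp only [e1, e2]
      constructor
      · intro h x
        obtain ⟨ys, hys⟩ := h (fun _ => x)
        exact ⟨ys 0, hys⟩
      · intro h xs
        obtain ⟨y, hy⟩ := h (xs 0)
        exact ⟨fun _ => y, hy⟩
  have p2 : SD τ n (fun M _ S v W => ∀ x y x' y', rl W (n + 1) x y → rl W (n + 1) x' y' →
      (mos (rl W n) y = mos (rl W n) y' ↔ x = x')) :=
    (SD.allB 4 c ((SD.G (n + 1) c (c + 1)).imp ((SD.G (n + 1) (c + 2) (c + 3)).imp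
      ((SD.set h1 h2 [c + 1, c + 3] (Dfn.eq 0 1)).iff (SD.eq c (c + 2)))))).congr
      fun M _ S v W _ => by
      have e0 : ∀ xs : Fin 4 → M, updB v c xs c = xs 0 := fun xs => updB_at v c xs 0 (by simp)
      have e1 : ∀ xs : Fin 4 → M, updB v c xs (c + 1) = xs 1 := fun xs => updB_at v c xs 1 (by simp)
      have e2 : ∀ xs : Fin 4 → M, updB v c xs (c + 2) = xs 2 := fun xs => updB_at v c xs 2 (by simp)
      have e3 : ∀ xs : Fin 4 → M, updB v c xs (c + 3) = xs 3 := fun xs => updB_at v c xs 3 (by simp)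
      have d0 : ∀ v' : ℕ → M, nd (rl W n) v' [c + 1, c + 3] 0 = mos (rl W n) (v' (c + 1)) :=
        fun _ => rfl
      have d1 : ∀ v' : ℕ → M, nd (rl W n) v' [c + 1, c + 3] 1 = mos (rl W n) (v' (c + 3)) :=
        fun _ => rfl
      simp only [d0, d1, e0, e1, e2, e3]
      constructor
      · intro h x y x' y'
        exact h ![x, y, x', y']
      · intro h xs
        exact h _ _ _ _
  have p3 : SD τ n (fun M _ S v W => ∀ x y, rl W (n + 1) x y →
      MM (mos (rl W n) (v k)) 0 (mos (rl W n) y)) :=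
    (SD.allB 2 c ((SD.G (n + 1) c (c + 1)).imp (SD.set h1 h2 [k, c + 1] (D_mem 0)))).congr
      fun M _ S v W _ => by
      have e0 : ∀ xs : Fin 2 → M, updB v c xs c = xs 0 := fun xs => updB_at v c xs 0 (by simp)
      have e1 : ∀ xs : Fin 2 → M, updB v c xs (c + 1) = xs 1 := fun xs => updB_at v c xs 1 (by simp)
      have ek : ∀ xs : Fin 2 → M, updB v c xs k = v k := fun xs => updB_out _ _ _ (by omega)
      have d0 : ∀ v' : ℕ → M, nd (rl W n) v' [k, c + 1] 0 = mos (rl W n) (v' k) := fun _ => rfl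
      have d1 : ∀ v' : ℕ → M, nd (rl W n) v' [k, c + 1] 1 = mos (rl W n) (v' (c + 1)) :=
        fun _ => rfl
      simp only [d0, d1, e0, e1, ek]
      constructor
      · intro h x y
        exact h ![x, y]
      · intro h xs
        exact h _ _
  have p4 : SD τ n (fun M _ S v W => ∀ z, MM (mos (rl W n) (v k)) 0 (mos (rl W n) z) →
      ∃ x, rl W (n + 1) x z) :=
    (SD.allB 1 c ((SD.set h1 h2 [k, c] (D_mem 0)).imp
      (SD.exB 1 (c + 1) (SD.G (n + 1) (c + 1) c)))).congr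
      fun M _ S v W _ => by
      have e0 : ∀ xs : Fin 1 → M, updB v c xs c = xs 0 := fun xs => updB_at v c xs 0 (by simp)
      have e1 : ∀ xs ys : Fin 1 → M, updB (updB v c xs) (c + 1) ys c = xs 0 := fun xs ys => by
        rw [updB_out _ _ _ (by omega), updB_at v c xs 0 (by simp)]
      have e2 : ∀ xs ys : Fin 1 → M, updB (updB v c xs) (c + 1) ys (c + 1) = ys 0 := fun xs ys => by
        rw [updB_at _ _ _ 0 (by simp)]
      have ek : ∀ xs : Fin 1 → M, updB v c xs k = v k := fun xs => updB_out _ _ _ (by omega)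
      have d0 : ∀ v' : ℕ → M, nd (rl W n) v' [k, c] 0 = mos (rl W n) (v' k) := fun _ => rfl
      have d1 : ∀ v' : ℕ → M, nd (rl W n) v' [k, c] 1 = mos (rl W n) (v' c) := fun _ => rfl
      simp only [d0, d1, e0, e1, e2, ek]
      constructor
      · intro h z hz
        obtain ⟨ys, hys⟩ := h (fun _ => z) hz
        exact ⟨ys 0, hys⟩
      · intro h xs hz
        obtain ⟨y, hy⟩ := h (xs 0) hz
        exact ⟨fun _ => y, hy⟩
  have p5 : SD τ n (fun M _ S v W => ∃ x y, rl W (n + 1) x y ∧ mos (rl W n) y = ∅) :=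
    (SD.exB 2 c ((SD.G (n + 1) c (c + 1)).and (SD.set h1 h2 [c + 1] (d_emp 0)))).congr
      fun M _ S v W _ => by
      have e0 : ∀ xs : Fin 2 → M, updB v c xs c = xs 0 := fun xs => updB_at v c xs 0 (by simp)
      have e1 : ∀ xs : Fin 2 → M, updB v c xs (c + 1) = xs 1 := fun xs => updB_at v c xs 1 (by simp)
      have d0 : ∀ v' : ℕ → M, nd (rl W n) v' [c + 1] 0 = mos (rl W n) (v' (c + 1)) := fun _ => rfl
      simp only [d0, e0, e1]
      constructor
      · rintro ⟨xs, h⟩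
        exact ⟨_, _, h⟩
      · rintro ⟨x, y, h⟩
        exact ⟨![x, y], h⟩
  have p6 : SD τ n (fun M _ S v W => ∀ (R : Fin τ.nR) (xs ys : Fin (τ.aR R) → M),
      (∀ i, rl W (n + 1) (xs i) (ys i)) → (S.rel R xs ↔ MM (mos (rl W n) (v k)) (3 * (R.1 + 1))
        (tupZ (List.ofFn (fun i => mos (rl W n) (ys i)))))) := by
    refine SD.allFin fun R => ?_
    refine (SD.allB (τ.aR R) c (SD.allB (τ.aR R) (c + τ.aR R)
      ((SD.allFin (fun i : Fin (τ.aR R) => SD.G (n + 1) (c + i.1) (c + τ.aR R + i.1))).imp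
        ((SD.rel R (fun i => c + i.1)).iff
        (SD.set h1 h2 (k :: List.ofFn (fun i : Fin (τ.aR R) => c + τ.aR R + i.1))
          (D_tup (3 * (R.1 + 1)) (List.ofFn (fun i : Fin (τ.aR R) => i.1 + 1)))))))).congr ?_
    intro M _ S v W _
    refine forall_congr' fun xs => forall_congr' fun ys => ?_
    have ex : ∀ i : Fin (τ.aR R), updB (updB v c xs) (c + τ.aR R) ys (c + i.1) = xs i := fun i => by
      rw [updB_out _ _ _ (by have := i.2; omega), updB_in]
    have ey : ∀ i : Fin (τ.aR R), updB (updB v c xs) (c + τ.aR R) ys (c + τ.aR R + i.1) = ys i :=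
      fun i => updB_in _ _ _ _
    have ek : updB (updB v c xs) (c + τ.aR R) ys k = v k := by
      rw [updB_out _ _ _ (by omega), updB_out _ _ _ (by omega)]
    have d0 : ∀ v' : ℕ → M, nd (rl W n) v'
        (k :: List.ofFn (fun i : Fin (τ.aR R) => c + τ.aR R + i.1)) 0 = mos (rl W n) (v' k) :=
      fun _ => rfl
    simp only [nd_tup, d0, ex, ey, ek]
    rfl
  have p7 : SD τ n (fun M _ S v W => ∀ (f : Fin τ.nF) (xs ys : Fin (τ.aF f + 1) → M),
      (∀ i, rl W (n + 1) (xs i) (ys i)) → (S.fn f (fun i => xs i.castSucc) = xs (Fin.last _) ↔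
        MM (mos (rl W n) (v k)) (3 * (τ.nR + f.1 + 1))
        (tupZ (List.ofFn (fun i => mos (rl W n) (ys i)))))) := by
    refine SD.allFin fun f => ?_
    refine (SD.allB (τ.aF f + 1) c (SD.allB (τ.aF f + 1) (c + (τ.aF f + 1))
      ((SD.allFin (fun i : Fin (τ.aF f + 1) => SD.G (n + 1) (c + i.1)
          (c + (τ.aF f + 1) + i.1))).imp
        ((SD.fn f (fun i => c + i.1) (c + τ.aF f)).iff
        (SD.set h1 h2 (k :: List.ofFn (fun i : Fin (τ.aF f + 1) => c + (τ.aF f + 1) + i.1))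
          (D_tup (3 * (τ.nR + f.1 + 1))
            (List.ofFn (fun i : Fin (τ.aF f + 1) => i.1 + 1)))))))).congr ?_
    intro M _ S v W _
    refine forall_congr' fun xs => forall_congr' fun ys => ?_
    have ex : ∀ i : Fin (τ.aF f + 1), updB (updB v c xs) (c + (τ.aF f + 1)) ys (c + i.1) = xs i :=
      fun i => by
      rw [updB_out _ _ _ (by have := i.2; omega), updB_in]
    have ex' : ∀ i : Fin (τ.aF f), updB (updB v c xs) (c + (τ.aF f + 1)) ys (c + i.1) =
        xs i.castSucc := fun i => ex i.castSucc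
    have exl : updB (updB v c xs) (c + (τ.aF f + 1)) ys (c + τ.aF f) = xs (Fin.last _) :=
      ex (Fin.last _)
    have ey : ∀ i : Fin (τ.aF f + 1),
        updB (updB v c xs) (c + (τ.aF f + 1)) ys (c + (τ.aF f + 1) + i.1) = ys i :=
      fun i => updB_in _ _ _ _
    have ek : updB (updB v c xs) (c + (τ.aF f + 1)) ys k = v k := by
      rw [updB_out _ _ _ (by omega), updB_out _ _ _ (by omega)]
    have d0 : ∀ v' : ℕ → M, nd (rl W n) v'
        (k :: List.ofFn (fun i : Fin (τ.aF f + 1) => c + (τ.aF f + 1) + i.1)) 0 =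
          mos (rl W n) (v' k) :=
      fun _ => rfl
    simp only [nd_tup, d0, ex, ex', exl, ey, ek]
    rfl
  have p8 : SD τ n (fun M _ S v W => IsF (τ.nR + τ.nF) (mos (rl W n) (v k))) :=
    SD.set h1 h2 [k] (D_fn (τ.nR + τ.nF))
  have all : SD τ n (fun M _ S v W => Core S (rl W n) (mos (rl W n) (v k)) (rl W (n + 1))) :=
    p1.and (p2.and (p3.and (p4.and (p5.and (p6.and (p7.and p8))))))
  obtain ⟨ψ, hψ⟩ := SD.exG hn all
  refine ⟨ψ, fun M _ S v W hW => ?_⟩
  rw [hψ M S v W hW, core_iff S hW (v k)]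
  constructor
  · rintro ⟨A, hA⟩
    refine ⟨rl (W.upd 2 (n + 1) A) (n + 1), ?_⟩
    rw [SD.rl_upd W hn] at hA
    exact hA
  · rintro ⟨G, hG⟩
    refine ⟨fun p => G (p 0) (p 1), ?_⟩
    rw [SD.rl_upd W hn]
    have : rl (W.upd 2 (n + 1) (fun p => G (p 0) (p 1))) (n + 1) = G := by
      funext a b
      rw [SD.rl_upd_self]
      rfl
    rw [this]
    exact hG

end Pool.Agent.W826.VLKs2
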