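import Mathlib
import Pool.Agent.W826.VLKs1

/-! VL-KS3. -/

set_option autoImplicit false
set_option linter.all false

namespace Pool.Agent.W826.VLKs3

open SOCat (Fml cons SO Str Asg Voc Asg.upd Models)
open Pool.Agent.W886.VL
open Pool.Agent.W826.VLKs2 Pool.Agent.W826.VLKs1
open ZFSet (pair omega)

theorem main (h2 : T_KS2) (τ : Voc) (φ : KF) : ∀ (d : ℕ) (g : ℕ → Option (ℕ × ℕ)),
    (∀ i p, g i = some p → p.1 < d ∧ p.2 < d) →
    SE τ (wg g) (fun M _ S v W => KSat (HH M) (Cds S) φ (envZ g v W)) := by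
  induction φ with
  | mem i j =>
    intro d g hg
    have hB : ∀ i, Bd d (wg g) (g i) := fun i p hp => ⟨⟨i, p, hp, rfl⟩, hg i p hp⟩
    refine (MEMO (g i) (g j) d (hB i) (hB j) ?_).congr fun M _ S v W _ => ?_
    · rintro e he ⟨i, p, hp, rfl⟩
      have := (hg i p hp).1
      omega
    · rw [← envZ_eq, ← envZ_eq]; rfl
  | eq i j =>
    intro d g hg
    have hB : ∀ i, Bd d (wg g) (g i) := fun i p hp => ⟨⟨i, p, hp, rfl⟩, hg i p hp⟩
    refine (EQO (g i) (g j) d (hB i) (hB j) ?_).congr fun M _ S v W _ => ?_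
    · rintro ⟨i, p, hp, he⟩
      have := (hg i p hp).1
      omega
    · rw [← envZ_eq, ← envZ_eq]; rfl
  | K i =>
    intro d g hg
    cases h : g i with
    | none =>
      refine SE.tru.not.congr fun M _ S v W _ => ?_
      show ¬ True ↔ Cds S (envZ g v W i)
      rw [envZ_eq, h]
      show ¬ True ↔ Cds S ∅
      simp only [not_true_eq_false, false_iff]
      rintro ⟨s, e, h1, -⟩
      have h2 : pair (num 0) (s 0) ∈ fnZ s := pair_mem_fnZ.2 rfl
      rw [← h1] at h2
      exact ZFSet.notMem_empty _ h2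
    | some p =>
      obtain ⟨ψ, hψ⟩ := h2 τ p.1 p.2
      refine ⟨ψ, fun M _ S v W hW => ?_⟩
      rw [hψ M S v W (hW _ ⟨i, p, h, rfl⟩)]
      show _ ↔ Cds S (envZ g v W i)
      rw [envZ_eq, h]
      rfl
  | neg φ ih => intro d g hg; exact (ih d g hg).not
  | and φ ψ ih1 ih2 => intro d g hg; exact (ih1 d g hg).and (ih2 d g hg)
  | all φ ih =>
    intro d g hg
    have h1 := (ih (d + 1) (cons (some (d, d)) g) (by
      intro i p hp
      cases i with
      | zero =>
        have : some (d, d) = some p := hp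
        rw [Option.some.injEq] at this
        rw [← this]
        exact ⟨by show d < d + 1; omega, by show d < d + 1; omega⟩
      | succ i =>
        obtain ⟨h1, h2⟩ := hg i p hp
        exact ⟨by omega, by omega⟩)).mono (wg_cons g d)
    have hd : d ∉ wg g := by
      rintro ⟨i, p, hp, he⟩
      have := (hg i p hp).1
      omega
    refine ((SE.allRW hd h1).all d).congr fun M _ S v W _ => ?_
    show _ ↔ ∀ a ∈ HH M, KSat (HH M) (Cds S) φ (cons a (envZ g v W))
    rw [all_HH]
    refine forall_congr' fun x => ?_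
    simp only [envZ_cons g d hg]
    constructor
    · intro h E hE
      have := h (fun p => E (p 0) (p 1))
      have e : rl (W.upd 2 d (fun p => E (p 0) (p 1))) d = E := by
        funext a b
        rw [SD.rl_upd_self]
        rfl
      rw [e] at this
      exact this hE
    · intro h A hA
      exact h _ hA

/-- infinity is expressible -/
theorem inf_fml {τ : Voc} : ∃ χ : SO τ, ∀ (M : Type) (S : Str τ M) (v : ℕ → M) (W : Asg M),
    (χ.Sat S v W ↔ Infinite M) := by
  refine ⟨.neg (.allR 2 0 (.neg (.and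
    (.all 0 (.neg (.all 1 (.neg (.var 2 0 ![0, 1])))))
    (.and (.all 0 (.all 1 (.all 2 (.neg (.and (.var 2 0 ![0, 1]) (.and (.var 2 0 ![0, 2])
      (.neg (.eq 1 2))))))))
    (.and (.all 0 (.all 1 (.all 2 (.neg (.and (.var 2 0 ![0, 2]) (.and (.var 2 0 ![1, 2])
      (.neg (.eq 0 1))))))))
    (.neg (.all 0 (.neg (.all 1 (.neg (.var 2 0 ![1, 0]))))))))))), ?_⟩
  intro M S v W
  have e1 : ∀ A : (Fin 2 → M) → Prop, (W.upd 2 0 A) 2 0 = A := by
    intro A
    unfold SOCat.Asg.upd
    rw [Function.update_self, Function.update_self]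
  have e2 : ∀ (u : ℕ → M) (x y : ℕ), (fun k => u ((![x, y] : Fin 2 → ℕ) k)) = ![u x, u y] := by
    intro u x y
    funext k
    fin_cases k <;> rfl
  have n01 : (0 : ℕ) ≠ 1 := by norm_num
  have n02 : (0 : ℕ) ≠ 2 := by norm_num
  have n12 : (1 : ℕ) ≠ 2 := by norm_num
  have sem : SO.Sat S (.neg (.allR 2 0 (.neg (.and
    (.all 0 (.neg (.all 1 (.neg (.var 2 0 ![0, 1])))))
    (.and (.all 0 (.all 1 (.all 2 (.neg (.and (.var 2 0 ![0, 1]) (.and (.var 2 0 ![0, 2])
      (.neg (.eq 1 2))))))))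
    (.and (.all 0 (.all 1 (.all 2 (.neg (.and (.var 2 0 ![0, 2]) (.and (.var 2 0 ![1, 2])
      (.neg (.eq 0 1))))))))
    (.neg (.all 0 (.neg (.all 1 (.neg (.var 2 0 ![1, 0])))))))))))) v W ↔
      ¬ ∀ A : (Fin 2 → M) → Prop, ¬ ((∀ a : M, ¬ ∀ b : M, ¬ A ![a, b]) ∧
        (∀ a b c : M, ¬ (A ![a, b] ∧ A ![a, c] ∧ ¬ b = c)) ∧
        (∀ a b c : M, ¬ (A ![a, c] ∧ A ![b, c] ∧ ¬ a = b)) ∧
        ¬ ∀ a : M, ¬ ∀ b : M, ¬ A ![b, a]) := by
    simp only [SO.Sat, e1, e2, Function.update_self, Function.update_of_ne n01,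
      Function.update_of_ne n02, Function.update_of_ne n12]
  rw [sem]
  push Not
  constructor
  · rintro ⟨A, h1, h2, h3, h4⟩
    choose f hf using h1
    by_contra hfin
    rw [not_infinite_iff_finite] at hfin
    have hinj : Function.Injective f := by
      intro a b hab
      refine h3 a b (f a) (hf a) ?_
      rw [hab]; exact hf b
    have hsurj := Finite.injective_iff_surjective.1 hinj
    obtain ⟨a, ha⟩ := h4
    obtain ⟨b, hb⟩ := hsurj a
    exact ha b (hb ▸ hf b)
  · intro hinf
    have hc : Cardinal.mk (Option M) = Cardinal.mk M := by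
      rw [Cardinal.mk_option, Cardinal.add_one_eq (Cardinal.aleph0_le_mk M)]
    obtain ⟨e⟩ := Cardinal.eq.1 hc
    refine ⟨fun p => e (some (p 0)) = p 1, ?_, ?_, ?_, ?_⟩
    · intro a
      exact ⟨e (some a), rfl⟩
    · intro a b c h1 h2
      have h1' : e (some a) = b := h1
      have h2' : e (some a) = c := h2
      rw [← h1', ← h2']
    · intro a b c h1 h2
      have h1' : e (some a) = c := h1
      have h2' : e (some b) = c := h2
      have := e.injective (h1'.trans h2'.symm)
      exact Option.some.inj this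
    · refine ⟨e none, fun b hb => ?_⟩
      have hb' : e (some b) = e none := hb
      have := e.injective hb'
      exact absurd this (by simp)

theorem task (h1 : T_KS1) (h2 : T_KS2) : T_KS := by
  intro τ φ
  obtain ⟨ψ, hψ⟩ := main h2 τ φ 0 (fun _ => none) (by intro i p hp; exact absurd hp (by simp))
  obtain ⟨χ, hχ⟩ := inf_fml (τ := τ)
  have key : ∀ (M : Type) [Infinite M] (S : Str τ M) (v : ℕ → M) (W : Asg M),
      (ψ.Sat S v W ↔ KSat (HH M) (Cds S) φ (fun _ => ∅)) := by
    intro M _ S v W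
    rw [hψ M S v W (by
      rintro n ⟨i, p, hp, -⟩
      exact absurd hp (by simp))]
    have e : envZ (fun _ => none) v W = fun _ => ∅ := by
      funext i
      rfl
    show KSat (HH M) (Cds S) φ (envZ (fun _ => none) v W) ↔ _
    rw [e]
  refine ⟨.and χ ψ, ?_, ?_⟩
  · intro M S v v' W W' h
    obtain ⟨ha, hb⟩ := h
    have hinf : Infinite M := (hχ M S v W).1 ha
    refine ⟨(hχ M S v' W').2 hinf, ?_⟩
    exact (key M S v' W').2 ((key M S v W).1 hb)
  · intro M _ S
    constructor
    · intro h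
      obtain ⟨m⟩ := (inferInstance : Nonempty M)
      exact (key M S (fun _ => m) (fun _ _ _ => True)).1 (h _ _).2
    · intro h v W
      exact ⟨(hχ M S v W).2 inferInstance, (key M S v W).2 h⟩

end Pool.Agent.W826.VLKs3
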